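import Pool.Agent.Lib.MP_78c6b1_al.Lim.R1Defs

/-! The shift by `w ≥ 2` is not a derivation unless the constants `c (q + 1) t` vanish for
large `t`. -/

namespace Pool.Agent.P78

open Filter Polynomial

namespace R1P

variable {K : Type} [Field K]

/-- The shift of two-sided sequences. -/
def sh (K : Type) [Field K] : (ℤ → K) →ₐ[K] (ℤ → K) where
  toFun f := fun n => f (n + 1)
  map_one' := rfl
  map_mul' _ _ := rfl
  map_zero' := rfl
  map_add' _ _ := rfl
  commutes' _ := rfl

/-- Two-sided linear recurrent sequences. -/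
def Rec (f : ℤ → K) : Prop :=
  ∃ W : Submodule K (ℤ → K), W.FG ∧ W.map (sh K).toLinearMap ≤ W ∧ f ∈ W

theorem Rec.add {f g : ℤ → K} (hf : Rec f) (hg : Rec g) : Rec (fun n => f n + g n) := by
  obtain ⟨V, hV, hV', hf⟩ := hf
  obtain ⟨W, hW, hW', hg⟩ := hg
  refine ⟨V ⊔ W, hV.sup hW, ?_, Submodule.add_mem_sup hf hg⟩
  rw [Submodule.map_sup]
  exact sup_le_sup hV' hW'

theorem Rec.smul {f : ℤ → K} (a : K) (hf : Rec f) : Rec (fun n => a * f n) := by
  obtain ⟨V, hV, hV', hf⟩ := hf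
  exact ⟨V, hV, hV', V.smul_mem a hf⟩

theorem Rec.sub {f g : ℤ → K} (hf : Rec f) (hg : Rec g) : Rec (fun n => f n - g n) := by
  have h := hf.add (hg.smul (-1))
  have e : (fun n => f n + -1 * g n) = fun n => f n - g n := by
    funext n; ring
  rwa [e] at h

theorem Rec.mul {f g : ℤ → K} (hf : Rec f) (hg : Rec g) : Rec (fun n => f n * g n) := by
  obtain ⟨V, hV, hV', hf⟩ := hf
  obtain ⟨W, hW, hW', hg⟩ := hg
  refine ⟨V * W, hV.mul hW, ?_, Submodule.mul_mem_mul hf hg⟩
  rw [Submodule.map_mul]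
  exact mul_le_mul' hV' hW'

theorem rec_pow {R : Type} [CommRing R] [Algebra K R] [Module.Finite K R] (φ : R →ₗ[K] K)
    (x : R) (U : Rˣ) : Rec (fun n : ℤ => φ (x * ((U ^ n : Rˣ) : R))) := by
  let L : R →ₗ[K] (ℤ → K) :=
    LinearMap.pi fun n : ℤ => φ ∘ₗ LinearMap.mulRight K ((U ^ n : Rˣ) : R)
  refine ⟨LinearMap.range L, ?_, ?_, ⟨x, rfl⟩⟩
  · rw [LinearMap.range_eq_map]
    exact Module.Finite.fg_top.map L
  · rintro _ ⟨_, ⟨y, rfl⟩, rfl⟩
    refine ⟨y * (U : R), ?_⟩
    funext n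
    change φ (y * (U : R) * ((U ^ n : Rˣ) : R)) = φ (y * ((U ^ (n + 1) : Rˣ) : R))
    rw [zpow_add_one, Units.val_mul]
    congr 1
    ring

theorem Rec.eq_zero {f : ℤ → K} (hf : Rec f) (n₀ : ℤ) (h : ∀ n, n₀ ≤ n → f n = 0) (n : ℤ) :
    f n = 0 := by
  obtain ⟨W, hW, hW', hf⟩ := hf
  let Z : Submodule K (ℤ → K) :=
    { carrier := {g | ∀ n, n₀ ≤ n → g n = 0}
      add_mem' := fun {a b} ha hb n hn => by
        rw [Pi.add_apply, ha n hn, hb n hn, add_zero]
      zero_mem' := fun _ _ => rfl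
      smul_mem' := fun a g hg n hn => by
        rw [Pi.smul_apply, hg n hn, smul_zero] }
  have : Module.Finite K W := Module.Finite.iff_fg.2 hW
  have : Module.Finite K (W ⊓ Z : Submodule K (ℤ → K)) :=
    Submodule.finiteDimensional_of_le (inf_le_left : W ⊓ Z ≤ W)
  have hmap : ∀ g ∈ W ⊓ Z, (sh K).toLinearMap g ∈ W ⊓ Z := fun g hg =>
    ⟨hW' ⟨g, hg.1, rfl⟩, fun n hn => hg.2 (n + 1) (by omega)⟩
  have hinj : Function.Injective ((sh K).toLinearMap.restrict hmap) := by
    intro a b hab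
    apply Subtype.ext
    funext n
    have h1 := congrFun (congrArg Subtype.val hab) (n - 1)
    change a.1 (n - 1 + 1) = b.1 (n - 1 + 1) at h1
    rwa [sub_add_cancel] at h1
  have hsurj := LinearMap.injective_iff_surjective.1 hinj
  have key : ∀ j : ℕ, ∀ g ∈ W ⊓ Z, ∀ n, n₀ - j ≤ n → g n = 0 := by
    intro j
    induction j with
    | zero => intro g hg n hn; exact hg.2 n (by simpa using hn)
    | succ j ih =>
      intro g hg n hn
      obtain ⟨g', hg'⟩ := hsurj ⟨g, hg⟩
      have h1 := congrFun (congrArg Subtype.val hg') n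
      change g'.1 (n + 1) = g n at h1
      rw [← h1]
      exact ih g'.1 g'.2 (n + 1) (by push_cast at hn; omega)
  exact key (n₀ - n).toNat f ⟨hf, h⟩ n (by omega)

theorem exists_Q [CharZero K] (w : ℕ) (hw : 2 ≤ w) :
    ∃ Q : K[X], 1 - X ^ w - (1 - X) ^ w = X * (1 - X) * Q ∧ Q.eval 0 ≠ 0 ∧ Q.eval 1 ≠ 0 := by
  obtain ⟨v, rfl⟩ : ∃ v, w = v + 2 := ⟨w - 2, by omega⟩
  have h0 : (X : K[X]) ∣ 1 - X ^ (v + 2) - (1 - X) ^ (v + 2) := by
    rw [X_dvd_iff, coeff_zero_eq_eval_zero]
    simp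
  obtain ⟨P₁, hP₁⟩ := h0
  have h1 : (X - C 1 : K[X]) ∣ P₁ := by
    rw [dvd_iff_isRoot]
    have := congrArg (eval 1) hP₁
    simpa using this.symm
  obtain ⟨Q, hQ⟩ := h1
  have hE : 1 - X ^ (v + 2) - (1 - X) ^ (v + 2) = X * (1 - X) * (-Q) := by
    rw [hP₁, hQ, C_1]; ring
  have hD := congrArg derivative hE
  have hv : ((v : K) + 1 + 1) ≠ 0 := by exact_mod_cast (by omega : v + 1 + 1 ≠ 0)
  refine ⟨-Q, hE, ?_, ?_⟩
  · have h := congrArg (eval 0) hD
    simp [derivative_pow] at h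
    intro h'
    rw [eval_neg] at h'
    apply hv
    linear_combination h + h'
  · have h := congrArg (eval 1) hD
    simp [derivative_pow] at h
    intro h'
    rw [eval_neg] at h'
    apply hv
    linear_combination -h + h'

theorem isUnit_mk (Q : K[X]) (a : K) (h : Q.eval a ≠ 0) :
    IsUnit (AdjoinRoot.mk Q (X - C a)) := by
  obtain ⟨g, hg⟩ := X_sub_C_dvd_sub_C_eval (p := Q) (a := a)
  have h1 := congrArg (AdjoinRoot.mk Q) hg
  rw [map_sub, AdjoinRoot.mk_self, map_mul, zero_sub] at h1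
  have h2 : IsUnit (AdjoinRoot.mk Q (C (Q.eval a))) :=
    ((isUnit_iff_ne_zero.2 h).map C).map _
  exact isUnit_of_mul_isUnit_left (h1 ▸ h2.neg)

/-- The constants extend to a two-sided recurrent array. -/
theorem exists_ext [CharZero K] (q w : ℕ) (c : ℕ → ℕ → K) (hc : Cst q c) (hw : 2 ≤ w)
    (hd : ∀ s t, q ≤ s → q ≤ t → c s t = c (s + w) t + c s (t + w)) :
    ∃ D : ℤ → ℤ → K, (∀ s t : ℕ, q + 1 ≤ s → q + 1 ≤ t → D s t = c s t) ∧
      (∀ s t, D s t = D (s + 1) t + D s (t + 1)) ∧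
      (∀ s t, D s t = D (s + w) t + D s (t + w)) ∧
      (∀ a t, Rec fun n => D (n + a) t) ∧ (∀ s a, Rec fun n => D s (n + a)) := by
  obtain ⟨Q, hQ, hQ0, hQ1⟩ := exists_Q (K := K) w hw
  let μ : K[X] →ₗ[K] K := (basisMonomials K).constr K fun t => c q (q + t)
  have hμ0 : ∀ t, μ (X ^ t) = c q (q + t) := by
    intro t
    have h := (basisMonomials K).constr_basis K (fun t => c q (q + t)) t
    rw [← monomial_one_right_eq_X_pow]
    exact h
  have hμ : ∀ s t, μ ((1 - X) ^ s * X ^ t) = c (q + s) (q + t) := by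
    intro s
    induction s with
    | zero => intro t; simpa using hμ0 t
    | succ s ih =>
      intro t
      have e : ((1 - X) ^ (s + 1) * X ^ t : K[X]) =
          (1 - X) ^ s * X ^ t - (1 - X) ^ s * X ^ (t + 1) := by ring
      rw [e, map_sub, ih, ih, hc.der (q + s) (q + t) (by omega) (by omega), ← add_assoc,
        ← add_assoc]
      ring
  have hker : ∀ f, μ (X * (1 - X) * Q * f) = 0 := by
    intro f
    rw [← hQ]
    induction f using Polynomial.induction_on' with
    | add f g hf hg => rw [mul_add, map_add, hf, hg, add_zero]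
    | monomial t a =>
      have e : ((1 - X ^ w - (1 - X) ^ w) * monomial t a : K[X]) =
          a • (X ^ t - X ^ (t + w) - (1 - X) ^ w * X ^ t) := by
        rw [← C_mul_X_pow_eq_monomial, smul_eq_C_mul]; ring
      rw [e, map_smul, map_sub, map_sub, hμ0, hμ0, hμ, hd q (q + t) le_rfl (by omega),
        ← add_assoc]
      simp
  have hQne : Q ≠ 0 := by
    rintro rfl
    simp at hQ0
  have : Module.Finite K (AdjoinRoot Q) := (AdjoinRoot.powerBasis hQne).finite
  obtain ⟨σ, hσ⟩ := LinearMap.exists_rightInverse_of_surjective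
    (AdjoinRoot.mkₐ Q).toLinearMap (LinearMap.range_eq_top.2 (AdjoinRoot.mk_surjective (g := Q)))
  let φ : AdjoinRoot Q →ₗ[K] K := μ ∘ₗ LinearMap.mulLeft K (X * (1 - X)) ∘ₗ σ
  have hφ : ∀ f, φ (AdjoinRoot.mk Q f) = μ (X * (1 - X) * f) := by
    intro f
    have h1 : AdjoinRoot.mk Q (σ (AdjoinRoot.mk Q f)) = AdjoinRoot.mk Q f := by
      have h := LinearMap.congr_fun hσ (AdjoinRoot.mk Q f)
      simpa using h
    obtain ⟨g, hg⟩ := AdjoinRoot.mk_eq_mk.1 h1
    simp only [φ, LinearMap.comp_apply, LinearMap.mulLeft_apply]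
    rw [sub_eq_iff_eq_add.1 hg, mul_add, map_add, ← mul_assoc, hker, zero_add]
  clear_value φ
  obtain ⟨B, hB⟩ : IsUnit (AdjoinRoot.mk Q X) := by simpa using isUnit_mk Q 0 hQ0
  obtain ⟨A, hA⟩ : IsUnit (AdjoinRoot.mk Q (1 - X)) := by
    have h := (isUnit_mk Q 1 hQ1).neg
    rwa [← map_neg, neg_sub, C_1] at h
  have hAB : (A : AdjoinRoot Q) + B = 1 := by
    rw [hA, hB, ← map_add, sub_add_cancel, map_one]
  have hABw : (A : AdjoinRoot Q) ^ w + (B : AdjoinRoot Q) ^ w = 1 := by
    have h := congrArg (AdjoinRoot.mk Q) hQ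
    rw [map_mul, AdjoinRoot.mk_self, mul_zero, map_sub, map_sub, map_pow, map_pow, map_one,
      ← hA, ← hB] at h
    linear_combination -h
  refine ⟨fun s t => φ (((A ^ (s - q - 1) : (AdjoinRoot Q)ˣ) : AdjoinRoot Q) *
    ((B ^ (t - q - 1) : (AdjoinRoot Q)ˣ) : AdjoinRoot Q)), ?_, ?_, ?_, ?_, ?_⟩
  · intro s t hs ht
    obtain ⟨s, rfl⟩ := Nat.exists_eq_add_of_le hs
    obtain ⟨t, rfl⟩ := Nat.exists_eq_add_of_le ht
    have e1 : ((q + 1 + s : ℕ) : ℤ) - q - 1 = s := by push_cast; ring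
    have e2 : ((q + 1 + t : ℕ) : ℤ) - q - 1 = t := by push_cast; ring
    simp only [e1, e2, zpow_natCast, Units.val_pow_eq_pow_val]
    rw [hA, hB, ← map_pow, ← map_pow, ← map_mul, hφ]
    have e : (X * (1 - X) * ((1 - X) ^ s * X ^ t) : K[X]) = (1 - X) ^ (1 + s) * X ^ (1 + t) := by
      ring
    rw [e, hμ, ← add_assoc, ← add_assoc]
  · intro s t
    have e1 : s + 1 - q - 1 = s - q - 1 + 1 := by ring
    have e2 : t + 1 - q - 1 = t - q - 1 + 1 := by ring
    simp only [e1, e2, zpow_add_one, Units.val_mul]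
    rw [← map_add]
    congr 1
    linear_combination (-((A ^ (s - q - 1) : (AdjoinRoot Q)ˣ) : AdjoinRoot Q) *
      ((B ^ (t - q - 1) : (AdjoinRoot Q)ˣ) : AdjoinRoot Q)) * hAB
  · intro s t
    have e1 : s + w - q - 1 = s - q - 1 + w := by ring
    have e2 : t + w - q - 1 = t - q - 1 + w := by ring
    simp only [e1, e2, zpow_add, zpow_natCast, Units.val_mul, Units.val_pow_eq_pow_val]
    rw [← map_add]
    congr 1
    linear_combination (-((A ^ (s - q - 1) : (AdjoinRoot Q)ˣ) : AdjoinRoot Q) *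
      ((B ^ (t - q - 1) : (AdjoinRoot Q)ˣ) : AdjoinRoot Q)) * hABw
  · intro a t
    have h := rec_pow φ (((A ^ (a - q - 1) : (AdjoinRoot Q)ˣ) : AdjoinRoot Q) *
      ((B ^ (t - q - 1) : (AdjoinRoot Q)ˣ) : AdjoinRoot Q)) A
    have e : ∀ n : ℤ, n + a - q - 1 = a - q - 1 + n := fun n => by ring
    simp only [e, zpow_add, Units.val_mul]
    simpa only [mul_right_comm] using h
  · intro s a
    have h := rec_pow φ (((A ^ (s - q - 1) : (AdjoinRoot Q)ˣ) : AdjoinRoot Q) *
      ((B ^ (a - q - 1) : (AdjoinRoot Q)ˣ) : AdjoinRoot Q)) B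
    have e : ∀ n : ℤ, n + a - q - 1 = a - q - 1 + n := fun n => by ring
    simp only [e, zpow_add, Units.val_mul]
    simpa only [mul_assoc] using h

end R1P

open R1P in
theorem pStmt : PStmt := by
  intro K _ _ q w c hc hw hd
  classical
  obtain ⟨D, hDc, hD1, hDw, hR1, hR2⟩ := exists_ext q w c hc hw hd
  have hR1' : ∀ t, Rec fun n => D n t := fun t => by simpa using hR1 0 t
  have hR2' : ∀ s, Rec fun n => D s n := fun s => by simpa using hR2 s 0
  -- the Jacobi identity at `r = 0`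
  have j0 : ∀ s t : ℕ, q + 1 ≤ s → q + 1 ≤ t →
      D 0 s * D s t - D s t * D 0 (s + t) + D 0 t * D s t = 0 := by
    intro s t hs ht
    have hrec := (((hR1' s).mul (hR1 s t)).sub ((hR1' (s + t)).smul (D s t))).add
      ((hR1' t).mul (hR2 s t))
    have h := hrec.eq_zero (q + 1) (fun n hn => by
      obtain ⟨r, rfl⟩ := Int.eq_ofNat_of_zero_le (by omega : 0 ≤ n)
      have hr : q + 1 ≤ r := by omega
      have hj := hc.jac r s t (by omega) (by omega) (by omega)
      rw [← Nat.cast_add, ← Nat.cast_add, ← Nat.cast_add, hDc r s hr hs,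
        hDc (r + s) t (by omega) ht, hDc s t hs ht, hDc r (s + t) hr (by omega), hDc r t hr ht,
        hDc s (r + t) hs (by omega)]
      linear_combination hj) 0
    simpa using h
  have j1 : ∀ t : ℕ, q + 1 ≤ t → D 1 t = 0 ∨ D 1 t = - D 0 1 := by
    intro t ht
    have hrec := (((hR2' 0).mul (hR1' t)).sub ((hR1' t).mul (hR2 0 t))).add
      ((hR1' t).smul (D 0 t))
    have h := hrec.eq_zero (q + 1) (fun n hn => by
      obtain ⟨s, rfl⟩ := Int.eq_ofNat_of_zero_le (by omega : 0 ≤ n)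
      exact j0 s t (by omega) ht) 1
    have h1 := hD1 0 t
    rw [zero_add] at h1
    rw [add_comm (1 : ℤ) t] at h
    have h2 : D 1 t * (D 1 t + D 0 1) = 0 := by linear_combination h - D 1 t * h1
    rcases mul_eq_zero.1 h2 with h3 | h3
    · exact Or.inl h3
    · exact Or.inr (eq_neg_of_add_eq_zero_left h3)
  -- finitely many values
  have hfin : ∀ j : ℕ, ∃ S : Set K, S.Finite ∧ ∀ t : ℕ, q + 1 ≤ t → D (j + 1) t ∈ S := by
    intro j
    induction j with
    | zero =>
      refine ⟨{0, - D 0 1}, Set.toFinite _, fun t ht => ?_⟩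
      simpa using j1 t ht
    | succ j ih =>
      obtain ⟨S, hS, hS'⟩ := ih
      refine ⟨Set.image2 (fun a b => a - b) S S, hS.image2 _ hS, fun t ht => ?_⟩
      refine ⟨_, hS' t ht, _, hS' (t + 1) (by omega), ?_⟩
      have h := hD1 (j + 1) t
      push_cast
      linear_combination h
  -- `D 1 t` vanishes for large `t`
  have hev : ∃ N : ℕ, ∀ t : ℕ, N ≤ t → D 1 t = 0 := by
    by_cases hk : D 0 1 = 0
    · refine ⟨q + 1, fun t ht => ?_⟩
      rcases j1 t ht with h | h
      · exact h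
      · rw [h, hk, neg_zero]
    obtain ⟨v, rfl⟩ : ∃ v, w = v + 2 := ⟨w - 2, by omega⟩
    obtain ⟨S, hS, hS'⟩ := hfin v
    let e : ℕ → ℕ := fun t => if D 1 t = 0 then 0 else 1
    have he : ∀ t : ℕ, q + 1 ≤ t → D 1 t = - D 0 1 * e t := by
      intro t ht
      by_cases h : D 1 t = 0
      · simp [e, h]
      · rcases j1 t ht with h' | h'
        · exact absurd h' h
        · simp only [e, if_neg h, Nat.cast_one, mul_one]; exact h'
    have hsum : ∀ (i t : ℕ), q + 1 ≤ t →
        D 0 t - D 0 (t + i) = - D 0 1 * ((∑ a ∈ Finset.range i, e (t + a) : ℕ) : K) := by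
      intro i t ht
      induction i with
      | zero => simp
      | succ i ih =>
        have h1 := hD1 0 (t + i)
        have h2 := he (t + i) (by omega)
        rw [Finset.sum_range_succ]
        rw [zero_add] at h1
        push_cast at ih h2 ⊢
        rw [← add_assoc]
        linear_combination ih + h1 + h2
    let m : ℕ → ℕ := fun t => ∑ a ∈ Finset.range (v + 2), e (t + a)
    let n : ℕ → ℕ := fun N => ∑ t ∈ Finset.range N, m (q + 1 + t)
    have hn : ∀ N : ℕ, D (v + 1) (q + 1 + N : ℕ) = D (v + 1) (q + 1 : ℕ) + D 0 1 * (n N : K) := by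
      intro N
      induction N with
      | zero => simp [n]
      | succ N ih =>
        have h1 := hsum (v + 2) (q + 1 + N) (by omega)
        have h2 := hDw 0 (q + 1 + N : ℕ)
        have h3 := hD1 (v + 1) (q + 1 + N : ℕ)
        have e1 : (0 : ℤ) + ((v + 2 : ℕ) : ℤ) = v + 1 + 1 := by push_cast; ring
        have e2 : ((q + 1 + (N + 1) : ℕ) : ℤ) = ((q + 1 + N : ℕ) : ℤ) + 1 := by push_cast; ring
        have e3 : (n (N + 1) : K) = n N + m (q + 1 + N) := by
          simp only [n, Finset.sum_range_succ, Nat.cast_add]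
        rw [e1] at h2
        rw [e2, e3]
        change _ = _ * (m (q + 1 + N) : K) at h1
        linear_combination ih - h3 + h2 - h1
    have hinj : Function.Injective
        fun x : ℕ => D (v + 1) (q + 1 : ℕ) + D 0 1 * (x : K) := by
      intro x y hxy
      exact Nat.cast_injective (mul_left_cancel₀ hk (add_left_cancel hxy))
    have hfr : (Set.range n).Finite := by
      refine (hS.preimage hinj.injOn).subset ?_
      rintro _ ⟨N, rfl⟩
      change _ + _ ∈ S
      rw [← hn]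
      exact hS' _ (by omega)
    obtain ⟨_, ⟨N₀, rfl⟩, hmax⟩ := Set.exists_max_image _ id hfr (Set.range_nonempty n)
    have hmono : Monotone n := monotone_nat_of_le_succ fun N => by
      simp only [n, Finset.sum_range_succ]; omega
    refine ⟨q + 1 + N₀, fun t ht => ?_⟩
    obtain ⟨N, rfl⟩ : ∃ N, t = q + 1 + N := ⟨t - (q + 1), by omega⟩
    have h1 : n (N + 1) ≤ n N₀ := hmax _ ⟨N + 1, rfl⟩
    have h2 : n N₀ ≤ n N := hmono (by omega)
    have h3 : n (N + 1) = n N + m (q + 1 + N) := Finset.sum_range_succ _ _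
    have h4 : e (q + 1 + N + 0) ≤ m (q + 1 + N) :=
      Finset.single_le_sum (f := fun a => e (q + 1 + N + a)) (fun _ _ => Nat.zero_le _)
        (Finset.mem_range.2 (by omega))
    have h5 : e (q + 1 + N) = 0 := by rw [add_zero] at h4; omega
    rw [he _ (by omega), h5, Nat.cast_zero, mul_zero]
  obtain ⟨N, hN⟩ := hev
  have hall : ∀ j : ℕ, ∀ t : ℕ, N ≤ t → D (j + 1) t = 0 := by
    intro j
    induction j with
    | zero => intro t ht; simpa using hN t ht
    | succ j ih =>
      intro t ht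
      have h := hD1 (j + 1) t
      have h1 := ih t ht
      have h2 := ih (t + 1) (by omega)
      push_cast at h2 ⊢
      linear_combination h1 - h2 - h
  filter_upwards [eventually_ge_atTop (N + q + 1)] with t ht
  rw [← hDc (q + 1) t le_rfl (by omega)]
  have h := hall q t (by omega)
  push_cast
  exact h

end Pool.Agent.P78
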