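import Pool.Agent.Lib.MP_78c6b1_al.Lim.R1Defs

/-! The types `q = 1` and `q = 2`. -/

namespace Pool.Agent.P78

variable {K : Type} [Field K]

/-- The first four nonzero diagonals below a row vanishing up to `m`. -/
theorem q12_diag {c : ℕ → ℕ → K} (h : Cst 2 c) (m : ℕ) (hm : ∀ t, 2 ≤ t → t < m → c 2 t = 0)
    [CharZero K] (s : ℕ) : ∀ t, 2 ≤ t →
    (t + s < m → c (s + 2) t = 0) ∧ (t + s = m → c (s + 2) t = (-1) ^ s * c 2 m) ∧
    (t + s = m + 1 → c (s + 2) t = (-1) ^ s * (c 2 (m + 1) - s * c 2 m)) ∧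
    (t + s = m + 2 → c (s + 2) t =
      (-1) ^ s * (c 2 (m + 2) - s * c 2 (m + 1) + s * (s - 1) / 2 * c 2 m)) ∧
    (t + s = m + 3 → c (s + 2) t = (-1) ^ s * (c 2 (m + 3) - s * c 2 (m + 2) +
      s * (s - 1) / 2 * c 2 (m + 1) - s * (s - 1) * (s - 2) / 6 * c 2 m)) := by
  induction s with
  | zero =>
    intro t ht
    refine ⟨fun e => hm t ht e, fun e => ?_, fun e => ?_, fun e => ?_, fun e => ?_⟩ <;>
      rw [← e] <;> simp
  | succ s ih =>
    intro t ht
    have d : c (s + 1 + 2) t = c (s + 2) t - c (s + 2) (t + 1) := by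
      rw [h.der (s + 2) t (by omega) ht]
      ring
    obtain ⟨a0, a1, a2, a3, -⟩ := ih t ht
    obtain ⟨b0, b1, b2, b3, b4⟩ := ih (t + 1) (by omega)
    rw [d]
    refine ⟨fun e => ?_, fun e => ?_, fun e => ?_, fun e => ?_, fun e => ?_⟩
    · rw [a0 (by omega), b0 (by omega), sub_zero]
    · rw [a0 (by omega), b1 (by omega)]
      ring
    · rw [a1 (by omega), b2 (by omega)]
      push_cast
      ring
    · rw [a2 (by omega), b3 (by omega)]
      push_cast
      ring
    · rw [a3 (by omega), b4 (by omega)]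
      push_cast
      ring

theorem q12_self {q : ℕ} {c : ℕ → ℕ → K} (h : Cst q c) [CharZero K] (s : ℕ) (hs : q ≤ s) :
    c s s = 0 := by
  have := h.anti s s hs hs
  have h2 : (2 : K) * c s s = 0 := by linear_combination this
  exact (mul_eq_zero.1 h2).resolve_left two_ne_zero

theorem q12_sign (s : ℕ) {x : K} (h : 0 = (-1 : K) ^ s * x) : x = 0 :=
  (mul_eq_zero.1 h.symm).resolve_left (pow_ne_zero _ (neg_ne_zero.2 one_ne_zero))

theorem q12_first (a : ℕ → K) (h : ∃ t, 2 ≤ t ∧ a t ≠ 0) :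
    ∃ m, 2 ≤ m ∧ a m ≠ 0 ∧ ∀ t, 2 ≤ t → t < m → a t = 0 := by
  classical
  refine ⟨Nat.find h, (Nat.find_spec h).1, (Nat.find_spec h).2, fun t ht hl => ?_⟩
  by_contra hne
  exact Nat.find_min h hl ⟨ht, hne⟩

/-- The first nonzero entry sits at an odd place, and the next entry is determined. -/
theorem q12_odd {c : ℕ → ℕ → K} (h : Cst 2 c) [CharZero K] (m : ℕ) (h2 : 2 ≤ m) (h0 : c 2 m ≠ 0)
    (hm : ∀ t, 2 ≤ t → t < m → c 2 t = 0) :
    ∃ s, 1 ≤ s ∧ m = 2 * s + 1 ∧ c 2 (m + 1) = s * c 2 m := by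
  rcases Nat.even_or_odd' m with ⟨j, e | e⟩
  · have := (q12_diag h m hm (j - 1) (j - 1 + 2) (by omega)).2.1 (by omega)
    rw [q12_self h _ (by omega)] at this
    exact absurd (q12_sign _ this) h0
  · have := (q12_diag h m hm j (j + 2) (by omega)).2.2.1 (by omega)
    rw [q12_self h _ (by omega)] at this
    exact ⟨j, by omega, e, by linear_combination q12_sign _ this⟩

theorem q1Stmt : Q1Stmt := by
  intro K _ _ c h
  have h' : Cst 2 c := ⟨fun s t a b => h.der s t (by omega) (by omega),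
    fun s t a b => h.anti s t (by omega) (by omega),
    fun r s t a b d => h.jac r s t (by omega) (by omega) (by omega)⟩
  by_contra hne
  push Not at hne
  obtain ⟨m, h2, h0, hm⟩ := q12_first (c 2) hne
  obtain ⟨s, -, -, hs⟩ := q12_odd h' m h2 h0 hm
  have row : ∀ t, 2 ≤ t → t ≤ m → c 1 t = c 1 2 := by
    intro t ht
    induction t, ht using Nat.le_induction with
    | base => exact fun _ => rfl
    | succ t ht ih =>
      intro hl
      have := h.der 1 t le_rfl (by omega)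
      rw [hm t ht (by omega), ih (by omega)] at this
      linear_combination -this
  have e0 := row m h2 le_rfl
  have e1 := h.der 1 m le_rfl (by omega)
  have e2 := h.der 1 (m + 1) le_rfl (by omega)
  have e3 := h.der 2 m (by omega) (by omega)
  have e4 := h.jac 1 2 m le_rfl (by omega) (by omega)
  rw [add_comm 2 m, add_comm 1 m] at e4
  have e5 : c 2 m * (((s + 1 : ℕ) : K) * c 2 m) = 0 := by
    push_cast
    norm_num at e1 e2 e3 e4
    linear_combination e4 - c 2 m * hs + c 1 2 * e3 - c 2 (m + 1) * e0 - c 2 m * e2 -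
      c 2 m * e1 + c 2 m * e0
  rcases mul_eq_zero.1 e5 with e | e
  · exact h0 e
  · exact h0 ((mul_eq_zero.1 e).resolve_left (Nat.cast_ne_zero.2 (by omega)))

/-- The recurrence for the second row. -/
theorem q12_rec {c : ℕ → ℕ → K} (h : Cst 2 c) (t : ℕ) (ht : 2 ≤ t) :
    c 2 (t + 3) * (2 * c 2 t - c 2 (t + 1) + c 2 3) =
      c 2 3 * (c 2 t - 3 * c 2 (t + 1) + 3 * c 2 (t + 2)) + c 2 t * c 2 (t + 2) := by
  have j := h.jac 2 3 t le_rfl (by omega) ht
  rw [add_comm 3 t, add_comm 2 t] at j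
  have a0 : c 3 t = c 2 t - c 2 (t + 1) := by linear_combination -h.der 2 t le_rfl ht
  have a1 : c 3 (t + 1) = c 2 (t + 1) - c 2 (t + 2) := by
    linear_combination -h.der 2 (t + 1) le_rfl (by omega)
  have a2 : c 3 (t + 2) = c 2 (t + 2) - c 2 (t + 3) := by
    linear_combination -h.der 2 (t + 2) le_rfl (by omega)
  have b0 : c 4 t = c 3 t - c 3 (t + 1) := by linear_combination -h.der 3 t (by omega) ht
  have b1 : c 4 (t + 1) = c 3 (t + 1) - c 3 (t + 2) := by
    linear_combination -h.der 3 (t + 1) (by omega) (by omega)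
  have d0 : c (2 + 3) t = c 4 t - c 4 (t + 1) := by linear_combination -h.der 4 t (by omega) ht
  rw [d0, b0, b1, a0, a1, a2] at j
  linear_combination -j

/-- The even entries of the second row up to place ten. -/
theorem q12_even {c : ℕ → ℕ → K} (h : Cst 2 c) [CharZero K] :
    c 2 4 = c 2 3 ∧ c 2 6 = 2 * c 2 5 - c 2 3 ∧ c 2 8 = 3 * c 2 3 - 5 * c 2 5 + 3 * c 2 7 ∧
      c 2 10 = -17 * c 2 3 + 28 * c 2 5 - 14 * c 2 7 + 4 * c 2 9 := by
  have d : ∀ s t, 2 ≤ s → 2 ≤ t → c (s + 1) t = c s t - c s (t + 1) := fun s t a b => by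
    linear_combination -h.der s t a b
  have r3 : ∀ t, 2 ≤ t → c 3 t = c 2 t - c 2 (t + 1) := fun t ht => d 2 t le_rfl ht
  have r4 : ∀ t, 2 ≤ t → c 4 t = c 2 t - 2 * c 2 (t + 1) + c 2 (t + 2) := fun t ht => by
    linear_combination d 3 t (by omega) ht + r3 t ht - r3 (t + 1) (by omega)
  have r5 : ∀ t, 2 ≤ t → c 5 t = c 2 t - 3 * c 2 (t + 1) + 3 * c 2 (t + 2) - c 2 (t + 3) :=
    fun t ht => by linear_combination d 4 t (by omega) ht + r4 t ht - r4 (t + 1) (by omega)
  have r6 : ∀ t, 2 ≤ t → c 6 t =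
      c 2 t - 4 * c 2 (t + 1) + 6 * c 2 (t + 2) - 4 * c 2 (t + 3) + c 2 (t + 4) :=
    fun t ht => by linear_combination d 5 t (by omega) ht + r5 t ht - r5 (t + 1) (by omega)
  have e3 := r3 3 (by omega)
  have e4 := r4 4 (by omega)
  have e5 := r5 5 (by omega)
  have e6 := r6 6 (by omega)
  rw [q12_self h _ (by omega)] at e3 e4 e5 e6
  norm_num at e3 e4 e5 e6
  have f4 : c 2 4 = c 2 3 := by linear_combination e3
  have f6 : c 2 6 = 2 * c 2 5 - c 2 3 := by linear_combination -e4 - f4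
  have f8 : c 2 8 = 3 * c 2 3 - 5 * c 2 5 + 3 * c 2 7 := by linear_combination e5 - 3 * f6
  exact ⟨f4, f6, f8, by linear_combination -e6 - f6 - 6 * f8⟩

/-- Weight at most twelve leaves two possibilities. -/
theorem q12_low {c : ℕ → ℕ → K} (h : Cst 2 c) [CharZero K] :
    c 2 5 = c 2 3 ∨ 10 * c 2 5 = 9 * c 2 3 := by
  obtain ⟨f4, f6, f8, f10⟩ := q12_even h
  have e1 := q12_rec h 4 (by omega)
  have e2 := q12_rec h 6 (by omega)
  have e3 := q12_rec h 7 (by omega)
  norm_num at e1 e2 e3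
  rw [f4, f6] at e1
  rw [f6, f8] at e2
  rw [f8, f10] at e3
  generalize c 2 3 = u at *
  generalize c 2 5 = x at *
  generalize c 2 7 = y at *
  generalize c 2 9 = z at *
  have key : (36 : K) * ((x - u) ^ 5 * (10 * x - 9 * u)) = 0 := by
    linear_combination
      ((-154 * u ^ 2 + 470 * x * u - 362 * x ^ 2) * (3 * u - x) ^ 2 +
        (-82 * u + 124 * x) * (3 * u - x) * ((3 * u - x) * y + u * (5 * x - 3 * u)) -
        14 * ((3 * u - x) ^ 2 * y ^ 2 + (3 * u - x) * y * (u * (5 * x - 3 * u)) +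
          (u * (5 * x - 3 * u)) ^ 2)) * e1 +
      (3 * u - x) ^ 3 * (-11 * u + 20 * x - 5 * y) * e2 -
      (3 * u - x) ^ 3 * (-u + 4 * x - y) * e3
  rcases mul_eq_zero.1 ((mul_eq_zero.1 key).resolve_left (by norm_num)) with e | e
  · exact Or.inl (sub_eq_zero.1 (pow_eq_zero_iff (by norm_num) |>.1 e))
  · exact Or.inr (sub_eq_zero.1 e)

/-- If the first constant vanishes, the whole second row vanishes. -/
theorem q12_zero {c : ℕ → ℕ → K} (h : Cst 2 c) [CharZero K] (h3 : c 2 3 = 0) :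
    ∀ t, 2 ≤ t → c 2 t = 0 := by
  by_contra hne
  push Not at hne
  obtain ⟨m, h2, h0, hm⟩ := q12_first (c 2) hne
  obtain ⟨s, hs1, hms, hs⟩ := q12_odd h m h2 h0 hm
  have h5 : c 2 5 = 0 := by
    rcases q12_low h with e | e
    · rw [e, h3]
    · rw [h3] at e
      have : (10 : K) * c 2 5 = 0 := by linear_combination e
      exact (mul_eq_zero.1 this).resolve_left (by norm_num)
  have hs3 : 3 ≤ s := by
    by_contra hh
    have : m = 3 ∨ m = 5 := by omega
    rcases this with rfl | rfl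
    · exact h0 h3
    · exact h0 h5
  obtain ⟨n, rfl⟩ : ∃ n, m = n + 1 := ⟨m - 1, by omega⟩
  have e1 := q12_rec h n (by omega)
  rw [h3, hm n (by omega) (by omega)] at e1
  have e2 : c 2 (n + 1 + 2) = 0 := by
    have : c 2 (n + 3) * c 2 (n + 1) = 0 := by linear_combination -e1
    exact (mul_eq_zero.1 this).resolve_right h0
  have e3 := q12_rec h (n + 1) (by omega)
  rw [h3, e2, hs] at e3
  have e4 := (q12_diag h (n + 1) hm (s + 1) (s + 1 + 2) (by omega)).2.2.2.2 (by omega)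
  rw [q12_self h _ (by omega)] at e4
  have e5 := q12_sign _ e4
  rw [e2, hs] at e5
  obtain ⟨r, rfl⟩ : ∃ r, s = r + 3 := ⟨s - 3, by omega⟩
  have e6 : c 2 (n + 1) * (c 2 (n + 1) *
      (((r + 4) * (r + 3) * (2 * r + 7) * (r + 1) : ℕ) : K)) = 0 := by
    push_cast at e3 e5 ⊢
    linear_combination 6 * e3 + 6 * (r + 1) * c 2 (n + 1) * e5
  rcases mul_eq_zero.1 e6 with e | e
  · exact h0 e
  · exact h0 ((mul_eq_zero.1 e).resolve_right (Nat.cast_ne_zero.2 (by positivity)))

theorem q12_const {c : ℕ → ℕ → K} (h : Cst 2 c) [CharZero K] (h3 : c 2 3 ≠ 0)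
    (h5 : c 2 5 = c 2 3) : ∀ n, c 2 (n + 3) = c 2 3 := by
  have key : ∀ n, c 2 (n + 3) = c 2 3 ∧ c 2 (n + 4) = c 2 3 ∧ c 2 (n + 5) = c 2 3 := by
    intro n
    induction n with
    | zero => exact ⟨rfl, (q12_even h).1, h5⟩
    | succ n ih =>
      refine ⟨ih.2.1, ih.2.2, ?_⟩
      have e := q12_rec h (n + 3) (by omega)
      rw [ih.1, ih.2.1, ih.2.2] at e
      have : (2 * c 2 3) * (c 2 (n + 3 + 3) - c 2 3) = 0 := by linear_combination e
      exact sub_eq_zero.1 ((mul_eq_zero.1 this).resolve_left (mul_ne_zero two_ne_zero h3))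
  exact fun n => (key n).1

theorem q12_witt {c : ℕ → ℕ → K} (h : Cst 2 c) [CharZero K] (h3 : c 2 3 ≠ 0)
    (h5 : 10 * c 2 5 = 9 * c 2 3) :
    ∀ n : ℕ, c 2 (n + 3) * ((n + 3) * (n + 2)) = 6 * c 2 3 * (n + 1) := by
  have key : ∀ n : ℕ, c 2 (n + 3) * ((n + 3) * (n + 2)) = 6 * c 2 3 * (n + 1) ∧
      c 2 (n + 4) * ((n + 4) * (n + 3)) = 6 * c 2 3 * (n + 2) ∧
      c 2 (n + 5) * ((n + 5) * (n + 4)) = 6 * c 2 3 * (n + 3) := by
    intro n
    induction n with
    | zero =>
      refine ⟨?_, ?_, ?_⟩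
      · simp only [Nat.cast_zero, zero_add]; ring
      · simp only [Nat.cast_zero, zero_add]; linear_combination 12 * (q12_even h).1
      · simp only [Nat.cast_zero, zero_add]; linear_combination 2 * h5
    | succ n ih =>
      obtain ⟨i1, i2, i3⟩ := ih
      have nz : ∀ k : ℕ, ((n : K) + (k + 1 : ℕ)) ≠ 0 := fun k => by
        rw [← Nat.cast_add]; exact Nat.cast_ne_zero.2 (by omega)
      have n1 : (n : K) + 1 ≠ 0 := by simpa using nz 0
      have n8 : (n : K) + 8 ≠ 0 := by simpa using nz 7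
      refine ⟨?_, ?_, ?_⟩
      · push_cast; linear_combination i2
      · push_cast; linear_combination i3
      · have e : c 2 (n + 1 + 5) * (2 * c 2 (n + 3) - c 2 (n + 4) + c 2 3) =
            c 2 3 * (c 2 (n + 3) - 3 * c 2 (n + 4) + 3 * c 2 (n + 5)) +
              c 2 (n + 3) * c 2 (n + 5) := q12_rec h (n + 3) (by omega)
        push_cast
        apply mul_left_cancel₀ (mul_ne_zero (mul_ne_zero h3 n1) n8)
        linear_combination ((n : K) + 2) * (n + 3) * (n + 4) * (n + 5) * e -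
          c 2 (n + 1 + 5) * (2 * (n + 4) * (n + 5) * i1 - (n + 2) * (n + 5) * i2) +
          c 2 3 * ((n + 4) * (n + 5) * i1 - 3 * (n + 2) * (n + 5) * i2 +
            3 * (n + 2) * (n + 3) * i3) +
          (c 2 (n + 5) * (n + 5) * (n + 4) * i1 + 6 * c 2 3 * (n + 1) * i3)
  exact fun n => (key n).1

theorem q2Stmt : Q2Stmt := by
  intro K _ _ c h ⟨t, ht, hne⟩
  have r3 : c 3 t = c 2 t - c 2 (t + 1) := by linear_combination -h.der 2 t le_rfl (by omega)
  have h3 : c 2 3 ≠ 0 := fun h3 => hne (by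
    rw [r3, q12_zero h h3 t (by omega), q12_zero h h3 (t + 1) (by omega), sub_zero])
  rcases q12_low h with h5 | h5
  · obtain ⟨n, rfl⟩ : ∃ n, t = n + 3 := ⟨t - 3, by omega⟩
    exact absurd (by rw [r3, q12_const h h3 h5 n, q12_const h h3 h5 (n + 1), sub_self]) hne
  have fz : ∀ n : ℕ, ((n.factorial : ℕ) : K) ≠ 0 := fun n =>
    Nat.cast_ne_zero.2 n.factorial_ne_zero
  have tab : ∀ i j : ℕ, c (i + 2) (j + 2) * ((i + j + 2).factorial : ℕ) =
      6 * c 2 3 * (i.factorial : ℕ) * (j.factorial : ℕ) * ((j : K) - i) := by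
    intro i
    induction i with
    | zero =>
      intro j
      rcases j with _ | j
      · rw [q12_self h _ (by omega)]; simp
      · have := q12_witt h h3 h5 j
        rw [show 0 + (j + 1) + 2 = j + 1 + 1 + 1 by omega, Nat.factorial_succ (j + 1 + 1),
          Nat.factorial_succ (j + 1)]
        push_cast
        simp only [Nat.factorial_zero, Nat.cast_one]
        linear_combination ((j + 1).factorial : K) * this
    | succ i ih =>
      intro j
      have d := h.der (i + 2) (j + 2) (by omega) (by omega)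
      have a := ih j
      have b := ih (j + 1)
      rw [show i + (j + 1) + 2 = i + j + 2 + 1 by omega, Nat.factorial_succ (i + j + 2),
        Nat.factorial_succ j] at b
      rw [show i + 1 + j + 2 = i + j + 2 + 1 by omega, Nat.factorial_succ (i + j + 2),
        Nat.factorial_succ i]
      push_cast at b ⊢
      linear_combination ((i : K) + j + 2 + 1) * a - b -
        ((i : K) + j + 2 + 1) * ((i + j + 2).factorial : K) * d
  have h6 : (6 : K) * c 2 3 ≠ 0 := mul_ne_zero (by norm_num) h3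
  refine ⟨fun s => 1 / (6 * c 2 3 * ((s - 2).factorial : ℕ)),
    fun s => one_div_ne_zero (mul_ne_zero h6 (fz _)), fun s hs => ?_, fun s t hs ht => ?_⟩
  · obtain ⟨i, rfl⟩ : ∃ i, s = i + 2 := ⟨s - 2, by omega⟩
    have n1 : (i : K) + 1 ≠ 0 := Nat.cast_add_one_ne_zero i
    have := fz i
    simp only [show i + 2 + 1 - 2 = i + 1 by omega, Nat.add_sub_cancel, Nat.factorial_succ]
    push_cast
    field_simp
    ring
  · obtain ⟨i, rfl⟩ : ∃ i, s = i + 2 := ⟨s - 2, by omega⟩
    obtain ⟨j, rfl⟩ : ∃ j, t = j + 2 := ⟨t - 2, by omega⟩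
    simp only [show i + 2 + (j + 2) - 2 = i + j + 2 by omega, Nat.add_sub_cancel]
    rw [eq_div_of_mul_eq (fz _) (tab i j)]
    have := fz i
    have := fz j
    have := fz (i + j + 2)
    push_cast
    field_simp
    ring

end Pool.Agent.P78
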