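import Pool.Agent.Lib.MP_78c6b1_al.Lim.Generic

/-! The power series module structure given by `ad x`. -/

namespace Pool.Agent.P78

open Module Submodule Finset PowerSeries

variable {K L : Type} [Field K] [LieRing L] [LieAlgebra K L]

lemma exists_stab {W : ℕ → Submodule K L} (hW : Antitone W) [∀ n, FiniteDimensional K (L ⧸ W n)]
    {c : ℕ} (hc : ∀ n, cod (W n) ≤ c) : ∃ m, ∀ n, m ≤ n → W n = W m := by
  have hb : BddAbove (Set.range fun n => cod (W n)) := ⟨c, by rintro _ ⟨n, rfl⟩; exact hc n⟩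
  obtain ⟨m, hm⟩ := Nat.sSup_mem (Set.range_nonempty _) hb
  exact ⟨m, fun n hn => eq_of_cod_le (hW hn) ((le_csSup hb ⟨n, rfl⟩).trans hm.ge)⟩

/-- The range of a continuous linear map is closed. -/
lemma Lim.closed_range (h : Lim K L) (φ : L →ₗ[K] L) (hφ : ∀ n, ∀ v ∈ gam K L n, φ v ∈ gam K L n)
    {v : L} (hv : ∀ n, v ∈ LinearMap.range φ ⊔ gam K L n) : v ∈ LinearMap.range φ := by
  have h1 : ∀ n, ∃ y, v - φ y ∈ gam K L n := fun n => by
    obtain ⟨_, ⟨y, rfl⟩, g, hg, e⟩ := mem_sup.1 (hv n)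
    exact ⟨y, by rwa [← e, add_sub_cancel_left]⟩
  have h2 : ∀ m, ∃ s, ∀ n, s ≤ n → (gam K L n).comap φ ⊔ gam K L m =
      (gam K L s).comap φ ⊔ gam K L m := fun m => by
    have := h.fin m
    have := fun n => fin_mono (le_sup_right : gam K L m ≤ (gam K L n).comap φ ⊔ gam K L m)
    exact exists_stab (W := fun n => (gam K L n).comap φ ⊔ gam K L m)
      (fun _ _ hab => sup_le_sup_right (comap_mono (gam_anti hab)) _) fun n => cod_anti le_sup_right
  choose s hs using h2
  have h3 : ∀ m z, v - φ z ∈ gam K L (s m + m) →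
      ∃ z', v - φ z' ∈ gam K L (s (m + 1) + (m + 1)) ∧ z' - z ∈ gam K L m := fun m z hz => by
    obtain ⟨y, hy⟩ := h1 (s m + s (m + 1) + (m + 1))
    have h4 : y - z ∈ (gam K L (s m)).comap φ := by
      simpa using sub_mem (gam_anti (by omega) hz) (gam_anti (by omega) hy)
    obtain ⟨p, hp, g, hg, e⟩ := mem_sup.1
      ((hs m (s m + s (m + 1) + (m + 1)) (by omega)).ge (mem_sup_left h4))
    refine ⟨y - p, gam_anti (b := s m + s (m + 1) + (m + 1)) (by omega) ?_, ?_⟩
    · rw [map_sub, sub_sub_eq_add_sub, add_sub_right_comm]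
      exact add_mem hy hp
    · rwa [sub_right_comm, ← e, add_sub_cancel_left]
  choose! F hF using h3
  obtain ⟨z₀, hz₀⟩ := h1 (s 0 + 0)
  let z : ℕ → L := fun m => Nat.rec z₀ F m
  have h5 : ∀ m, v - φ (z m) ∈ gam K L (s m + m) := fun m => by
    induction m with
    | zero => exact hz₀
    | succ m ih => exact (hF m _ ih).1
  obtain ⟨w, hw⟩ := h.lim z fun m => (hF m _ (h5 m)).2
  refine ⟨w, (sub_eq_zero.1 (h.sep _ fun m => ?_)).symm⟩
  simpa using sub_mem (gam_anti (Nat.le_add_left _ _) (h5 m)) (hφ m _ (hw m))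

lemma aeval_mem_gam (x : L) (p : Polynomial K) {n : ℕ} {v : L} (hv : v ∈ gam K L n) :
    Polynomial.aeval (LieAlgebra.ad K L x) p v ∈ gam K L n := by
  rw [Polynomial.aeval_eq_sum_range, LinearMap.sum_apply]
  exact sum_mem fun i _ => smul_mem _ _ (gam_anti (Nat.le_add_right _ _) (ad_pow_mem_gam x i hv))

lemma aeval_sub_mem_gam (x : L) {p q : Polynomial K} {n : ℕ} (h : ∀ i < n, p.coeff i = q.coeff i)
    (v : L) : Polynomial.aeval (LieAlgebra.ad K L x) p v -
      Polynomial.aeval (LieAlgebra.ad K L x) q v ∈ gam K L n := by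
  obtain ⟨r, hr⟩ := (Polynomial.X_pow_dvd_iff (f := p - q)).2 fun i hi => by simp [h i hi]
  rw [← LinearMap.sub_apply, ← map_sub, hr, map_mul, map_pow, Polynomial.aeval_X]
  simpa using ad_pow_mem_gam (n := 0) x n (v := Polynomial.aeval (LieAlgebra.ad K L x) r v) trivial

lemma Lim.exists_algHom (h : Lim K L) (x : L) :
    ∃ φ : K⟦X⟧ →ₐ[K] End K L, φ X = LieAlgebra.ad K L x := by
  choose A hA using fun (f : K⟦X⟧) (v : L) => h.lim
    (fun n => Polynomial.aeval (LieAlgebra.ad K L x) (trunc n f) v) fun n =>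
      aeval_sub_mem_gam x (fun i hi => by simp [coeff_trunc, hi, hi.trans n.lt_succ_self]) v
  have hu : ∀ f v w, (∀ n, w - Polynomial.aeval (LieAlgebra.ad K L x) (trunc n f) v ∈ gam K L n) →
      A f v = w := fun f v w hw => sub_eq_zero.1 (h.sep _ fun n => by
    simpa using sub_mem (hA f v n) (hw n))
  have hp : ∀ (p : Polynomial K) v, A p v = Polynomial.aeval (LieAlgebra.ad K L x) p v :=
    fun p v => hu _ _ _ fun n => aeval_sub_mem_gam x (fun i hi => by simp [coeff_trunc, hi]) v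
  let B : K⟦X⟧ → End K L := fun f =>
    { toFun := A f
      map_add' := fun v w => hu _ _ _ fun n => by
        simpa [add_sub_add_comm] using add_mem (hA f v n) (hA f w n)
      map_smul' := fun c v => hu _ _ _ fun n => by
        simpa [smul_sub] using smul_mem _ c (hA f v n) }
  refine ⟨{ toFun := B
            map_one' := LinearMap.ext fun v => by simpa [B] using hp 1 v
            map_mul' := fun f g => LinearMap.ext fun v => hu _ _ _ fun n => ?_
            map_zero' := LinearMap.ext fun v => by simpa [B] using hp 0 v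
            map_add' := fun f g => LinearMap.ext fun v => hu _ _ _ fun n => by
              simpa [B, add_sub_add_comm] using add_mem (hA f v n) (hA g v n)
            commutes' := fun c => LinearMap.ext fun v => by simpa [B] using hp (Polynomial.C c) v },
    LinearMap.ext fun v => by simpa [B] using hp Polynomial.X v⟩
  have h1 := add_mem (add_mem (hA f (A g v) n) (aeval_mem_gam x (trunc n f) (hA g v n)))
    (aeval_sub_mem_gam x (p := trunc n f * trunc n g) (q := trunc n (f * g)) (fun i hi => by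
      rw [coeff_trunc, if_pos hi, coeff_mul_eq_coeff_trunc_mul_trunc f g hi, ← Polynomial.coe_mul,
        Polynomial.coeff_coe]) v)
  simpa [B] using h1

lemma Lim.exists_module (h : Lim K L) (x : L) : ∃ _ : Module K⟦X⟧ L, IsScalarTower K K⟦X⟧ L ∧
    ∀ v : L, (X : K⟦X⟧) • v = ⁅x, v⁆ := by
  obtain ⟨φ, hφ⟩ := h.exists_algHom x
  let M := Module.compHom L φ.toRingHom
  exact ⟨M, ⟨fun c f v => LinearMap.congr_fun (map_smul φ c f) v⟩,
    fun v => LinearMap.congr_fun hφ v⟩

variable [Module K⟦X⟧ L] [IsScalarTower K K⟦X⟧ L] {x a b : L}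

lemma C_smul (c : K) (v : L) : (C c : K⟦X⟧) • v = c • v := algebraMap_smul K⟦X⟧ c v

lemma smul_eq_sum (f : K⟦X⟧) (m : ℕ) : ∃ g : K⟦X⟧, ∀ v : L,
    f • v = ∑ i ∈ range m, coeff i f • (X : K⟦X⟧) ^ i • v + (X : K⟦X⟧) ^ m • g • v := by
  obtain ⟨g, hg⟩ := (X_pow_dvd_iff (n := m) (φ := f - ∑ i ∈ range m, C (coeff i f) * X ^ i)).2
    fun i hi => by simp [coeff_X_pow, hi]
  exact ⟨g, fun v => by
    simp only [← mul_smul, ← hg, sub_smul, sum_smul, ← C_smul, add_sub_cancel]⟩

omit [IsScalarTower K K⟦X⟧ L] in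
lemma X_pow_smul (act : ∀ v : L, (X : K⟦X⟧) • v = ⁅x, v⁆) (m : ℕ) (v : L) :
    (X : K⟦X⟧) ^ m • v = (LieAlgebra.ad K L x ^ m) v := by
  induction m with
  | zero => simp
  | succ m ih => rw [pow_succ', mul_smul, ih, act, pow_succ']; rfl

omit [IsScalarTower K K⟦X⟧ L] in
lemma X_pow_smul_mem (act : ∀ v : L, (X : K⟦X⟧) • v = ⁅x, v⁆) (m : ℕ) {n : ℕ} {v : L}
    (hv : v ∈ gam K L n) : (X : K⟦X⟧) ^ m • v ∈ gam K L (n + m) :=
  X_pow_smul act m v ▸ ad_pow_mem_gam x m hv

/-- An open subspace stable under `ad x` is stable under all power series. -/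
lemma smul_mem_of_opn (act : ∀ v : L, (X : K⟦X⟧) • v = ⁅x, v⁆) {W : Submodule K L} (hW : Opn W)
    (hx : ∀ v ∈ W, ⁅x, v⁆ ∈ W) (f : K⟦X⟧) {v : L} (hv : v ∈ W) : f • v ∈ W := by
  obtain ⟨n, hn⟩ := hW
  obtain ⟨g, hg⟩ := smul_eq_sum (L := L) f n
  rw [hg]
  refine add_mem (sum_mem fun i _ => smul_mem _ _ ?_)
    (hn (by simpa using X_pow_smul_mem act n (n := 0) (v := g • v) trivial))
  induction i with
  | zero => simpa
  | succ i ih => rw [pow_succ', mul_smul, act]; exact hx _ (ih (by simp_all; omega))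

lemma smul_mem_gam (act : ∀ v : L, (X : K⟦X⟧) • v = ⁅x, v⁆) (f : K⟦X⟧) {n : ℕ} {v : L}
    (hv : v ∈ gam K L n) : f • v ∈ gam K L n :=
  smul_mem_of_opn act (opn_gam n) (fun _ => lie_mem_gam_right x) f hv

lemma Lim.exists_tgen (h : Lim K L) (act : ∀ v : L, (X : K⟦X⟧) • v = ⁅x, v⁆)
    (hx : ∀ n, cod (im K x ⊔ gam K L n) ≤ 3) (hx' : x ∉ gam K L 2) : ∃ a b, TGen K x a b := by
  have hf := fun n => h.fin_opn ((opn_gam n).mono (le_sup_right (a := im K x)))
  obtain ⟨m, hm⟩ := exists_stab (W := fun n => im K x ⊔ gam K L n)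
    (fun _ _ hab => sup_le_sup_left (gam_anti hab) _) hx
  have h1 : im K x ⊔ gam K L m = im K x := le_antisymm (fun v hv => h.closed_range _
    (fun _ _ => lie_mem_gam_right x) fun n =>
      sup_le_sup_left (α := Submodule K L) (gam_anti (Nat.le_add_right n m)) _
        ((hm (n + m) (by omega)).ge hv)) le_sup_left
  have h2 := hx m
  have h3 := hf m
  rw [h1] at h2 h3
  obtain ⟨l, hl, hl'⟩ := (gam K L 2).exists_dual_map_eq_bot_of_notMem hx' inferInstance
  have h4 : ∀ u v : L, l ⁅u, v⁆ = 0 := fun u v => hl'.le (mem_map_of_mem (lie_mem_gam_succ u trivial))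
  have h5 : im K x ≤ LinearMap.ker l := by rintro _ ⟨w, rfl⟩; exact h4 x w
  have := fin_mono h5
  have h6 := cod_eq_add h5
  have h7 := cod_lt (U := LinearMap.ker l) (V := ⊤) (lt_top_iff_ne_top.2 fun e => hl (e.ge trivial))
  obtain ⟨e, he, he'⟩ := exists_fin_span (LinearMap.ker l) (im K x)
  obtain ⟨a, b, ha, hb, hab⟩ : ∃ a b : L, l a = 0 ∧ l b = 0 ∧ span K (Set.range e) ≤ span K {a, b} := by
    refine ⟨if h : 0 < _ then e ⟨0, h⟩ else 0, if h : 1 < _ then e ⟨1, h⟩ else 0, ?_, ?_,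
      span_mono ?_⟩
    · split_ifs; exacts [he _, map_zero l]
    · split_ifs; exacts [he _, map_zero l]
    · rintro _ ⟨⟨_ | _ | j, hj⟩, rfl⟩
      · simp [hj]
      · simp [show 1 < _ from hj]
      · omega
  have h8 : ∀ v, l v = 0 → ∃ (c d : K) (w : L), l w = 0 ∧ v = c • a + d • b + (X : K⟦X⟧) • w :=
    fun v hv => by
      obtain ⟨_, ⟨w, rfl⟩, s, hs, rfl⟩ := mem_sup.1 (he' hv)
      obtain ⟨c, d, rfl⟩ := mem_span_pair.1 (hab hs)
      exact ⟨c, d, w - (l w / l x) • x, by simp [hl], by simp [act, add_comm]⟩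
  choose! c d w hw using h8
  have h9 : ∀ v, l v = 0 → ∃ f g : K⟦X⟧, v = f • a + g • b := fun v hv => by
    have h10 : ∀ n, l (w^[n] v) = 0 := fun n => by
      induction n with
      | zero => exact hv
      | succ n ih => rw [Function.iterate_succ_apply']; exact (hw _ ih).1
    have h11 : ∀ n, v = ∑ i ∈ range n, c (w^[i] v) • (X : K⟦X⟧) ^ i • a +
        ∑ i ∈ range n, d (w^[i] v) • (X : K⟦X⟧) ^ i • b + (X : K⟦X⟧) ^ n • w^[n] v := fun n => by
      induction n with
      | zero => simp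
      | succ n ih =>
        rw [(hw _ (h10 n)).2, smul_add, smul_add, smul_comm _ (c _), smul_comm _ (d _)] at ih
        rw [sum_range_succ, sum_range_succ, pow_succ, mul_smul, Function.iterate_succ_apply']
        exact ih.trans (by abel)
    refine ⟨PowerSeries.mk fun i => c (w^[i] v), PowerSeries.mk fun i => d (w^[i] v), sub_eq_zero.1 (h.sep _ fun n => ?_)⟩
    obtain ⟨f, hf⟩ := smul_eq_sum (L := L) (PowerSeries.mk fun i => c (w^[i] v)) n
    obtain ⟨g, hg⟩ := smul_eq_sum (L := L) (PowerSeries.mk fun i => d (w^[i] v)) n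
    have := X_pow_smul_mem act n (n := 0) (v := w^[n] v - f • a - g • b) trivial
    rw [hf, hg, zero_add, smul_sub, smul_sub] at *
    simp only [coeff_mk]
    exact (congrArg (· ∈ _) (by rw [sub_eq_iff_eq_add]; exact (h11 n).trans (by abel))).mpr this
  refine ⟨a, b, act, fun v => ?_, fun u v => h9 _ (h4 u v)⟩
  obtain ⟨f, g, e⟩ := h9 (v - (l v / l x) • x) (by simp [hl])
  exact ⟨l v / l x, f, g, by rw [add_assoc, ← e, add_sub_cancel]⟩

/-- The `X`-adic topology is the topology of the lower central series. -/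
lemma Lim.cofinal (h : Lim K L) (H : TGen K x a b) (m : ℕ) :
    ∃ n, ∀ v ∈ gam K L n, ∃ w, v = (X : K⟦X⟧) ^ m • w := by
  set T := LieAlgebra.ad K L x ^ m
  have hf := fun n => h.fin_opn ((opn_gam n).mono (le_sup_right (a := LinearMap.range T)))
  let z : Option (Fin m ⊕ Fin m) → L := fun o => o.elim x
    (Sum.elim (fun i => (X : K⟦X⟧) ^ i.1 • a) fun i => (X : K⟦X⟧) ^ i.1 • b)
  obtain ⟨n, hn⟩ := exists_stab (W := fun n => LinearMap.range T ⊔ gam K L n)
    (fun _ _ hab => sup_le_sup_left (gam_anti hab) _) fun n =>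
      cod_le_add_of_le_sup le_top z fun v _ => by
        obtain ⟨c, f, g, rfl⟩ := H.gen v
        obtain ⟨f', hf⟩ := smul_eq_sum (L := L) f m
        obtain ⟨g', hg⟩ := smul_eq_sum (L := L) g m
        rw [hf, hg, X_pow_smul H.act m, X_pow_smul H.act m]
        refine add_mem (add_mem (mem_sup_right (smul_mem _ _ (subset_span ⟨none, rfl⟩))) (add_mem
          (mem_sup_right ?_) (mem_sup_left (mem_sup_left ⟨_, rfl⟩)))) (add_mem
          (mem_sup_right ?_) (mem_sup_left (mem_sup_left ⟨_, rfl⟩)))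
        · exact sum_mem fun i hi => smul_mem _ _ (subset_span ⟨some (.inl ⟨i, mem_range.1 hi⟩), rfl⟩)
        · exact sum_mem fun i hi => smul_mem _ _ (subset_span ⟨some (.inr ⟨i, mem_range.1 hi⟩), rfl⟩)
  refine ⟨n, fun v hv => ?_⟩
  obtain ⟨w, hw⟩ := h.closed_range T
    (fun _ _ hu => gam_anti (Nat.le_add_right _ _) (ad_pow_mem_gam x m hu)) fun k =>
      sup_le_sup_left (α := Submodule K L) (gam_anti (Nat.le_add_right k n)) _
        ((hn (k + n) (by omega)).ge (mem_sup_right hv))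
  exact ⟨w, by rw [X_pow_smul H.act, ← hw]⟩

/-- Submodules are closed. -/
lemma Lim.closed (h : Lim K L) (H : TGen K x a b) (N : Submodule K⟦X⟧ L) {v : L}
    (hv : ∀ n, ∃ u ∈ N, v - u ∈ gam K L n) : v ∈ N := by
  classical
  have : Module.Finite K⟦X⟧ L := ⟨⟨{x, a, b}, top_unique fun v _ => by
    obtain ⟨c, f, g, rfl⟩ := H.gen v
    rw [← C_smul]
    refine add_mem (add_mem ?_ ?_) ?_ <;> exact smul_mem _ _ (subset_span (by simp))⟩⟩
  have h1 := (Ideal.span {(X : K⟦X⟧)}).iInf_pow_smul_eq_bot_of_isLocalRing (M := L ⧸ N)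
    (Ideal.span_singleton_ne_top X_prime.not_isUnit)
  refine (Submodule.Quotient.mk_eq_zero N).1 (h1.le ((mem_iInf _).2 fun m => ?_))
  obtain ⟨n, hn⟩ := h.cofinal H m
  obtain ⟨u, hu, hu'⟩ := hv n
  obtain ⟨w, hw⟩ := hn _ hu'
  rw [eq_add_of_sub_eq hw, Submodule.Quotient.mk_add, (Submodule.Quotient.mk_eq_zero N).2 hu,
    add_zero, Submodule.Quotient.mk_smul]
  exact smul_mem_smul (Ideal.pow_mem_pow (Ideal.mem_span_singleton_self _) m) trivial

end Pool.Agent.P78
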