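import Pool.Agent.Lib.MP_78c6b1_al.Lim.Defs

/-! Basic facts on the lower central series and on codimensions. -/

namespace Pool.Agent.P78

open Module Submodule

variable {K L : Type} [Field K] [LieRing L] [LieAlgebra K L]

@[simp] lemma gam_zero : gam K L 0 = ⊤ := rfl

@[simp] lemma gam_one : gam K L 1 = ⊤ := rfl

lemma gam_succ (n : ℕ) :
    gam K L (n + 2) = span K {z | ∃ u : L, ∃ v ∈ gam K L (n + 1), ⁅u, v⁆ = z} := by
  simp [gam, LieSubmodule.lieIdeal_oper_eq_linear_span']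

lemma gam_succ_le {n : ℕ} {W : Submodule K L} :
    gam K L (n + 2) ≤ W ↔ ∀ u : L, ∀ v ∈ gam K L (n + 1), ⁅u, v⁆ ∈ W := by
  rw [gam_succ, span_le]
  exact ⟨fun h u v hv => h ⟨u, v, hv, rfl⟩, by rintro h _ ⟨u, v, hv, rfl⟩; exact h u v hv⟩

lemma gam_anti : Antitone (gam K L) := fun _ _ h =>
  LieModule.antitone_lowerCentralSeries K L L (Nat.sub_le_sub_right h 1)

lemma lie_mem_gam_succ {n : ℕ} (u : L) {v : L} (hv : v ∈ gam K L n) : ⁅u, v⁆ ∈ gam K L (n + 1) := by
  cases n with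
  | zero => trivial
  | succ n => exact gam_succ_le.1 le_rfl u v hv

lemma lie_mem_gam_right {n : ℕ} (u : L) {v : L} (hv : v ∈ gam K L n) : ⁅u, v⁆ ∈ gam K L n :=
  gam_anti n.le_succ (lie_mem_gam_succ u hv)

lemma lie_mem_gam_left {n : ℕ} {u : L} (hu : u ∈ gam K L n) (v : L) : ⁅u, v⁆ ∈ gam K L n := by
  rw [← lie_skew]
  exact neg_mem (lie_mem_gam_right v hu)

lemma lie_mem_gam {i j : ℕ} {a b : L} (ha : a ∈ gam K L i) (hb : b ∈ gam K L j) :
    ⁅a, b⁆ ∈ gam K L (i + j) := by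
  induction i using Nat.twoStepInduction generalizing a j b with
  | zero => simpa using lie_mem_gam_right a hb
  | one => rw [add_comm]; exact lie_mem_gam_succ a hb
  | more i _ ih =>
    rw [← lie_skew, neg_mem_iff]
    refine gam_succ_le (W := (gam K L (i + 2 + j)).comap (LieAlgebra.ad K L b)).2
      (fun u v hv => ?_) ha
    change ⁅b, ⁅u, v⁆⁆ ∈ gam K L _
    rw [← lie_skew, neg_mem_iff, lie_lie]
    refine sub_mem ?_ ?_
    · rw [show i + 2 + j = i + 1 + j + 1 by omega]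
      exact lie_mem_gam_succ u (ih hv hb)
    · rw [show i + 2 + j = i + 1 + (j + 1) by omega]
      exact ih hv (lie_mem_gam_succ u hb)

lemma ad_pow_mem_gam {n : ℕ} (u : L) (m : ℕ) {v : L} (hv : v ∈ gam K L n) :
    (LieAlgebra.ad K L u ^ m) v ∈ gam K L (n + m) := by
  induction m with
  | zero => exact hv
  | succ m ih => rw [pow_succ']; exact lie_mem_gam_succ u ih

lemma mem_im {u v : L} : v ∈ im K u ↔ ∃ w, ⁅u, w⁆ = v := Iff.rfl

/-- Open subspaces. -/
def Opn (U : Submodule K L) : Prop := ∃ n, gam K L n ≤ U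

lemma opn_gam (n : ℕ) : Opn (gam K L n) := ⟨n, le_rfl⟩

lemma Opn.mono {U V : Submodule K L} (h : Opn U) (hle : U ≤ V) : Opn V :=
  h.imp fun _ hn => hn.trans hle

lemma Opn.inf {U V : Submodule K L} (hU : Opn U) (hV : Opn V) : Opn (U ⊓ V) := by
  obtain ⟨m, hm⟩ := hU
  obtain ⟨n, hn⟩ := hV
  exact ⟨m + n, le_inf ((gam_anti (by omega)).trans hm) ((gam_anti (by omega)).trans hn)⟩

lemma fin_mono {U V : Submodule K L} [FiniteDimensional K (L ⧸ U)] (h : U ≤ V) :
    FiniteDimensional K (L ⧸ V) := Module.Finite.of_surjective _ (factor_surjective h)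

lemma Lim.fin_opn (h : Lim K L) {U : Submodule K L} (hU : Opn U) : FiniteDimensional K (L ⧸ U) :=
  have ⟨n, hn⟩ := hU
  have := h.fin n
  fin_mono hn

lemma cod_anti {U V : Submodule K L} [FiniteDimensional K (L ⧸ U)] (h : U ≤ V) : cod V ≤ cod U :=
  LinearMap.finrank_le_finrank_of_surjective (factor_surjective h)

@[simp] lemma cod_top : cod (⊤ : Submodule K L) = 0 := finrank_zero_of_subsingleton

/-- `cod U = cod V + dim (V / U)`. -/
lemma cod_eq_add {U V : Submodule K L} [FiniteDimensional K (L ⧸ U)] (h : U ≤ V) :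
    cod U = cod V + finrank K (V.map U.mkQ) := by
  rw [cod, cod, ← (V.map U.mkQ).finrank_quotient_add_finrank,
    (quotientQuotientEquivQuotient U V h).finrank_eq]

lemma cod_lt {U V : Submodule K L} [FiniteDimensional K (L ⧸ U)] (h : U < V) : cod V < cod U := by
  obtain ⟨v, hv, hv'⟩ := SetLike.exists_of_lt h
  rw [cod_eq_add h.le, Nat.lt_add_right_iff_pos, finrank_pos_iff_exists_ne_zero]
  exact ⟨⟨U.mkQ v, mem_map_of_mem hv⟩, fun e => hv' (by simpa using e)⟩

lemma eq_of_cod_le {U V : Submodule K L} [FiniteDimensional K (L ⧸ U)] (h : U ≤ V)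
    (hc : cod U ≤ cod V) : U = V := by
  by_contra hne
  exact absurd (cod_lt (lt_of_le_of_ne h hne)) (not_lt.2 hc)

lemma cod_le_add_of_le_sup {U V : Submodule K L} [FiniteDimensional K (L ⧸ U)] (h : U ≤ V)
    {ι : Type} [Fintype ι] (z : ι → L) (hz : V ≤ U ⊔ span K (Set.range z)) :
    cod U ≤ cod V + Fintype.card ι := by
  rw [cod_eq_add h]
  refine Nat.add_le_add_left ((finrank_mono (t := span K (Set.range (U.mkQ ∘ z))) ?_).trans
    (finrank_range_le_card _)) _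
  refine (map_mono hz).trans ?_
  rw [Submodule.map_sup, mkQ_map_self, bot_sup_eq, map_span, Set.range_comp]

lemma cod_le_sup_span (U : Submodule K L) [FiniteDimensional K (L ⧸ U)] (v : L) :
    cod U ≤ cod (U ⊔ K ∙ v) + 1 := by
  simpa using cod_le_add_of_le_sup le_sup_left (fun _ : Unit => v) (by simp)

lemma exists_fin_span (A W : Submodule K L) [FiniteDimensional K (L ⧸ W)] :
    ∃ e : Fin (finrank K (A.map W.mkQ)) → L, (∀ j, e j ∈ A) ∧ A ≤ W ⊔ span K (Set.range e) := by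
  let b := finBasis K (A.map W.mkQ)
  choose e he he' using fun j => (b j).2
  refine ⟨e, he, fun v hv => ?_⟩
  have h1 : W.mkQ v = W.mkQ (∑ j, b.repr ⟨_, mem_map_of_mem hv⟩ j • e j) := by
    have := congrArg Subtype.val (b.sum_repr ⟨_, mem_map_of_mem hv⟩).symm
    simpa only [map_sum, map_smul, he', AddSubmonoidClass.coe_finsetSum, coe_smul] using this
  rw [← sub_add_cancel v (∑ j, b.repr ⟨_, mem_map_of_mem hv⟩ j • e j)]
  exact add_mem_sup ((Submodule.Quotient.eq W).1 h1)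
    (sum_mem fun j _ => smul_mem _ _ (subset_span ⟨j, rfl⟩))

lemma cod_le_iff {W : Submodule K L} [FiniteDimensional K (L ⧸ W)] {c : ℕ} :
    cod W ≤ c ↔ ∃ z : Fin c → L, W ⊔ span K (Set.range z) = ⊤ := by
  refine ⟨fun h => ?_, fun ⟨z, hz⟩ => by simpa using cod_le_add_of_le_sup le_top z hz.ge⟩
  obtain ⟨e, -, he⟩ := exists_fin_span ⊤ W
  have h1 := cod_eq_add (le_top (a := W))
  rw [cod_top, zero_add] at h1
  refine ⟨fun j => if hj : j.1 < _ then e ⟨j, hj⟩ else 0, top_unique (he.trans (sup_le_sup_left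
    (span_mono ?_) _))⟩
  rintro _ ⟨j, rfl⟩
  exact ⟨⟨j, by omega⟩, by simp⟩

/-- Rank count for one element `u` with `⁅u, V⁆ ≤ W`. -/
lemma cod_le_of_lie {V W : Submodule K L} [FiniteDimensional K (L ⧸ V)]
    [FiniteDimensional K (L ⧸ W)] {u : L} (h : ∀ v ∈ V, ⁅u, v⁆ ∈ W) :
    cod W ≤ cod (im K u ⊔ W) + cod V := by
  obtain ⟨z, hz⟩ := (cod_le_iff (W := V)).1 le_rfl
  have := cod_le_add_of_le_sup (le_sup_right : W ≤ im K u ⊔ W) (fun j => ⁅u, z j⁆)
    (sup_le ?_ le_sup_left)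
  · simpa using this
  rintro _ ⟨w, rfl⟩
  obtain ⟨v, hv, s, hs, rfl⟩ := mem_sup.1 (hz.ge (mem_top (x := w)))
  rw [map_add]
  refine add_mem_sup (h v hv) ?_
  rw [show Set.range (fun j => ⁅u, z j⁆) = LieAlgebra.ad K L u '' Set.range z from
    Set.range_comp _ z, ← map_span]
  exact mem_map_of_mem hs

lemma cod_lt_of_lie {V W : Submodule K L} [FiniteDimensional K (L ⧸ V)]
    [FiniteDimensional K (L ⧸ W)] {u : L} (h : ∀ v ∈ V, ⁅u, v⁆ ∈ W) (hu : u ∉ V) :
    cod W < cod (im K u ⊔ W) + cod V := by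
  have := fin_mono (le_sup_left : V ≤ V ⊔ K ∙ u)
  refine (cod_le_of_lie (V := V ⊔ K ∙ u) fun v hv => ?_).trans_lt (Nat.add_lt_add_left
    (cod_lt (left_lt_sup.2 (by simpa using hu))) _)
  obtain ⟨v, hv', s, hs, rfl⟩ := mem_sup.1 hv
  obtain ⟨c, rfl⟩ := mem_span_singleton.1 hs
  simpa using h v hv'

end Pool.Agent.P78
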