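import Pool.Agent.Lib.MP_78c6b1_al.Neg.Iface

/-! The characteristic zero limit object and the statements of the classification blocks. -/

namespace Pool.Agent.P78

open PowerSeries

section

variable (K L : Type) [Field K] [LieRing L] [LieAlgebra K L]

/-- The lower central series, `gam 0 = gam 1 = ⊤`. -/
def gam (n : ℕ) : Submodule K L := (LieModule.lowerCentralSeries K L L (n - 1)).toSubmodule

variable {K L}

/-- The codimension of a subspace. -/
noncomputable def cod (U : Submodule K L) : ℕ := Module.finrank K (L ⧸ U)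

variable (K)

/-- The subspace `⁅u, L⁆`. -/
def im (u : L) : Submodule K L := LinearMap.range (LieAlgebra.ad K L u)

variable (L)

/-- An infinite dimensional complete pro-nilpotent Lie algebra with the linear budget. -/
structure Lim : Prop where
  fin : ∀ n, FiniteDimensional K (L ⧸ gam K L n)
  ne : ∀ n, ¬ gam K L (n + 1) ≤ gam K L (n + 2)
  sep : ∀ v : L, (∀ n, v ∈ gam K L n) → v = 0
  lim : ∀ f : ℕ → L, (∀ n, f (n + 1) - f n ∈ gam K L n) → ∃ v, ∀ n, v - f n ∈ gam K L n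
  bud : ∀ n (U : Submodule K L), gam K L n ≤ U → ∃ u ∈ U, cod (im K u ⊔ gam K L n) ≤ cod U + 3

/-- The conclusion of the classification. -/
def Concl : Prop := ∀ R : ℕ, ∃ μ, (μ = 2 ∨ μ = 3 ∨ μ = 4) ∧ Nonempty (PureFil K L μ R)

variable {L}

/-- A generic element. -/
structure Gen (x : L) : Prop where
  bud : ∀ n, cod (im K x ⊔ gam K L n) ≤ 3
  pow : ∀ n m, (∀ v ∈ gam K L n, (LieAlgebra.ad K L x ^ m) v ∈ gam K L (n + m + 1)) →
    ∀ y : L, ∀ v ∈ gam K L n, (LieAlgebra.ad K L y ^ m) v ∈ gam K L (n + m + 1)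

variable [Module K⟦X⟧ L]

/-- `X` acts as `ad x`, and `L = K x + K⟦X⟧ a + K⟦X⟧ b` where `K⟦X⟧ a + K⟦X⟧ b` is an ideal. -/
structure TGen (x a b : L) : Prop where
  act : ∀ v : L, (X : K⟦X⟧) • v = ⁅x, v⁆
  gen : ∀ v : L, ∃ (c : K) (f g : K⟦X⟧), v = c • x + f • a + g • b
  der : ∀ u v : L, ∃ f g : K⟦X⟧, ⁅u, v⁆ = f • a + g • b

end

/-- The classification of the limit. -/
def LimStmt : Prop :=
  ∀ (K L : Type) [Field K] [CharZero K] [Uncountable K] [LieRing L] [LieAlgebra K L],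
    Lim K L → Concl K L

/-- Rank one: the second generator is torsion. -/
def Rank1Stmt : Prop :=
  ∀ (K L : Type) [Field K] [CharZero K] [Uncountable K] [LieRing L] [LieAlgebra K L]
    [Module K⟦X⟧ L] [IsScalarTower K K⟦X⟧ L] (x a b : L) (k : ℕ),
    Lim K L → TGen K x a b → (X : K⟦X⟧) ^ k • b = 0 → Concl K L

/-- Rank two: free on two generators, and just infinite. -/
def Rank2Stmt : Prop :=
  ∀ (K L : Type) [Field K] [CharZero K] [Uncountable K] [LieRing L] [LieAlgebra K L]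
    [Module K⟦X⟧ L] [IsScalarTower K K⟦X⟧ L] (x a b : L),
    Lim K L → Gen K x → TGen K x a b →
    (∀ (c : K) (f g : K⟦X⟧), c • x + f • a + g • b = 0 → c = 0 ∧ f = 0 ∧ g = 0) →
    (∀ N : Submodule K⟦X⟧ L, (∀ u : L, ∀ v ∈ N, ⁅u, v⁆ ∈ N) → N ≠ ⊥ →
      ∃ n, ∀ v ∈ gam K L n, v ∈ N) → Concl K L

end Pool.Agent.P78
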