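import Pool.Agent.Lib.MP_78c6b1_al.Lim.Api

/-! Finite level facts used in the passage to the limit. -/

namespace Pool.Agent.P78

open Module Submodule Finset

section

variable {K L : Type} [Field K] [LieRing L] [LieAlgebra K L]

lemma exists_gam_eq_bot (h : LieRing.IsNilpotent L) : ∃ n, gam K L n = ⊥ := by
  obtain ⟨k, hk⟩ := LieModule.IsNilpotent.nilpotent K L L
  exact ⟨k + 1, by simp [gam, hk]⟩

lemma exists_sum_lie (h : LieRing.IsNilpotent L) {a : Fin 3 → L}
    (ha : gam K L 2 ⊔ span K (Set.range a) = ⊤) (n : ℕ) {v : L} (hv : v ∈ gam K L (n + 2)) :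
    ∃ w : Fin 3 → L, (∀ k, w k ∈ gam K L (n + 1)) ∧ v = ∑ k, ⁅a k, w k⁆ := by
  let S : Submodule K L :=
    { carrier := {v | ∃ w : Fin 3 → L, (∀ k, w k ∈ gam K L (n + 1)) ∧ v = ∑ k, ⁅a k, w k⁆}
      zero_mem' := ⟨0, fun _ => zero_mem _, by simp⟩
      add_mem' := by
        rintro _ _ ⟨w, hw, rfl⟩ ⟨w', hw', rfl⟩
        exact ⟨w + w', fun k => add_mem (hw k) (hw' k), by simp [sum_add_distrib]⟩
      smul_mem' := by
        rintro c _ ⟨w, hw, rfl⟩
        exact ⟨c • w, fun k => smul_mem _ _ (hw k), by simp [smul_sum]⟩ }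
  have h1 : ∀ m, gam K L (n + 2) ≤ S ⊔ gam K L (n + m + 2) := fun m => by
    induction m with
    | zero => exact le_sup_right
    | succ m ih =>
      refine ih.trans (sup_le le_sup_left (gam_succ_le.2 fun u v hv => ?_))
      obtain ⟨g, hg, s, hs, rfl⟩ := mem_sup.1 (ha.ge (mem_top (x := u)))
      obtain ⟨c, rfl⟩ := (mem_span_range_iff_exists_fun K).1 hs
      rw [add_lie, add_comm ⁅g, v⁆]
      refine add_mem_sup ⟨fun k => c k • v, fun k => smul_mem _ _ (gam_anti (by omega) hv), ?_⟩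
        (gam_anti (b := 2 + (n + m + 1)) (by omega) (lie_mem_gam hg hv))
      simp [sum_lie]
  obtain ⟨m, hm⟩ := exists_gam_eq_bot (K := K) h
  exact (h1 m).trans (sup_le le_rfl ((gam_anti (by omega)).trans (hm.le.trans bot_le))) hv

lemma cod_gam_le [FiniteDimensional K L] (h : LieRing.IsNilpotent L) (h3 : cod (gam K L 2) ≤ 3)
    (n : ℕ) : cod (gam K L n) < 4 ^ n := by
  obtain ⟨a, ha⟩ := cod_le_iff.1 h3
  induction n using Nat.twoStepInduction with
  | zero => simp
  | one => simp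
  | more n _ ih =>
    obtain ⟨z, hz⟩ := (cod_le_iff (W := gam K L (n + 1))).1 le_rfl
    have := cod_le_add_of_le_sup (gam_anti (a := 2) (b := n + 2) (by omega))
      (fun p : Fin 3 × Fin _ => ⁅a p.1, z p.2⁆) fun v hv => by
        obtain ⟨w, -, rfl⟩ := exists_sum_lie h ha 0 hv
        refine sum_mem fun k _ => ?_
        obtain ⟨g, hg, s, hs, e⟩ := mem_sup.1 (hz.ge (mem_top (x := w k)))
        obtain ⟨c, rfl⟩ := (mem_span_range_iff_exists_fun K).1 hs
        rw [← e, lie_add, lie_sum]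
        exact add_mem_sup (lie_mem_gam_succ _ hg) (sum_mem fun j _ => by
          rw [lie_smul]; exact smul_mem _ _ (subset_span ⟨(k, j), rfl⟩))
    simp only [Fintype.card_prod, Fintype.card_fin] at this
    have h4 : 4 ^ (n + 1) = 4 * 4 ^ n := pow_succ' _ _
    have h5 : 0 < 4 ^ n := by positivity
    rw [pow_succ]
    omega

lemma gam_eq_bot_of_le (h : LieRing.IsNilpotent L) {n : ℕ}
    (hle : gam K L (n + 1) ≤ gam K L (n + 2)) : gam K L (n + 1) = ⊥ := by
  have : ∀ m, gam K L (n + 1) ≤ gam K L (n + 1 + m) := fun m => by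
    induction m with
    | zero => rfl
    | succ m ih => exact hle.trans (gam_succ_le.2 fun u v hv => lie_mem_gam_succ u (ih hv))
  obtain ⟨m, hm⟩ := exists_gam_eq_bot (K := K) h
  exact eq_bot_iff.2 ((this m).trans ((gam_anti (by omega)).trans hm.le))

lemma cod_comap_add {I : Submodule K L} [FiniteDimensional K (L ⧸ I)] (u : L) :
    cod (I.comap (LieAlgebra.ad K L u)) + cod (im K u ⊔ I) ≤ cod I := by
  rw [cod_eq_add (le_sup_right : I ≤ im K u ⊔ I), add_comm, Submodule.map_sup, mkQ_map_self,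
    sup_bot_eq, im, ← LinearMap.range_comp, ← (LinearMap.quotKerEquivRange _).finrank_eq,
    LinearMap.ker_comp, ker_mkQ]
  rfl

lemma PureFil.gam_le {μ R : ℕ} (P : PureFil K L μ R) {j : ℕ} (hj : j ≤ R + 1) :
    gam K L j ≤ P.F j := by
  induction j using Nat.twoStepInduction with
  | zero => exact P.one.ge.trans (P.anti zero_le_one)
  | one => exact P.one.ge
  | more j _ ih =>
    exact gam_succ_le.2 fun u v hv => by
      rw [show j + 2 = 1 + (j + 1) by omega]
      exact P.lie _ _ (by omega) u (P.one.ge trivial) v (ih (by omega) hv)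

end

lemma CountBud.bud {p : ℕ} [hp : Fact p.Prime] {L : Type} [LieRing L] [LieAlgebra (ZMod p) L]
    [Finite L] (h : CountBud p L) (n : ℕ) (U : Submodule (ZMod p) L) :
    ∃ u ∈ U, cod (im (ZMod p) u ⊔ gam (ZMod p) L n) ≤ cod U + 3 := by
  classical
  by_contra! hn
  have h0 : ∀ W : Submodule (ZMod p) L, Nat.card W * p ^ cod W = Nat.card L := fun W => by
    rw [W.card_eq_card_quotient_mul_card, Module.natCard_eq_pow_finrank (K := ZMod p) (V := L ⧸ W),
      Nat.card_zmod, cod]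
  have h1 := h (LieModule.lowerCentralSeries (ZMod p) L L (n - 1))
  have h2 : Nat.card {x : L × L // ⁅x.1, x.2⁆ ∈ gam (ZMod p) L n} =
      ∑ᶠ u : L, Nat.card ((gam (ZMod p) L n).comap (LieAlgebra.ad (ZMod p) L u)) := by
    have := Fintype.ofFinite L
    rw [Nat.card_congr (Equiv.subtypeProdEquivSigmaSubtype fun a b : L => ⁅a, b⁆ ∈ gam (ZMod p) L n),
      Nat.card_sigma, finsum_eq_sum_of_fintype]
    rfl
  have := Fintype.ofFinite L
  have h3 : Nat.card U * (Nat.card (gam (ZMod p) L n) * p ^ (cod U + 4)) ≤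
      Nat.card {x : L × L // ⁅x.1, x.2⁆ ∈ gam (ZMod p) L n} := by
    rw [h2, finsum_eq_sum_of_fintype, Nat.card_eq_fintype_card, Fintype.card_subtype, ← smul_eq_mul]
    refine (card_nsmul_le_sum _ _ _ fun u hu => ?_).trans (sum_le_sum_of_subset (subset_univ _))
    have h4 := cod_comap_add (I := gam (ZMod p) L n) u
    have h5 := hn u (mem_filter.1 hu).2
    refine Nat.le_of_mul_le_mul_right ?_
      (pow_pos hp.1.pos (cod ((gam (ZMod p) L n).comap (LieAlgebra.ad (ZMod p) L u))))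
    rw [h0, mul_assoc, ← pow_add, ← h0 (gam (ZMod p) L n)]
    exact Nat.mul_le_mul_left _ (Nat.pow_le_pow_right hp.1.pos (by omega))
  rw [pow_add, mul_left_comm, ← mul_assoc (Nat.card U), h0] at h3
  change 10 * Nat.card {x : L × L // ⁅x.1, x.2⁆ ∈ gam (ZMod p) L n} <
    9 * p ^ 4 * Nat.card L * Nat.card (gam (ZMod p) L n) at h1
  nlinarith [Nat.zero_le (Nat.card (gam (ZMod p) L n) * (Nat.card L * p ^ 4))]

end Pool.Agent.P78
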