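import Pool.Agent.Lib.MP_78c6b1_al.Lim.Api

/-! Generic elements of open subspaces and the codimension inequality. -/

namespace Pool.Agent.P78

open Module Submodule Finset

lemma exists_eval_ne {K σ ι : Type} [Field K] [Uncountable K] [Countable σ] [Countable ι]
    (P : ι → MvPolynomial σ K) (hP : ∀ i, P i ≠ 0) : ∃ a, ∀ i, MvPolynomial.eval a (P i) ≠ 0 := by
  set k := Subfield.closure (⋃ i, ((P i).coeffs : Set K))
  have hk : Cardinal.mk k ≤ Cardinal.aleph0 := (Subfield.cardinalMk_closure_le_max _).trans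
    (max_le (Set.countable_iUnion fun i => (P i).coeffs.countable_toSet).le_aleph0 le_rfl)
  obtain ⟨B, b, hb⟩ := exists_isTranscendenceBasis' k K
  have hB : Infinite B := by
    by_contra! hB
    refine (Cardinal.aleph0_lt_mk (α := K)).not_ge ?_
    cases isEmpty_or_nonempty B with
    | inl h =>
      have := hb.isEmpty_iff_isAlgebraic.1 h
      exact (Algebra.IsAlgebraic.cardinalMk_le_max k K).trans (max_le hk le_rfl)
    | inr h =>
      have := hb.lift_cardinalMk_eq_max_lift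
      simp only [Cardinal.lift_id] at this
      exact this.trans_le (sup_le (sup_le hk (Cardinal.lt_aleph0_of_finite B).le) le_rfl)
  obtain ⟨e⟩ : Nonempty (σ ↪ B) := nonempty_embedding_nat σ |>.map (·.trans (Infinite.natEmbedding B))
  refine ⟨b ∘ e, fun i h => hP i ?_⟩
  obtain ⟨Q, hQ⟩ : P i ∈ Set.range (MvPolynomial.map (algebraMap k K)) :=
    MvPolynomial.mem_range_map_iff_coeffs_subset.2 fun c hc =>
      ⟨⟨c, Subfield.subset_closure (Set.mem_iUnion.2 ⟨i, hc⟩)⟩, rfl⟩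
  rw [← hQ, MvPolynomial.eval_map, ← MvPolynomial.aeval_def] at h
  rw [← hQ, (hb.1.comp e e.injective).eq_zero_of_aeval_eq_zero Q h, map_zero]

variable {K L : Type} [Field K] [LieRing L] [LieAlgebra K L]

/-- Continuous functionals. -/
def Cts (l : L →ₗ[K] K) : Prop := ∃ n, ∀ v ∈ gam K L n, l v = 0

variable (K L) in
/-- Polynomial functions. -/
def polys : Subalgebra K (L → K) := Algebra.adjoin K {φ | ∃ l : L →ₗ[K] K, Cts l ∧ φ = l}

variable (K) in
/-- Polynomial maps. -/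
def PolyMap (f : L → L) : Prop := ∀ l : L →ₗ[K] K, Cts l → (fun y => l (f y)) ∈ polys K L

lemma polyMap_id : PolyMap K fun y : L => y := fun l hl => Algebra.subset_adjoin ⟨l, hl, rfl⟩

lemma polyMap_const (v : L) : PolyMap K fun _ : L => v := fun l _ => algebraMap_mem _ (l v)

lemma PolyMap.add {f g : L → L} (hf : PolyMap K f) (hg : PolyMap K g) :
    PolyMap K fun y => f y + g y := fun l hl => by
  simp only [map_add]
  exact add_mem (hf l hl) (hg l hl)

lemma PolyMap.smul {f : L → L} (c : K) (hf : PolyMap K f) : PolyMap K fun y => c • f y :=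
  fun l hl => by
    simp only [map_smul]
    exact Subalgebra.smul_mem _ (hf l hl) c

lemma PolyMap.lie (h : Lim K L) {f g : L → L} (hf : PolyMap K f) (hg : PolyMap K g) :
    PolyMap K fun y => ⁅f y, g y⁆ := by
  rintro l ⟨n, hl⟩
  have := h.fin n
  let b := finBasis K (L ⧸ gam K L n)
  choose e he using fun j => (gam K L n).mkQ_surjective (b j)
  have h1 : (fun y => l ⁅f y, g y⁆) = ∑ j, (fun y => (b.coord j ∘ₗ (gam K L n).mkQ) (f y)) *
      fun y => (l ∘ₗ LieAlgebra.ad K L (e j)) (g y) := by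
    ext y
    have h2 : f y - ∑ j, b.repr ((gam K L n).mkQ (f y)) j • e j ∈ gam K L n := by
      rw [← Submodule.Quotient.eq, ← mkQ_apply, ← mkQ_apply, map_sum]
      simp only [map_smul, he, b.sum_repr]
    have h3 := hl _ (lie_mem_gam_left h2 (g y))
    rw [sub_lie, map_sub, sub_eq_zero, sum_lie] at h3
    simpa using h3
  rw [h1]
  exact sum_mem fun j _ => mul_mem
    (hf _ ⟨n, fun v hv => by simp [(Submodule.Quotient.mk_eq_zero _).2 hv]⟩)
    (hg _ ⟨n, fun v hv => hl _ (lie_mem_gam_right _ hv)⟩)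

lemma polyMap_pow (h : Lim K L) (m : ℕ) (v : L) :
    PolyMap K fun y : L => (LieAlgebra.ad K L y ^ m) v := by
  induction m with
  | zero => exact polyMap_const v
  | succ m ih =>
    simp only [pow_succ']
    exact polyMap_id.lie h ih

lemma Lim.generic_fun [Uncountable K] (h : Lim K L) {U : Submodule K L} (hU : Opn U) {ι : Type}
    [Countable ι] (φ : ι → L → K) (hφ : ∀ i, φ i ∈ polys K L) (hne : ∀ i, ∃ u ∈ U, φ i u ≠ 0) :
    ∃ u ∈ U, ∀ i, φ i u ≠ 0 := by
  classical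
  have hf := h.fin
  choose e he he' using fun n => exists_fin_span (U ⊓ gam K L n) (gam K L (n + 1))
  let S := fun (N : ℕ) (a : (Σ n, Fin _) → K) => ∑ n ∈ range N, ∑ j, a ⟨n, j⟩ • e n j
  have hS : ∀ N a, S N a ∈ U := fun N a =>
    sum_mem fun n _ => sum_mem fun j _ => smul_mem _ _ (he n j).1
  choose Φ hΦ using fun a => h.lim (S · a) fun N => by
    simpa [S, sum_range_succ] using sum_mem fun j _ => smul_mem _ _ (he N j).2
  have h1 : ∀ ψ ∈ polys K L, ∃ P : MvPolynomial _ K, (∀ a, ψ (Φ a) = MvPolynomial.eval a P) ∧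
      ∃ N, ∀ u v, u - v ∈ gam K L N → ψ u = ψ v := fun ψ hψ => by
    induction hψ using Algebra.adjoin_induction with
    | mem ψ hψ =>
      obtain ⟨l, ⟨N, hl⟩, rfl⟩ := hψ
      have h2 : ∀ u v, u - v ∈ gam K L N → l u = l v := fun u v huv => by
        rw [← sub_eq_zero, ← map_sub, hl _ huv]
      exact ⟨∑ n ∈ range N, ∑ j, MvPolynomial.X ⟨n, j⟩ * MvPolynomial.C (l (e n j)),
        fun a => by simp [h2 _ _ (hΦ a N), S], N, h2⟩
    | algebraMap c => exact ⟨MvPolynomial.C c, fun a => by simp, 0, fun _ _ _ => rfl⟩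
    | add ψ χ _ _ h1 h2 =>
      obtain ⟨P, hP, M, hM⟩ := h1
      obtain ⟨Q, hQ, N, hN⟩ := h2
      exact ⟨P + Q, fun a => by simp [hP, hQ], M + N, fun u v huv => by
        simp [hM u v (gam_anti (by omega) huv), hN u v (gam_anti (by omega) huv)]⟩
    | mul ψ χ _ _ h1 h2 =>
      obtain ⟨P, hP, M, hM⟩ := h1
      obtain ⟨Q, hQ, N, hN⟩ := h2
      exact ⟨P * Q, fun a => by simp [hP, hQ], M + N, fun u v huv => by
        simp [hM u v (gam_anti (by omega) huv), hN u v (gam_anti (by omega) huv)]⟩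
  have h2 : ∀ u ∈ U, ∀ N, ∃ a, u - S N a ∈ gam K L N := fun u hu N => by
    induction N with
    | zero => exact ⟨0, trivial⟩
    | succ N ih =>
      obtain ⟨a, ha⟩ := ih
      obtain ⟨w, hw, s, hs, e1⟩ := mem_sup.1 (he' N ⟨sub_mem hu (hS N a), ha⟩)
      obtain ⟨c, rfl⟩ := (mem_span_range_iff_exists_fun K).1 hs
      refine ⟨fun p => Function.update (fun n j => a ⟨n, j⟩) N c p.1 p.2, ?_⟩
      have h3 : S N (fun p => Function.update (fun n j => a ⟨n, j⟩) N c p.1 p.2) = S N a :=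
        sum_congr rfl fun n hn => by simp [Function.update_of_ne (mem_range.1 hn).ne]
      simp only [S, sum_range_succ, Function.update_self] at h3 e1 ⊢
      rwa [h3, ← sub_sub, ← e1, add_sub_cancel_right]
  choose P hP N hN using fun i => h1 _ (hφ i)
  obtain ⟨a, ha⟩ := exists_eval_ne P fun i e0 => by
    obtain ⟨u, hu, hu'⟩ := hne i
    obtain ⟨a, ha⟩ := h2 u hu (N i)
    refine hu' ((hN i u (Φ a) ?_).trans (by rw [hP, e0, map_zero]))
    simpa using sub_mem ha (hΦ a (N i))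
  obtain ⟨n, hn⟩ := hU
  exact ⟨Φ a, by simpa using add_mem (hn (hΦ a n)) (hS n a), fun i => hP i a ▸ ha i⟩

lemma Lim.bud_poly (h : Lim K L) (n c : ℕ) {u₀ : L} (hu : cod (im K u₀ ⊔ gam K L n) ≤ c) :
    ∃ φ ∈ polys K L, φ u₀ ≠ 0 ∧ ∀ u, φ u ≠ 0 → cod (im K u ⊔ gam K L n) ≤ c := by
  classical
  have := h.fin n
  have hf := fun u => fin_mono (le_sup_right : gam K L n ≤ im K u ⊔ gam K L n)
  obtain ⟨z, hz⟩ := cod_le_iff.1 hu
  let b := finBasis K (L ⧸ gam K L n)
  have h1 : ∀ j, ∃ y, ∃ w ∈ span K (Set.range z), (gam K L n).mkQ (⁅u₀, y⁆ + w) = b j := fun j => by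
    obtain ⟨v, hv⟩ := (gam K L n).mkQ_surjective (b j)
    obtain ⟨_, h2, w, hw, rfl⟩ := mem_sup.1 (hz.ge (mem_top (x := v)))
    obtain ⟨_, ⟨y, rfl⟩, g, hg, rfl⟩ := mem_sup.1 h2
    exact ⟨y, w, hw, by simpa [(Submodule.Quotient.mk_eq_zero _).2 hg] using hv⟩
  choose y w hw hb using h1
  let A : Matrix _ _ (L → K) := fun i j u => (b.coord i ∘ₗ (gam K L n).mkQ) (⁅u, y j⁆ + w j)
  have hA : ∀ u, A.det u = b.det fun j => (gam K L n).mkQ (⁅u, y j⁆ + w j) := fun u =>
    (Pi.evalRingHom _ u).map_det A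
  refine ⟨A.det, ?_, by simp only [hA, hb, b.det_self, ne_eq, one_ne_zero, not_false_eq_true],
    fun u hu => cod_le_iff.2 ⟨z, top_unique fun v _ => ?_⟩⟩
  · rw [Matrix.det_apply']
    exact sum_mem fun σ _ => mul_mem (intCast_mem _ _) (prod_mem fun j _ =>
      (polyMap_id.lie h (polyMap_const _)).add (polyMap_const _) _
        ⟨n, fun v hv => by simp [(Submodule.Quotient.mk_eq_zero _).2 hv]⟩)
  · rw [hA] at hu
    obtain ⟨a, ha⟩ := (mem_span_range_iff_exists_fun K).1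
      (((b.is_basis_iff_det.2 hu.isUnit).2).ge (mem_top (x := (gam K L n).mkQ v)))
    simp only [← map_smul, ← map_sum] at ha
    rw [← sub_add_cancel v (∑ j, a j • (⁅u, y j⁆ + w j))]
    exact add_mem (mem_sup_left (mem_sup_right ((Submodule.Quotient.eq _).1 ha.symm)))
      (sum_mem fun j _ => smul_mem _ _ (add_mem_sup (mem_sup_left ⟨y j, rfl⟩) (hw j)))

/-- A generic element of an open subspace. -/
theorem Lim.generic [Uncountable K] (h : Lim K L) {U : Submodule K L} (hU : Opn U) {ι : Type}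
    [Countable ι] (f : ι → L → L) (hf : ∀ i, PolyMap K (f i)) (W : ι → Submodule K L)
    (hW : ∀ i, Opn (W i)) (hne : ∀ i, ∃ u ∈ U, f i u ∉ W i) :
    ∃ u ∈ U, (∀ i, f i u ∉ W i) ∧ ∀ n, cod (im K u ⊔ gam K L n) ≤ cod U + 3 := by
  obtain ⟨m, hm⟩ := id hU
  choose u₁ hu₁ hu₁' using hne
  choose l hl hl' using fun i => (W i).exists_dual_map_eq_bot_of_notMem (hu₁' i) inferInstance
  have hl0 : ∀ i, ∀ v ∈ W i, l i v = 0 := fun i v hv => (hl' i).le (mem_map_of_mem hv)
  choose u₂ hu₂ hu₂' using fun n => h.bud (n + m) U ((gam_anti (by omega)).trans hm)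
  choose φ hφ h1 h2 using fun n => h.bud_poly _ _ (hu₂' n)
  obtain ⟨u, hu, h3⟩ := h.generic_fun hU (Sum.elim (fun i y => l i (f i y)) φ)
    (Sum.rec (fun i => hf i _ ((hW i).imp fun n hn v hv => hl0 i v (hn hv))) hφ)
    (Sum.rec (fun i => ⟨_, hu₁ i, hl i⟩) fun n => ⟨_, hu₂ n, h1 n⟩)
  refine ⟨u, hu, fun i hi => h3 (.inl i) (hl0 i _ hi), fun n => ?_⟩
  have := h.fin_opn ((opn_gam (n + m)).mono (le_sup_right (a := im K u)))
  exact (cod_anti (sup_le_sup_left (gam_anti (by omega)) _)).trans (h2 n u (h3 (.inr n)))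

/-- A generic element of an open subspace outside countably many open subspaces. -/
theorem Lim.generic_notMem [Uncountable K] (h : Lim K L) {U : Submodule K L} (hU : Opn U)
    {ι : Type} [Countable ι] (W : ι → Submodule K L) (hW : ∀ i, Opn (W i)) (hne : ∀ i, ¬ U ≤ W i) :
    ∃ u ∈ U, (∀ i, u ∉ W i) ∧ ∀ V, Opn V → cod (im K u ⊔ V) ≤ cod U + 3 := by
  obtain ⟨u, h1, h2, h3⟩ := h.generic hU (fun _ y => y) (fun _ => polyMap_id) W hW fun i =>
    SetLike.not_le_iff_exists.1 (hne i)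
  refine ⟨u, h1, h2, fun V ⟨n, hn⟩ => ?_⟩
  have := h.fin_opn ((opn_gam n).mono (le_sup_right (a := im K u)))
  exact (cod_anti (sup_le_sup_left hn _)).trans (h3 n)

theorem Lim.kappa [Uncountable K] (h : Lim K L) {U V W : Submodule K L} (hU : Opn U) (hV : Opn V)
    (hW : Opn W) (H : ∀ u ∈ U, ∀ v ∈ V, ⁅u, v⁆ ∈ W) : cod W ≤ cod U + cod V + 3 := by
  obtain ⟨u, h1, -, h3⟩ := h.generic_notMem hU (ι := Empty) (·.elim) (·.elim) (·.elim)
  have := h.fin_opn hV
  have := h.fin_opn hW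
  have := cod_le_of_lie (H u h1)
  have := h3 W hW
  omega

theorem Lim.kappa' [Uncountable K] (h : Lim K L) {U V W : Submodule K L} (hU : Opn U) (hV : Opn V)
    (hW : Opn W) (H : ∀ u ∈ U, ∀ v ∈ V, ⁅u, v⁆ ∈ W) (hUV : ¬ U ≤ V) :
    cod W ≤ cod U + cod V + 2 := by
  obtain ⟨u, h1, h2, h3⟩ := h.generic_notMem hU (ι := Unit) (fun _ => V) (fun _ => hV) fun _ => hUV
  have := h.fin_opn hV
  have := h.fin_opn hW
  have := cod_lt_of_lie (H u h1) (h2 ())
  have := h3 W hW
  omega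

theorem Lim.exists_gen [Uncountable K] (h : Lim K L) : ∃ x : L, Gen K x ∧ x ∉ gam K L 2 := by
  classical
  have h1 : ∀ p : ℕ × ℕ, ∃ v ∈ gam K L p.1, (∃ y : L, (LieAlgebra.ad K L y ^ p.2) v ∉
      gam K L (p.1 + p.2 + 1)) ∨ ∀ y : L, ∀ v ∈ gam K L p.1,
        (LieAlgebra.ad K L y ^ p.2) v ∈ gam K L (p.1 + p.2 + 1) := fun p => by
    by_contra! hn
    obtain ⟨y, v, hv, e⟩ := (hn 0 (zero_mem _)).2
    exact e ((hn v hv).1 y)
  choose v hv hv' using h1
  obtain ⟨x, -, h2, h3⟩ := h.generic (U := ⊤) ⟨0, le_top⟩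
    (ι := Option {p : ℕ × ℕ // ∃ y : L, (LieAlgebra.ad K L y ^ p.2) (v p) ∉ gam K L (p.1 + p.2 + 1)})
    (fun o => o.elim (fun y => y) fun p y => (LieAlgebra.ad K L y ^ p.1.2) (v p.1))
    (by rintro (_ | p); exacts [polyMap_id, polyMap_pow h _ _])
    (fun o => o.elim (gam K L 2) fun p => gam K L (p.1.1 + p.1.2 + 1))
    (by rintro (_ | p) <;> exact opn_gam _)
    (by
      rintro (_ | ⟨p, y, hy⟩)
      exacts [SetLike.not_le_iff_exists.1 (h.ne 0), ⟨y, trivial, hy⟩])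
  exact ⟨x, ⟨by simpa using h3, fun n m hx => (hv' (n, m)).resolve_left fun hy =>
    h2 (some ⟨(n, m), hy⟩) (hx _ (hv (n, m)))⟩, h2 none⟩

end Pool.Agent.P78
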