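import Pool.Agent.Lib.MP_78c6b1_al.Lim.ULie
import Pool.Agent.Lib.MP_78c6b1_al.Lim.Fin

/-! Passage to the limit: the classification of the limit gives the classification block. -/

namespace Pool.Agent.P78

open Module Submodule Filter Pool.Agent.Lib.MP_78c6b1_al.Weil

section

variable {U : Ultrafilter ℕ} {F : ℕ → Type} [∀ i, Field (F i)] {L : ℕ → Type} [∀ i, LieRing (L i)]
  [∀ i, LieAlgebra (F i) (L i)] [∀ i, FiniteDimensional (F i) (L i)]

lemma gam_UL (hn : ∀ i, LieRing.IsNilpotent (L i)) (h3 : ∀ i, cod (gam (F i) (L i) 2) ≤ 3) (n : ℕ) :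
    gam (UP U F) (UL U F L) n = intS U fun i => gam (F i) (L i) n := by
  choose a ha using fun i => cod_le_iff.1 (h3 i)
  induction n using Nat.twoStepInduction with
  | zero => exact intS_top.symm
  | one => exact intS_top.symm
  | more n _ ih =>
    refine le_antisymm (gam_succ_le.2 fun u v hv => ?_) ?_
    · obtain ⟨u, rfl⟩ := pl_surj U F L u
      obtain ⟨y, hy, rfl⟩ := ih.le hv
      exact pl_mem_intS (hy.mono fun i => lie_mem_gam_succ _)
    · rintro _ ⟨y, hy, rfl⟩
      choose! w hw hw' using fun i => @exists_sum_lie _ _ _ _ _ (hn i) _ (ha i) n (y i)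
      rw [pl_congr (w := ∑ k, fun i => ⁅a i k, w i k⁆) (hy.mono fun i h => by simpa using hw' i h),
        map_sum]
      exact sum_mem fun k _ => lie_mem_gam_succ (pl U F L fun i => a i k)
        (ih.ge (pl_mem_intS (hy.mono fun i h => hw i h k)))

lemma exists_intS (hn : ∀ i, LieRing.IsNilpotent (L i)) (h3 : ∀ i, cod (gam (F i) (L i) 2) ≤ 3)
    {n : ℕ} {V : Submodule (UP U F) (UL U F L)} (hV : gam (UP U F) (UL U F L) n ≤ V) :
    ∃ W : ∀ i, Submodule (F i) (L i), (∀ i, gam (F i) (L i) n ≤ W i) ∧ V = intS U W := by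
  rw [gam_UL hn h3] at hV
  have := (cod_intS_le (U := U) (Eventually.of_forall fun i => (cod_gam_le (hn i) (h3 i) n).le)).1
  obtain ⟨e, he, he'⟩ := exists_fin_span V (intS U fun i => gam (F i) (L i) n)
  choose y hy using fun j => pl_surj U F L (e j)
  obtain rfl := funext hy
  refine ⟨_, fun i => le_sup_left, (he'.antisymm (sup_le hV (span_le.2 ?_))).trans (intS_sup_span y)⟩
  rintro _ ⟨j, rfl⟩
  exact he j

lemma lim_UL (hU : (U : Filter ℕ) ≤ atTop) (hn : ∀ i, LieRing.IsNilpotent (L i))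
    (hd : ∀ i, i ≤ finrank (F i) (L i))
    (hb : ∀ i n (W : Submodule (F i) (L i)),
      ∃ u ∈ W, cod (im (F i) u ⊔ gam (F i) (L i) n) ≤ cod W + 3)
    (h3 : ∀ i, cod (gam (F i) (L i) 2) ≤ 3) : Lim (UP U F) (UL U F L) := by
  classical
  have hf : ∀ n, FiniteDimensional (UP U F) (UL U F L ⧸ gam (UP U F) (UL U F L) n) := fun n => by
    rw [gam_UL hn h3]
    exact (cod_intS_le (Eventually.of_forall fun i => (cod_gam_le (hn i) (h3 i) n).le)).1
  refine ⟨hf, fun n h => ?_, fun v h => ?_, fun f h => ?_, fun n V hV => ?_⟩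
  · rw [gam_UL hn h3, gam_UL hn h3, intS_le_iff fun _ => le_rfl] at h
    obtain ⟨i, a1, a2⟩ := (h.and (hU (eventually_ge_atTop (4 ^ (n + 1))))).exists
    have := cod_gam_le (hn i) (h3 i) (n + 1)
    rw [gam_eq_bot_of_le (hn i) a1, cod, (quotEquivOfEqBot _ rfl).finrank_eq] at this
    exact absurd (a2.trans (hd i)) (not_le.2 this)
  · obtain ⟨y, rfl⟩ := pl_surj U F L v
    exact pl_eq_zero.2 fun n => (mem_intS fun _ => le_rfl).1 ((gam_UL hn h3 n).le (h n))
  · choose y hy using fun n => pl_surj U F L (f n)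
    obtain rfl := funext hy
    simp only [← map_sub, gam_UL hn h3, mem_intS fun _ => le_rfl, Pi.sub_apply] at h
    let P := fun i k => ∀ m < k, y (m + 1) i - y m i ∈ gam (F i) (L i) m
    refine ⟨pl U F L fun i => y (Nat.findGreatest (P i) i) i, fun n => ?_⟩
    rw [← map_sub, gam_UL hn h3]
    refine pl_mem_intS ((((eventually_all_finite (Set.finite_lt_nat n)).2 fun m _ => h m).and
      (hU (eventually_ge_atTop n))).mono fun i hi => ?_)
    have h1 := Nat.findGreatest_spec (P := P i) hi.2 hi.1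
    have h2 := Nat.le_findGreatest (P := P i) hi.2 hi.1
    change y _ i - y n i ∈ _
    generalize Nat.findGreatest (P i) i = k at h1 h2
    induction k, h2 using Nat.le_induction with
    | base => simp
    | succ k hk ih =>
      simpa using add_mem (gam_anti hk (h1 k k.lt_succ_self)) (ih fun m hm => h1 m (by omega))
  · have := hf n
    have := fin_mono hV
    obtain ⟨W, hW, rfl⟩ := exists_intS hn h3 hV
    choose u hu hu' using fun i => hb i n (W i)
    obtain ⟨h4, h5⟩ := cod_intS_le ((le_of_cod_intS (U := U) hW le_rfl).mono fun i hi =>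
      (hu' i).trans (Nat.add_le_add_right hi 3))
    refine ⟨pl U F L u, pl_mem_intS (Eventually.of_forall hu), (cod_anti ?_).trans h5⟩
    rintro _ ⟨y, hy, rfl⟩
    choose! s hs g hg e using fun i => (mem_sup (x := y i) (p := im (F i) (u i))
      (p' := gam (F i) (L i) n)).1
    choose! w hw using fun i => (mem_im (K := F i) (u := u i) (v := s i)).1
    rw [pl_congr (v := y) (w := (fun i => ⁅u i, w i⁆) + g)
      (hy.mono fun i h => by simp [hw i (hs i h), e i h]), map_add, gam_UL hn h3]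
    exact add_mem_sup (mem_im.2 ⟨pl U F L w, rfl⟩) (pl_mem_intS (hy.mono hg))

lemma ev_le {p : ℕ → ℕ → Prop} (R : ℕ) (h : ∀ j, j ≤ R → ∀ᶠ i in U, p i j) :
    ∀ᶠ i in U, ∀ j, j ≤ R → p i j := (eventually_all_finite (Set.finite_le_nat R)).2 h

lemma pureFil_of_UL (hn : ∀ i, LieRing.IsNilpotent (L i)) (h3 : ∀ i, cod (gam (F i) (L i) 2) ≤ 3)
    {μ R : ℕ} (P : PureFil (UP U F) (UL U F L) μ R) : ∀ᶠ i in U, Nonempty (PureFil (F i) (L i) μ R) := by
  choose! W hW hW' using fun j (hj : j ≤ R + 1) =>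
    exists_intS hn h3 ((P.gam_le le_rfl).trans (P.anti hj))
  choose e he using fun j => pl_surj U F L (P.e j)
  have hle : ∀ {j k}, j ≤ R + 1 → k ≤ R + 1 → P.F j ≤ P.F k → ∀ᶠ i in U, W j i ≤ W k i :=
    fun hj hk h => (intS_le_iff (hW _ hk)).1 (by rwa [← hW' _ hj, ← hW' _ hk])
  have h1 : ∀ᶠ i in U, ⊤ ≤ W 1 i := (intS_le_iff (hW 1 (by omega))).1 (by
    rw [← hW' 1 (by omega), P.one]; exact le_top)
  have h2 := ev_le R fun j hj => hle (by omega) (by omega) (P.anti j.le_succ)
  have h4 : ∀ᶠ i in U, ∀ j, j ≤ R + 1 → ∀ k, k ≤ R + 1 → j + k ≤ R + 1 →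
      ∀ a ∈ W j i, ∀ b ∈ W k i, ⁅a, b⁆ ∈ W (j + k) i := ev_le _ fun j hj => ev_le _ fun k hk => by
    refine eventually_imp_distrib_left.2 fun hjk => by_contra fun hc => ?_
    have h5 := Ultrafilter.eventually_not.2 hc
    choose! a ha b hb hab using fun i (h : ¬ ∀ a ∈ W j i, ∀ b ∈ W k i, ⁅a, b⁆ ∈ W (j + k) i) =>
      (by simpa using h : ∃ a ∈ W j i, ∃ b ∈ W k i, ⁅a, b⁆ ∉ W (j + k) i)
    have h6 := P.lie j k hjk _ ((hW' j hj).ge (pl_mem_intS (h5.mono ha))) _
      ((hW' k hk).ge (pl_mem_intS (h5.mono hb)))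
    rw [hW' _ hjk, pl_lie, mem_intS (hW _ hjk)] at h6
    obtain ⟨i, a1, a2⟩ := (h5.and h6).exists
    exact hab i a1 a2
  have h5 : ∀ᶠ i in U, ∀ j, j ≤ R → 1 ≤ j → ¬ inS μ j → W j i ≤ W (j + 1) i := ev_le _ fun j hj =>
    eventually_imp_distrib_left.2 fun a1 => eventually_imp_distrib_left.2 fun a2 =>
      hle (by omega) (by omega) (P.gap j a1 a2).le
  have h6 : ∀ᶠ i in U, ∀ j, j ≤ R → inS μ j → W j i = (F i ∙ e j i) ⊔ W (j + 1) i ∧
      e j i ∉ W (j + 1) i := ev_le _ fun j hj => eventually_imp_distrib_left.2 fun a1 => by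
    have b1 := P.span j hj a1
    have b2 := P.ne j hj a1
    have b3 := intS_sup_span (U := U) (W := W (j + 1)) fun _ : Unit => e j
    simp only [Set.range_const, he, sup_comm (W (j + 1) _)] at b3
    rw [hW' (j + 1) (by omega), ← he, mem_intS (hW _ (by omega))] at b2
    rw [hW' j (by omega), hW' (j + 1) (by omega), sup_comm, b3] at b1
    exact ((((intS_le_iff fun i => (hW (j + 1) (by omega) i).trans le_sup_right).1 b1.le).and
      ((intS_le_iff (hW j (by omega))).1 b1.ge)).mono fun i h => h.1.antisymm h.2).and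
      (Ultrafilter.eventually_not.2 b2)
  have h7 : ∀ᶠ i in U, ∀ j, j ≤ R → ∀ k, k ≤ R → inS μ j → inS μ k → j + k ≤ R →
      ⁅e j i, e k i⁆ - ((k : F i) - (j : F i)) • e (j + k) i ∈ W (j + k + 1) i :=
    ev_le _ fun j _ => ev_le _ fun k _ => eventually_imp_distrib_left.2 fun a1 =>
      eventually_imp_distrib_left.2 fun a2 => eventually_imp_distrib_left.2 fun a3 => by
        have b1 := P.br j k a1 a2 a3
        rwa [← he, ← he, ← he, ← map_natCast (pr U F), ← map_natCast (pr U F), ← map_sub, pl_smul,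
          pl_lie, ← map_sub, hW' _ (by omega), mem_intS (hW _ (by omega))] at b1
  filter_upwards [h1, h2, h4, h5, h6, h7] with i h1 h2 h4 h5 h6 h7
  have h8 : ∀ j, R < j → min j (R + 1) = min (j + 1) (R + 1) := fun j hj => by omega
  have h9 : ∀ j, j ≤ R + 1 → min j (R + 1) = j := fun j => min_eq_left
  refine ⟨⟨fun j => W (min j (R + 1)) i, fun j => e j i, ?_, antitone_nat_of_succ_le fun j => ?_,
    fun j k hjk => ?_, fun j a1 a2 => ?_, fun j a1 a2 => ?_, fun j a1 a2 => ?_,
    fun j k a1 a2 a3 => ?_⟩⟩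
  · rw [h9 1 (by omega)]
    exact top_unique h1
  · rcases le_or_gt j R with hj | hj
    · rw [h9 j (by omega), h9 _ (by omega)]
      exact h2 j hj
    · rw [h8 j hj]
  · rw [h9 j (by omega), h9 k (by omega), h9 _ hjk]
    exact h4 j (by omega) k (by omega) hjk
  · rcases le_or_gt j R with hj | hj
    · rw [h9 j (by omega), h9 _ (by omega)]
      exact (h5 j hj a1 a2).antisymm (h2 j hj)
    · rw [h8 j hj]
  · rw [h9 j (by omega), h9 _ (by omega)]
    exact (h6 j a1 a2).1
  · rw [h9 _ (by omega)]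
    exact (h6 j a1 a2).2
  · rw [h9 _ (by omega)]
    exact h7 j (by omega) k (by omega) a1 a2 a3

end

theorem classStmt_of (H : LimStmt) : ClassStmt := fun R => by
  by_contra! hn
  choose p hp hle L i1 i2 i3 h1 h2 h3 h4 using fun i => hn i (i + 1)
  have hU : (hyperfilter ℕ : Filter ℕ) ≤ atTop := Nat.hyperfilter_le_atTop
  generalize hyperfilter ℕ = U at hU
  have : CharZero (UP U fun i => ZMod (p i)) := charZero_of_inj_zero fun n hn => by
    rw [← map_natCast (pr U fun i => ZMod (p i)), pr_eq_zero] at hn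
    obtain ⟨i, a1, a2⟩ := (hn.and (hU (eventually_gt_atTop n))).exists
    exact Nat.eq_zero_of_dvd_of_lt ((ZMod.natCast_eq_zero_iff _ _).1 a1) (a2.trans (hle i))
  have : Uncountable (UP U fun i => ZMod (p i)) := not_countable_iff.1 fun _ =>
    not_countable (F := fun i => ZMod (p i)) (σ := Unit) (ι := Empty) hU Empty.elim
      (fun i => by simpa [Nat.card_fun] using hle i) (Set.to_countable _)
  have h5 : ∀ i, cod (gam (ZMod (p i)) (L i) 2) ≤ 3 := fun i => by
    obtain ⟨u, -, hu⟩ := (h3 i).bud 2 ⊤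
    rwa [sup_eq_right.2 (by rintro _ ⟨w, rfl⟩; exact lie_mem_gam_succ u trivial), cod_top] at hu
  obtain ⟨μ, hμ, ⟨P⟩⟩ := H _ _ (lim_UL hU h1 (fun i => by
    have := h2 i
    rw [Module.natCard_eq_pow_finrank (K := ZMod (p i)), Nat.card_zmod] at this
    exact (Nat.pow_le_pow_iff_right (hp i).1.one_lt).1 this) (fun i => (h3 i).bud) h5) R
  obtain ⟨i, hi⟩ := (pureFil_of_UL h1 h5 P).exists
  exact (h4 i μ hμ).elim' hi.some

end Pool.Agent.P78
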