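import Mathlib

/-! Structure constants of graded algebras spanned by `X, E q, E (q + 1), …` with
`⁅X, E s⁆ = E (s + 1)` and `⁅E s, E t⁆ = c s t • E (s + t)`. -/

namespace Pool.Agent.P78

open Filter

variable {K : Type} [Field K]

/-- The identities satisfied by the structure constants. -/
structure Cst (q : ℕ) (c : ℕ → ℕ → K) : Prop where
  der : ∀ s t, q ≤ s → q ≤ t → c s t = c (s + 1) t + c s (t + 1)
  anti : ∀ s t, q ≤ s → q ≤ t → c t s = - c s t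
  jac : ∀ r s t, q ≤ r → q ≤ s → q ≤ t →
    c r s * c (r + s) t = c s t * c r (s + t) - c r t * c s (r + t)

/-- After rescaling by `β`, the constants are those of the Witt algebra. -/
def IsWitt (q : ℕ) (c : ℕ → ℕ → K) : Prop :=
  ∃ β : ℕ → K, (∀ s, β s ≠ 0) ∧ (∀ s, q ≤ s → β s = ((s : K) - 1) * β (s + 1)) ∧
    ∀ s t, q ≤ s → q ≤ t → β s * β t * c s t = ((t : K) - s) * β (s + t)

/-- The shift by `w ≥ 2` is not a derivation. -/
def PStmt : Prop :=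
  ∀ (K : Type) [Field K] [CharZero K] (q w : ℕ) (c : ℕ → ℕ → K), Cst q c → 2 ≤ w →
    (∀ s t, q ≤ s → q ≤ t → c s t = c (s + w) t + c s (t + w)) → ∀ᶠ t in atTop, c (q + 1) t = 0

/-- Type `q = 1`. -/
def Q1Stmt : Prop :=
  ∀ (K : Type) [Field K] [CharZero K] (c : ℕ → ℕ → K), Cst 1 c → ∀ t, 2 ≤ t → c 2 t = 0

/-- Type `q = 2`. -/
def Q2Stmt : Prop :=
  ∀ (K : Type) [Field K] [CharZero K] (c : ℕ → ℕ → K), Cst 2 c → (∃ t, 3 ≤ t ∧ c 3 t ≠ 0) →
    IsWitt 2 c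

/-- Type `q = 3`. -/
def Q3Stmt : Prop :=
  ∀ (K : Type) [Field K] [CharZero K] (c : ℕ → ℕ → K), Cst 3 c →
    (∀ s t, 3 ≤ s → s < t → c s t ≠ 0) → IsWitt 3 c

end Pool.Agent.P78
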