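import Pool.Agent.Lib.MP_78c6b1_al.Lim.TMod

/-! Rank one: finite coclass and the filtration by the shift of deep ideals. -/

namespace Pool.Agent.P78

open Module Submodule Filter PowerSeries

variable {K L : Type} [Field K] [LieRing L] [LieAlgebra K L]

/-- From `q` on, the layers of `F` are spanned by one `ad x` chain. -/
structure Good (x : L) (F : ℕ → Submodule K L) (E : ℕ → L) (q : ℕ) : Prop where
  step : ∀ s, q ≤ s → ⁅x, E s⁆ = E (s + 1)
  span : ∀ s, q ≤ s → F s = (K ∙ E s) ⊔ F (s + 1)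
  ne : ∀ s, q ≤ s → E s ∉ F (s + 1)

/-- A faithful Lie filtration. -/
structure Fil (F : ℕ → Submodule K L) : Prop where
  one : F 1 = ⊤
  anti : Antitone F
  lie : ∀ {i j a b}, a ∈ F i → b ∈ F j → ⁅a, b⁆ ∈ F (i + j)
  gam_le : ∀ n, gam K L n ≤ F n
  faith : ∀ w, ∀ y ∈ F w, (∀ᶠ t in atTop, ∀ v ∈ F t, ⁅y, v⁆ ∈ F (t + w + 1)) → y ∈ F (w + 1)
  bud : ∀ s, s ≤ cod (F s) + 2

variable {x : L} {F : ℕ → Submodule K L} {E : ℕ → L} {q s : ℕ}

lemma Good.mono (G : Good x F E q) (h : q ≤ s) : Good x F E s :=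
  ⟨fun t ht => G.step t (h.trans ht), fun t ht => G.span t (h.trans ht), fun t ht => G.ne t (h.trans ht)⟩

lemma Good.mem (G : Good x F E q) (h : q ≤ s) : E s ∈ F s :=
  (G.span s h).ge (mem_sup_left (mem_span_singleton_self _))

lemma Good.coeff (G : Good x F E q) (h : q ≤ s) {v : L} (hv : v ∈ F s) :
    ∃ c : K, v - c • E s ∈ F (s + 1) := by
  obtain ⟨y, hy, z, hz, rfl⟩ := mem_sup.1 ((G.span s h).le hv)
  obtain ⟨c, rfl⟩ := mem_span_singleton.1 hy
  exact ⟨c, by simpa using hz⟩

lemma Good.eq_zero (G : Good x F E q) (h : q ≤ s) {c : K} (hc : c • E s ∈ F (s + 1)) : c = 0 :=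
  by_contra fun h0 => G.ne s h ((smul_mem_iff _ h0).1 hc)

lemma Good.uniq (G : Good x F E q) (h : q ≤ s) {v : L} {c d : K} (hc : v - c • E s ∈ F (s + 1))
    (hd : v - d • E s ∈ F (s + 1)) : c = d :=
  sub_eq_zero.1 (G.eq_zero h (by simpa [sub_smul] using sub_mem hd hc))

lemma Good.cod_add (G : Good x F E q) (hf : ∀ n, FiniteDimensional K (L ⧸ F n)) (h : q ≤ s) (k : ℕ) :
    cod (F (s + k)) = cod (F s) + k := by
  induction k with
  | zero => rfl
  | succ k ih =>
    have h1 := cod_le_sup_span (F (s + k + 1)) (E (s + k))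
    have h2 := cod_lt (U := F (s + k + 1)) (V := F (s + k + 1) ⊔ K ∙ E (s + k))
      (left_lt_sup.2 (by simpa using G.ne (s + k) (by omega)))
    rw [sup_comm, ← G.span _ (by omega)] at h1 h2
    rw [← add_assoc]
    omega

lemma Lim.exists_good [Module K⟦X⟧ L] [IsScalarTower K K⟦X⟧ L] (h : Lim K L) {a b : L} {k : ℕ}
    (H : TGen K x a b) (hb : (X : K⟦X⟧) ^ k • b = 0) : ∃ e n, Good x (gam K L) e n := by
  obtain ⟨n, hn⟩ := h.cofinal H (k + 1)
  let I : Ideal K⟦X⟧ :=
    { carrier := {f | f • a ∈ gam K L (n + 1)}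
      zero_mem' := by simp
      add_mem' := fun hf hg => by simpa [add_smul] using add_mem hf hg
      smul_mem' := fun f g hg => by simpa [mul_smul] using smul_mem_gam H.act f hg }
  obtain ⟨p, hp⟩ := (IsPrincipalIdealRing.principal I).principal
  have h0 : ∀ f : K⟦X⟧, ∃ g : K⟦X⟧, ∀ v : L, f • v = constantCoeff f • v + g • ⁅x, v⁆ := fun f => by
    obtain ⟨g, hg⟩ := smul_eq_sum (L := L) f 1
    exact ⟨g, fun v => by simp [hg v, ← H.act, smul_comm g]⟩
  have h1 : ∀ m, (LieAlgebra.ad K L x ^ m) (p • a) ∈ gam K L (n + 1 + m) := fun m =>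
    ad_pow_mem_gam x m (hp.ge (mem_span_singleton_self p))
  have h2 : ∀ m {v : L} {f : K⟦X⟧}, v = f • (LieAlgebra.ad K L x ^ m) (p • a) →
      ∃ (c : K) (g : K⟦X⟧), v = c • (LieAlgebra.ad K L x ^ m) (p • a) +
        g • (LieAlgebra.ad K L x ^ (m + 1)) (p • a) := fun m v f hf => by
    obtain ⟨g, hg⟩ := h0 f
    exact ⟨_, g, by rw [hf, hg, pow_succ']; rfl⟩
  have h3 : ∀ m, (∀ v ∈ gam K L (n + 1 + m), ∃ f : K⟦X⟧, v = f • (LieAlgebra.ad K L x ^ m) (p • a)) →
      gam K L (n + 1 + m) = (K ∙ (LieAlgebra.ad K L x ^ m) (p • a)) ⊔ gam K L (n + 1 + m + 1) ∧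
      (LieAlgebra.ad K L x ^ m) (p • a) ∉ gam K L (n + 1 + m + 1) := fun m hm => by
    have h4 : gam K L (n + 1 + m) ≤ (K ∙ (LieAlgebra.ad K L x ^ m) (p • a)) ⊔ gam K L (n + 1 + m + 1) :=
      fun v hv => by
        obtain ⟨f, hf⟩ := hm v hv
        obtain ⟨c, g, rfl⟩ := h2 m hf
        exact add_mem_sup (smul_mem _ _ (mem_span_singleton_self _)) (smul_mem_gam H.act g (h1 (m + 1)))
    refine ⟨h4.antisymm (sup_le (by simpa using h1 m) (gam_anti (by omega))), fun h5 => h.ne (n + m) ?_⟩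
    rw [add_right_comm n m, show n + m + 2 = n + 1 + m + 1 by omega]
    exact h4.trans (sup_le (by simpa using h5) le_rfl)
  have h4 : ∀ m, ∀ v ∈ gam K L (n + 1 + m), ∃ f : K⟦X⟧, v = f • (LieAlgebra.ad K L x ^ m) (p • a) :=
    fun m => by
      induction m with
      | zero =>
        intro v hv
        obtain ⟨w, rfl⟩ := hn v (gam_anti (by omega) hv)
        obtain ⟨c, f, g, rfl⟩ := H.gen w
        have h5 : (X : K⟦X⟧) ^ (k + 1) • (c • x + f • a + g • b) = (X ^ (k + 1) * f) • a := by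
          rw [smul_add, smul_add, smul_comm _ g, pow_succ' X k, mul_smul X _ b, hb, ← pow_succ',
            smul_comm _ c, pow_succ, mul_smul _ X x, H.act, mul_smul _ f]
          simp
        rw [h5] at hv ⊢
        obtain ⟨r, hr⟩ := mem_span_singleton.1 (hp.le (show _ ∈ I from hv))
        exact ⟨r, by rw [← hr]; simp [mul_smul]⟩
      | succ m ih =>
        intro v hv
        obtain ⟨f, hf⟩ := ih v (gam_anti (by omega) hv)
        obtain ⟨c, g, rfl⟩ := h2 m hf
        by_cases hc : c = 0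
        · exact ⟨g, by simp [hc]⟩
        · exact absurd ((smul_mem_iff _ hc).1 ((Submodule.add_mem_iff_left _
            (smul_mem_gam H.act g (h1 (m + 1)))).1 hv)) (h3 m ih).2
  refine ⟨fun s => (LieAlgebra.ad K L x ^ (s - (n + 1))) (p • a), n + 1, fun s hs => ?_,
    fun s hs => ?_, fun s hs => ?_⟩
  · rw [show s + 1 - (n + 1) = s - (n + 1) + 1 by omega, pow_succ']; rfl
  all_goals obtain ⟨m, rfl⟩ := Nat.exists_eq_add_of_le hs
  · simpa using (h3 m (h4 m)).1
  · simpa using (h3 m (h4 m)).2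

variable (K L) in
/-- The elements that shift deep terms of the lower central series by at least `s`. -/
def shiftF (s : ℕ) : Submodule K L where
  carrier := {y | ∀ᶠ n in atTop, ∀ v ∈ gam K L n, ⁅y, v⁆ ∈ gam K L (n + s)}
  zero_mem' := Eventually.of_forall (by simp)
  add_mem' ha hb := (Eventually.and ha hb).mono fun n h v hv => by
    simpa using add_mem (h.1 v hv) (h.2 v hv)
  smul_mem' c _ h := Eventually.mono h fun n h v hv => by simpa using smul_mem _ c (h v hv)

lemma gam_le_shiftF (s : ℕ) : gam K L s ≤ shiftF K L s := fun _ hy =>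
  Eventually.of_forall fun n _ hv => add_comm s n ▸ lie_mem_gam hy hv

lemma shiftF_anti : Antitone (shiftF K L) := fun _ _ h _ hy =>
  Eventually.mono hy fun _ hn v hv => gam_anti (by omega) (hn v hv)

lemma lie_mem_shiftF {i j : ℕ} {a b : L} (ha : a ∈ shiftF K L i) (hb : b ∈ shiftF K L j) :
    ⁅a, b⁆ ∈ shiftF K L (i + j) := by
  filter_upwards [ha, hb, (tendsto_add_atTop_nat j).eventually ha,
    (tendsto_add_atTop_nat i).eventually hb] with n h1 h2 h3 h4 v hv
  rw [lie_lie]
  exact sub_mem (gam_anti (by omega) (h3 _ (h2 v hv))) (gam_anti (by omega) (h4 _ (h1 v hv)))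

lemma Lim.bud_shiftF (h : Lim K L) (G : Good x (gam K L) E q) (s : ℕ) :
    s ≤ cod (shiftF K L s) + 2 := by
  have hf := h.fin
  obtain ⟨e, he, he'⟩ := exists_fin_span (shiftF K L s) (gam K L s)
  obtain ⟨n, a1, a2⟩ := ((eventually_all.2 he).and
    (eventually_ge_atTop (q + cod (shiftF K L s) + 3))).exists
  obtain ⟨u, hu, hu'⟩ := h.bud (n + s + 1) (shiftF K L s) ((gam_anti (by omega)).trans (gam_le_shiftF s))
  have := fin_mono (le_sup_right : gam K L (n + s + 1) ≤ im K u ⊔ gam K L (n + s + 1))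
  by_cases hn : u ∈ gam K L n
  · have h1 := cod_anti (U := im K u ⊔ gam K L (n + s + 1)) (V := gam K L (n + 1))
      (sup_le (by rintro _ ⟨w, rfl⟩; exact lie_mem_gam (j := 1) hn trivial) (gam_anti (by omega)))
    have h2 := G.cod_add hf le_rfl (n + 1 - q)
    rw [show q + (n + 1 - q) = n + 1 by omega] at h2
    omega
  · have h1 := cod_lt_of_lie (W := gam K L (n + s)) (fun v hv => ?_) hn
    · have h2 := G.cod_add hf (show q ≤ n by omega) s
      have h3 := cod_anti (sup_le_sup_left (gam_anti (K := K) (L := L) (Nat.le_add_right (n + s) 1)) (im K u))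
      omega
    · obtain ⟨g, hg, z, hz, rfl⟩ := mem_sup.1 (he' hu)
      obtain ⟨c, rfl⟩ := (mem_span_range_iff_exists_fun K).1 hz
      rw [add_lie, sum_lie]
      exact add_mem (add_comm s n ▸ lie_mem_gam hg hv)
        (sum_mem fun j _ => by rw [smul_lie]; exact smul_mem _ _ (a1 j v hv))

lemma Lim.exists_fil (h : Lim K L) (G : Good x (gam K L) E q) :
    ∃ (F : ℕ → Submodule K L) (E' : ℕ → L) (q' : ℕ), Fil F ∧ Good x F E' q' := by
  have hf := h.fin
  have hf' := fun s => fin_mono (gam_le_shiftF (K := K) (L := L) s)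
  have h0 : shiftF K L 1 = ⊤ := top_unique (gam_le_shiftF 1)
  have h1 : ∀ {d n}, q ≤ n → E n ∈ shiftF K L (n + d) → ∀ k, E (n + k) ∈ shiftF K L (n + k + d) :=
    fun {d n} hn hE k => by
      induction k with
      | zero => exact hE
      | succ k ih =>
        rw [← add_assoc, ← G.step _ (by omega), show n + k + 1 + d = 1 + (n + k + d) by omega]
        exact lie_mem_shiftF (h0.ge trivial) ih
  have h2 : ∀ {d n}, q ≤ n → E n ∈ shiftF K L (n + d) → gam K L n ≤ shiftF K L (n + d) :=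
    fun {d n} hn hE => by
      have : ∀ k, gam K L n ≤ shiftF K L (n + d) ⊔ gam K L (n + k) := fun k => by
        induction k with
        | zero => exact le_sup_right
        | succ k ih =>
          rw [G.span (n + k) (by omega), ← sup_assoc] at ih
          exact ih.trans (sup_le_sup_right (sup_le le_rfl
            (by simpa using shiftF_anti (by omega) (h1 hn hE k))) _)
      exact (this d).trans (sup_le le_rfl (gam_le_shiftF _))
  have hb : BddAbove {d | ∃ n, q ≤ n ∧ E n ∈ shiftF K L (n + d)} := ⟨cod (gam K L q) + 2, by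
    rintro d ⟨n, hn, hE⟩
    have a1 := cod_anti (h2 hn hE)
    have a2 := h.bud_shiftF G (n + d)
    have a3 := G.cod_add hf le_rfl (n - q)
    rw [show q + (n - q) = n by omega] at a3
    omega⟩
  obtain ⟨m, hm, hE⟩ := Nat.sSup_mem (Set.nonempty_of_mem (x := 0)
    (by exact ⟨q, le_rfl, gam_le_shiftF q (G.mem le_rfl)⟩)) hb
  have h3 := fun d hd => le_csSup hb (a := d) hd
  generalize sSup {d | ∃ n, q ≤ n ∧ E n ∈ shiftF K L (n + d)} = δ at hE h3
  have h4 : ∀ n, m ≤ n → E n ∈ shiftF K L (n + δ) := fun n hn => by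
    simpa only [Nat.add_sub_cancel' hn] using h1 hm hE (n - m)
  have h5 : ∀ n, m ≤ n → E n ∉ shiftF K L (n + δ + 1) := fun n hn h =>
    absurd (h3 (δ + 1) ⟨n, hm.trans hn, h⟩) (by omega)
  have h6 : ∀ n, m ≤ n → ∀ g ∈ gam K L m, g ∈ shiftF K L (n + δ) → g ∈ gam K L n := fun n hn g hg => by
    induction n, hn using Nat.le_induction with
    | base => exact fun _ => hg
    | succ n hn ih =>
      intro h7
      obtain ⟨c, hc⟩ := G.coeff (hm.trans hn) (ih (shiftF_anti (by omega) h7))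
      by_cases h8 : c = 0
      · simpa [h8] using hc
      · refine absurd ((smul_mem_iff _ h8).1 ?_) (h5 n hn)
        simpa [add_right_comm] using sub_mem h7 (h2 (by omega) (h4 (n + 1) (by omega)) hc)
  have hf'' := fun s => fin_mono (le_sup_right : gam K L m ≤ shiftF K L s ⊔ gam K L m)
  obtain ⟨r, hr⟩ := exists_stab (W := fun s => shiftF K L s ⊔ gam K L m)
    (fun _ _ hab => sup_le_sup_right (shiftF_anti hab) _) fun _ => cod_anti le_sup_right
  refine ⟨shiftF K L, fun s => E (s - δ), r + m + δ, ⟨h0, shiftF_anti, lie_mem_shiftF, gam_le_shiftF,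
    fun w y hy hy' => ?_, h.bud_shiftF G⟩, fun s hs => ?_, fun s hs => ?_, fun s hs => ?_⟩
  · filter_upwards [hy, (tendsto_add_atTop_nat δ).eventually hy', eventually_ge_atTop m]
      with n a1 a2 a3 v hv
    exact h6 _ (by omega) _ (lie_mem_gam_right _ (gam_anti a3 hv))
      (shiftF_anti (by omega) (a2 v (h2 (by omega) (h4 n a3) hv)))
  · rw [G.step _ (by omega), show s + 1 - δ = s - δ + 1 by omega]
  all_goals obtain ⟨n, rfl⟩ := Nat.exists_eq_add_of_le' (show δ ≤ s by omega)
  all_goals rw [Nat.add_sub_cancel]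
  · refine le_antisymm (fun y hy => ?_) (sup_le (by simpa using h4 n (by omega)) (shiftF_anti (by omega)))
    obtain ⟨z, hz, g, hg, rfl⟩ := mem_sup.1 (((hr (n + δ) (by omega)).trans
      (hr (n + δ + 1) (by omega)).symm).le (mem_sup_left hy))
    obtain ⟨c, hc⟩ := G.coeff (show q ≤ n by omega) (h6 n (by omega) g hg
      ((Submodule.add_mem_iff_right _ (shiftF_anti (by omega) hz)).1 hy))
    rw [show z + g = c • E n + (z + (g - c • E n)) by abel]
    exact add_mem_sup (smul_mem _ _ (mem_span_singleton_self _)) (add_mem hz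
      (shiftF_anti (by omega) (h2 (by omega) (h4 (n + 1) (by omega)) hc)))
  · exact h5 n (by omega)

end Pool.Agent.P78
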