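import Pool.Agent.Lib.MP_78c6b1_al.Lim.R1Fil
import Pool.Agent.Lib.MP_78c6b1_al.Lim.R1Defs

/-! Rank one: reduction to the statements on structure constants. -/

namespace Pool.Agent.P78

open Module Submodule Filter

variable {K L : Type} [Field K] [LieRing L] [LieAlgebra K L]
  {x : L} {F : ℕ → Submodule K L} {E : ℕ → L} {q : ℕ}

lemma Fil.lie_x (P : Fil F) (x : L) {j : ℕ} {b : L} (hb : b ∈ F j) : ⁅x, b⁆ ∈ F (j + 1) :=
  add_comm 1 j ▸ P.lie (P.one.ge trivial) hb

/-- Leading coefficients multiply (left version). -/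
lemma Fil.lead_left (P : Fil F) {i j : ℕ} {u e w f : L} {a b : K} (h1 : u - a • e ∈ F (i + 1))
    (hw : w ∈ F j) (h2 : ⁅e, w⁆ - b • f ∈ F (i + j + 1)) : ⁅u, w⁆ - (a * b) • f ∈ F (i + j + 1) := by
  have := add_mem (add_right_comm i 1 j ▸ P.lie h1 hw) (smul_mem _ a h2)
  rwa [sub_lie, smul_lie, smul_sub, sub_add_sub_cancel, ← mul_smul] at this

/-- Leading coefficients multiply (right version). -/
lemma Fil.lead_right (P : Fil F) {i j : ℕ} {u e w f : L} {a b : K} (h1 : u - a • e ∈ F (j + 1))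
    (hw : w ∈ F i) (h2 : ⁅w, e⁆ - b • f ∈ F (i + j + 1)) : ⁅w, u⁆ - (a * b) • f ∈ F (i + j + 1) := by
  have := add_mem (P.lie hw h1) (smul_mem _ a h2)
  rwa [lie_sub, lie_smul, smul_sub, sub_add_sub_cancel, ← mul_smul] at this

lemma Fil.faith' (P : Fil F) (G : Good x F E q) {w : ℕ} {y : L} (hy : y ∈ F w)
    (h : ∀ᶠ t in atTop, ⁅y, E t⁆ ∈ F (t + w + 1)) : y ∈ F (w + 1) := by
  refine P.faith w y hy ?_
  filter_upwards [h, eventually_ge_atTop q] with t h1 h2 v hv
  obtain ⟨c, hc⟩ := G.coeff h2 hv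
  rw [add_comm t] at h1 ⊢
  simpa using P.lead_right (f := 0) (b := 0) hc hy (by simpa using h1)

lemma Fil.rebase (P : Fil F) (G : Good x F E q) {E' : ℕ → L} (h : ∀ s, q ≤ s → ⁅x, E' s⁆ = E' (s + 1))
    (h1 : E' q ∈ F q) (h2 : E' q ∉ F (q + 1)) : Good x F E' q := by
  obtain ⟨c, hc⟩ := G.coeff le_rfl h1
  have h0 : c ≠ 0 := fun e => h2 (by simpa [e] using hc)
  have h3 : ∀ s, q ≤ s → E' s - c • E s ∈ F (s + 1) := fun s hs => by
    induction s, hs using Nat.le_induction with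
    | base => exact hc
    | succ s hs ih => simpa [h s hs, G.step s hs] using P.lie_x x ih
  refine ⟨h, fun s hs => ?_, fun s hs h4 => h0 (G.eq_zero hs (by simpa using sub_mem h4 (h3 s hs)))⟩
  rw [G.span s hs, ← span_singleton_smul_eq (IsUnit.mk0 c h0)]
  refine le_antisymm (sup_le ?_ le_sup_right) (sup_le ?_ le_sup_right) <;>
    rw [span_singleton_le_iff_mem]
  · simpa using sub_mem (mem_sup_left (mem_span_singleton_self (E' s))) (mem_sup_right (h3 s hs))
  · simpa using add_mem_sup (mem_span_singleton_self (c • E s)) (h3 s hs)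

lemma Fil.exists_cst (P : Fil F) {q' : ℕ} (G : Good x F E q') (hq : q' ≤ q + q)
    (h1 : ∀ s, q ≤ s → E s ∈ F s) (h2 : ∀ s, q ≤ s → ⁅x, E s⁆ = E (s + 1)) :
    ∃ c : ℕ → ℕ → K, Cst q c ∧
      ∀ s t, q ≤ s → q ≤ t → ⁅E s, E t⁆ - c s t • E (s + t) ∈ F (s + t + 1) := by
  choose! c hc using fun s t (hs : q ≤ s) (ht : q ≤ t) =>
    G.coeff (s := s + t) (by omega) (P.lie (h1 s hs) (h1 t ht))
  refine ⟨c, ⟨fun s t hs ht => G.uniq (s := s + t + 1) (v := ⁅x, ⁅E s, E t⁆⁆) (by omega) ?_ ?_,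
    fun s t hs ht => G.uniq (s := t + s) (by omega) (hc t s ht hs) ?_,
    fun r s t hr hs ht => G.uniq (s := r + s + t) (by omega)
      (P.lead_left (hc r s hr hs) (h1 t ht) (hc _ t (by omega) ht)) ?_⟩, hc⟩
  · simpa [h2 (s + t) (by omega)] using P.lie_x x (hc s t hs ht)
  · have := add_mem (add_right_comm s 1 t ▸ hc (s + 1) t (by omega) ht) (hc s (t + 1) hs (by omega))
    rwa [sub_add_sub_comm, ← h2 s hs, ← h2 t ht, ← leibniz_lie, ← add_assoc, ← add_smul] at this
  · have := neg_mem (add_comm s t ▸ hc s t hs ht)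
    rwa [neg_sub', lie_skew, ← neg_smul] at this
  · have := sub_mem (add_assoc r s t ▸ P.lead_right (hc s t hs ht) (h1 r hr) (hc r _ hr (by omega)))
      ((show s + (r + t) = r + s + t by omega) ▸
        P.lead_right (hc r t hr ht) (h1 s hs) (hc s _ hs (by omega)))
    rwa [sub_sub_sub_comm, ← lie_lie, ← sub_smul] at this

lemma Fil.exists_kappa (P : Fil F) (G : Good x F E q) {w : ℕ} {z : L} (hz : z ∈ F w)
    (h : ⁅x, z⁆ ∈ F (w + 2)) : ∃ κ : K, ∀ t, q ≤ t → ⁅z, E t⁆ - κ • E (w + t) ∈ F (w + t + 1) := by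
  obtain ⟨κ, hκ⟩ := G.coeff (s := w + q) (by omega) (P.lie hz (G.mem le_rfl))
  refine ⟨κ, fun t ht => ?_⟩
  induction t, ht using Nat.le_induction with
  | base => exact hκ
  | succ t ht ih =>
    have := sub_mem (P.lie_x x ih) (P.anti (by omega) (P.lie h (G.mem ht)))
    rwa [lie_sub, leibniz_lie, lie_smul, G.step t ht, G.step _ (by omega), sub_right_comm,
      add_sub_cancel_left] at this

lemma Fil.inj_one (P : Fil F) (G : Good x F E q) {z : L} (h : ⁅x, z⁆ ∈ F 3) :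
    ∃ κ : K, z - κ • x ∈ F 2 := by
  obtain ⟨κ, hκ⟩ := P.exists_kappa G (w := 1) (P.one.ge trivial) h
  refine ⟨κ, P.faith' G (P.one.ge trivial) ((eventually_ge_atTop q).mono fun t ht => ?_)⟩
  simpa [G.step t ht, add_comm 1 t] using hκ t ht

variable [CharZero K]

lemma Fil.inj (HP : PStmt) (P : Fil F) (G : Good x F E q) {w : ℕ} (hw : 2 ≤ w) {z : L} (hz : z ∈ F w)
    (h : ⁅x, z⁆ ∈ F (w + 2)) : z ∈ F (w + 1) := by
  obtain ⟨κ, hκ⟩ := P.exists_kappa G hz h
  by_cases h0 : κ = 0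
  · exact P.faith' G hz ((eventually_ge_atTop q).mono fun t ht => by
      simpa [h0, add_comm w t] using hκ t ht)
  obtain ⟨c, hc, hc'⟩ := P.exists_cst G (Nat.le_add_right q q) (fun _ => G.mem) G.step
  refine absurd (P.faith' G (G.mem q.le_succ) (((HP K q w c hc hw fun s t hs ht => ?_).and
    (eventually_ge_atTop q)).mono fun t ht => ?_)) (G.ne _ q.le_succ)
  · refine mul_left_cancel₀ h0 ((mul_comm _ _).trans (G.uniq (s := w + (s + t)) (by omega)
      (P.lead_right (hc' s t hs ht) hz (hκ _ (by omega))) ?_))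
    have := add_mem (add_assoc w s t ▸ P.lead_left (hκ s hs) (G.mem ht) (hc' _ t (by omega) ht))
      (add_left_comm s w t ▸ P.lead_right (hκ t ht) (G.mem hs) (hc' s _ hs (by omega)))
    rwa [sub_add_sub_comm, ← leibniz_lie, ← add_smul, ← mul_add, add_comm w s, add_comm w t] at this
  · simpa [ht.1, add_comm t] using hc' (q + 1) t q.le_succ ht.2

/-- The shape of the associated graded algebra. -/
lemma Fil.shape (HP : PStmt) (H1 : Q1Stmt) (P : Fil F) (G : Good x F E q) :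
    ∃ E q, 2 ≤ q ∧ Good x F E q ∧ F 2 = F q ∧ (K ∙ x) ⊔ F 2 = ⊤ := by
  classical
  have hex : ∃ q, 2 ≤ q ∧ ∃ E, Good x F E q := ⟨q + 2, by omega, E, G.mono (by omega)⟩
  obtain ⟨h1, E, G⟩ := Nat.find_spec hex
  have h2 := fun m => Nat.find_min hex (m := m)
  generalize Nat.find hex = q at h1 G h2
  have h3 : ∀ {w y}, q = w + 1 → y ∈ F w → ⁅x, y⁆ ∉ F (w + 2) →
      ∃ E, E w = y ∧ ⁅x, y⁆ = E (w + 1) ∧ Good x F E (w + 1) := fun {w y} hq hy hy' => by
    subst hq
    refine ⟨fun s => (LieAlgebra.ad K L x ^ (s - w)) y, by simp, by simp,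
      P.rebase G (fun s hs => ?_) (by simpa using P.lie_x x hy) (by simpa using hy')⟩
    rw [show s + 1 - w = s - w + 1 by omega, pow_succ']
    rfl
  have h4 : ∀ k w, 2 ≤ w → q = w + k + 1 → F w ≤ F (w + 1) := fun k => by
    induction k with
    | zero =>
      intro w hw hq y hy
      by_contra hy'
      obtain ⟨E', rfl, a2, G'⟩ := h3 hq hy fun h => hy' (P.inj HP G hw hy h)
      refine h2 w (by omega) ⟨hw, E', fun s hs => ?_, fun s hs => ?_, fun s hs => ?_⟩ <;>
        obtain rfl | hs := hs.eq_or_lt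
      · exact a2
      · exact G'.step s hs
      · refine le_antisymm (fun v hv => ?_) (sup_le (by simpa using hy) (P.anti (by omega)))
        obtain ⟨c, hc⟩ := G'.coeff le_rfl (P.lie_x x hv)
        simpa using add_mem_sup (smul_mem _ c (mem_span_singleton_self (E' w)))
          (P.inj HP G hw (sub_mem hv (smul_mem _ c hy)) (by simpa [a2] using hc))
      · exact G'.span s hs
      · exact hy'
      · exact G'.ne s hs
    | succ k ih =>
      exact fun w hw hq y hy => P.inj HP G hw hy (ih (w + 1) (by omega) (by omega) (P.lie_x x hy))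
  have h5 : ∀ j, 2 ≤ j → j ≤ q → F 2 ≤ F j := fun j hj => by
    induction j, hj using Nat.le_induction with
    | base => exact fun _ => le_rfl
    | succ j hj ih => exact fun h => (ih (by omega)).trans (h4 (q - j - 1) j hj (by omega))
  refine ⟨E, q, h1, G, (h5 q h1 le_rfl).antisymm (P.anti h1), top_unique fun y _ => ?_⟩
  have hy : y ∈ F 1 := P.one.ge trivial
  by_cases h6 : ⁅x, y⁆ ∈ F 3
  · obtain ⟨κ, hκ⟩ := P.inj_one G h6
    simpa using add_mem_sup (smul_mem _ κ (mem_span_singleton_self x)) hκ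
  obtain ⟨E', rfl, a2, G'⟩ := h3 (by_contra fun h => h6 (h5 3 (by omega) (by omega) (P.lie_x x hy)))
    hy h6
  obtain ⟨c, hc, hc'⟩ := P.exists_cst (q := 1) G' le_rfl
    (fun s hs => by obtain rfl | hs := hs.eq_or_lt; exacts [hy, G'.mem hs])
    (fun s hs => by obtain rfl | hs := hs.eq_or_lt; exacts [a2, G'.step s hs])
  exact absurd (P.faith' G' (G'.mem le_rfl) ((eventually_ge_atTop 2).mono fun t ht => by
    simpa [H1 K c hc t ht, add_comm t] using hc' 2 t (by omega) (by omega))) (G'.ne 2 le_rfl)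

omit [CharZero K] in
/-- In the extremal case no structure constant vanishes. -/
lemma Fil.ne_zero (h : Lim K L) (P : Fil F) (G : Good x F E 3) (h1 : cod (F 3) ≤ 1) {s t : ℕ}
    (hs : 3 ≤ s) (ht : s < t) : ⁅E s, E t⁆ ∉ F (s + t + 1) := fun h2 => by
  have hf := fun n => h.fin_opn ((opn_gam n).mono (P.gam_le n))
  have h3 : ∀ j, 3 ≤ j → cod (F j) + 2 = j := fun j hj => by
    have a1 := G.cod_add hf le_rfl (j - 3)
    have a2 := P.bud 3
    rw [show 3 + (j - 3) = j by omega] at a1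
    omega
  obtain ⟨u, hu, hu'⟩ := h.bud (s + s + t + 4) (F s) ((P.gam_le _).trans (P.anti (by omega)))
  have := h.fin_opn ((opn_gam (s + s + t + 4)).mono (le_sup_right (a := im K u)))
  have h4 : ∀ j, j ≤ s + t + 3 → 3 ≤ j → u ∉ F j → ¬ ∀ v ∈ F j, ⁅u, v⁆ ∈ F (s + j + 1) :=
    fun j a1 a2 a3 a4 => by
      have b1 := cod_lt_of_lie a4 a3
      have b2 := cod_anti (sup_le_sup_left ((P.gam_le (s + s + t + 4)).trans
        (P.anti (show s + j + 1 ≤ _ by omega))) (im K u))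
      have b3 := h3 s hs
      have b4 := h3 j a2
      have b5 := h3 (s + j + 1) (by omega)
      omega
  have h5 : u ∉ F (s + 1) := fun a1 => h4 (s + 3) (by omega) (by omega) (fun a2 => by
    have b1 := cod_anti (U := im K u ⊔ gam K L (s + s + t + 4)) (V := F (s + 3 + 1))
      (sup_le (by rintro _ ⟨w, rfl⟩; exact P.lie a2 (P.one.ge trivial))
        ((P.gam_le _).trans (P.anti (by omega))))
    have b3 := h3 s hs
    have b4 := h3 (s + 3 + 1) (by omega)
    omega) fun v hv => P.anti (by omega) (P.lie a1 hv)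
  refine h4 t (by omega) (by omega) (fun a => h5 (P.anti ht a)) fun v hv => ?_
  obtain ⟨a, ha⟩ := G.coeff hs hu
  obtain ⟨b, hb⟩ := G.coeff (hs.trans ht.le) hv
  simpa using P.lead_left (f := 0) ha hv
    (P.lead_right (f := 0) (b := 0) hb (G.mem hs) (by simpa using h2))

omit [CharZero K] in
lemma Fil.pureFil (P : Fil F) (G : Good x F E q) (hq : q = 2 ∨ q = 3) (h1 : F 2 = F q)
    (h2 : (K ∙ x) ⊔ F 2 = ⊤) {c : ℕ → ℕ → K} (hc : IsWitt q c)
    (hc' : ∀ s t, q ≤ s → q ≤ t → ⁅E s, E t⁆ - c s t • E (s + t) ∈ F (s + t + 1)) (R : ℕ) :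
    Nonempty (PureFil K L q R) := by
  obtain ⟨β, b1, b2, b3⟩ := hc
  have h3 : ∀ i, inS q i → i = 1 ∨ (i ≠ 1 ∧ q ≤ i) := fun i hi => by unfold inS at hi; omega
  have h4 : ∀ j, q ≤ j → ⁅x, β j • E j⁆ = ((j : K) - 1) • β (j + 1) • E (j + 1) := fun j hj => by
    rw [lie_smul, G.step j hj, b2 j hj, mul_smul]
  refine ⟨⟨F, fun i => if i = 1 then x else β i • E i, P.one, P.anti, fun i j _ a ha b hb => P.lie ha hb,
    fun i a1 a2 => ?_, fun i _ a2 => ?_, fun i _ a2 => ?_, fun i j a1 a2 _ => ?_⟩⟩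
  · obtain ⟨rfl, rfl⟩ : q = 3 ∧ i = 2 := by unfold inS at a2; omega
    exact h1
  · obtain rfl | ⟨a3, a4⟩ := h3 i a2
    · exact P.one.trans h2.symm
    · rw [if_neg a3, span_singleton_smul_eq (IsUnit.mk0 _ (b1 i)), G.span i a4]
  · obtain rfl | ⟨a3, a4⟩ := h3 i a2
    · exact fun h => G.ne (q + 1) q.le_succ
        (G.step q le_rfl ▸ add_comm 2 q ▸ P.lie h (G.mem le_rfl))
    · rw [if_neg a3, smul_mem_iff _ (b1 i)]
      exact G.ne i a4
  · obtain rfl | ⟨a3, a4⟩ := h3 i a1 <;> obtain rfl | ⟨a5, a6⟩ := h3 j a2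
    · simp
    · simp [a5, h4 j a6, add_comm 1 j, show j ≠ 0 by omega]
    · rw [if_neg a3, if_pos rfl, if_neg (by omega), ← lie_skew, h4 i a4, ← neg_smul]
      simp
    · rw [if_neg a3, if_neg a5, if_neg (by omega), ← mul_smul, ← b3 i j a4 a6, smul_lie, lie_smul]
      simpa only [smul_sub, mul_smul] using smul_mem _ (β i * β j) (hc' i j a4 a6)

theorem rank1Stmt_of (HP : PStmt) (H1 : Q1Stmt) (H2 : Q2Stmt) (H3 : Q3Stmt) : Rank1Stmt := by
  intro K L _ _ _ _ _ _ _ x a b k h H hb R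
  obtain ⟨e, n, G⟩ := h.exists_good H hb
  obtain ⟨F, E, q, P, G⟩ := h.exists_fil G
  obtain ⟨E, q, h1, G, h2, h3⟩ := P.shape HP H1 G
  have hf := fun n => h.fin_opn ((opn_gam n).mono (P.gam_le n))
  have h4 := cod_le_sup_span (F 2) x
  rw [sup_comm, h3, cod_top, h2] at h4
  have h5 := P.bud q
  obtain ⟨c, hc, hc'⟩ := P.exists_cst G (Nat.le_add_right q q) (fun _ => G.mem) G.step
  have hq : q = 2 ∨ q = 3 := by omega
  refine ⟨q, by omega, P.pureFil G hq h2 h3 ?_ hc' R⟩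
  obtain rfl | rfl := hq
  · refine H2 K c hc (by_contra fun hn => G.ne 3 (by omega) (P.faith' G (G.mem (by omega))
      ((eventually_ge_atTop 3).mono fun t ht => ?_)))
    simpa [not_not.1 fun e => hn ⟨t, ht, e⟩, add_comm t] using hc' 3 t (by omega) (by omega)
  · exact H3 K c hc fun s t hs ht e => P.ne_zero h G h4 hs ht
      (by simpa [e] using hc' s t hs (by omega))

end Pool.Agent.P78
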