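import Pool.Agent.Lib.MP_78c6b1_al.Lim.R1Defs

/-! Type `q = 3`: if all structure constants off the diagonal are nonzero, they are those of the
Witt algebra. -/

namespace Pool.Agent.P78

namespace Q3

variable {K : Type} [Field K] [CharZero K]

theorem alg1 (x y z u v : K) (hx : x ≠ 0) (hz : z ≠ 0)
    (e12 : -3*y + 4*x^2 - 3*x*y = 0)
    (e14 : -3*z + 5*x*y + 2*x*z - 10*y^2 + 4*y*z = 0)
    (e15 : -4*x*z + 2*x*u + 5*y^2 - 6*y*z + y*u = 0)
    (e16 : -3*u + 6*x*z + 5*x*u - 21*y*z + 20*z^2 - 5*z*u = 0)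
    (e17 : -4*x*u + 2*x*v + 6*y*z + 3*y*u - y*v - 15*z^2 + 10*z*u - z*v = 0)
    (e18 : -5*y*u + 5*y*v + 6*z^2 - 10*z*u + 4*z*v = 0) : 7 * x = 1 := by
  grind

theorem alg2 (a x y z u v : K) (ha : a ≠ 0) (hx : x ≠ 0) (hz : z ≠ 0)
    (e12 : -3*a*y + 4*x^2 - 3*x*y = 0)
    (e14 : -3*a*z + 5*x*y + 2*x*z - 10*y^2 + 4*y*z = 0)
    (e15 : -4*x*z + 2*x*u + 5*y^2 - 6*y*z + y*u = 0)
    (e16 : -3*a*u + 6*x*z + 5*x*u - 21*y*z + 20*z^2 - 5*z*u = 0)
    (e17 : -4*x*u + 2*x*v + 6*y*z + 3*y*u - y*v - 15*z^2 + 10*z*u - z*v = 0)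
    (e18 : -5*y*u + 5*y*v + 6*z^2 - 10*z*u + 4*z*v = 0) :
    x = a / 7 ∧ y = a / 42 ∧ z = a / 231 := by
  have h := alg1 (x / a) (y / a) (z / a) (u / a) (v / a) (div_ne_zero hx ha) (div_ne_zero hz ha)
    (by field_simp; linear_combination e12) (by field_simp; linear_combination e14)
    (by field_simp; linear_combination e15) (by field_simp; linear_combination e16)
    (by field_simp; linear_combination e17) (by field_simp; linear_combination e18)
  have h1 : x = a / 7 := by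
    field_simp at h ⊢
    linear_combination h
  have h2 : y = a / 42 := by
    apply mul_left_cancel₀ ha
    rw [h1] at e12
    linear_combination (-7 / 24 : K) * e12
  refine ⟨h1, h2, ?_⟩
  apply mul_left_cancel₀ ha
  rw [h1, h2] at e14
  linear_combination (-21 / 55 : K) * e14

variable {c : ℕ → ℕ → K}

theorem diag (h : Cst 3 c) (s : ℕ) (hs : 3 ≤ s) : c s s = 0 := by
  have := h.anti s s hs hs
  linear_combination (1 / 2 : K) * this

omit [CharZero K] in
theorem right (h : Cst 3 c) (s t : ℕ) (hs : 3 ≤ s) (ht : 3 ≤ t) :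
    c s (t + 1) = c s t - c (s + 1) t := by
  have := h.der s t hs ht
  linear_combination -this

omit [CharZero K] in
theorem left (h : Cst 3 c) (s t : ℕ) (hs : 3 ≤ s) (ht : 3 ≤ t) :
    c (s + 1) t = c s t - c s (t + 1) := by
  have := h.der s t hs ht
  linear_combination -this

theorem d2 (h : Cst 3 c) (s : ℕ) (hs : 3 ≤ s) : c s (s + 2) = c s (s + 1) := by
  have h1 := right h s (s + 1) hs (by omega)
  have h2 := diag h (s + 1) (by omega)
  linear_combination h1 - h2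

theorem d3 (h : Cst 3 c) (s : ℕ) (hs : 3 ≤ s) :
    c s (s + 3) = c s (s + 1) - c (s + 1) (s + 2) := by
  have h1 := right h s (s + 2) hs (by omega)
  have h2 := d2 h s hs
  linear_combination h1 + h2

theorem d4 (h : Cst 3 c) (s : ℕ) (hs : 3 ≤ s) :
    c s (s + 4) = c s (s + 1) - 2 * c (s + 1) (s + 2) := by
  have h1 := right h s (s + 3) hs (by omega)
  have h2 := d3 h s hs
  have h3 : c (s + 1) (s + 3) = _ := d2 h (s + 1) (by omega)
  linear_combination h1 + h2 - h3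

theorem d5 (h : Cst 3 c) (s : ℕ) (hs : 3 ≤ s) :
    c s (s + 5) = c s (s + 1) - 3 * c (s + 1) (s + 2) + c (s + 2) (s + 3) := by
  have h1 := right h s (s + 4) hs (by omega)
  have h2 := d4 h s hs
  have h3 : c (s + 1) (s + 4) = _ := d3 h (s + 1) (by omega)
  linear_combination h1 + h2 - h3

theorem d6 (h : Cst 3 c) (s : ℕ) (hs : 3 ≤ s) :
    c s (s + 6) = c s (s + 1) - 4 * c (s + 1) (s + 2) + 3 * c (s + 2) (s + 3) := by
  have h1 := right h s (s + 5) hs (by omega)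
  have h2 := d5 h s hs
  have h3 : c (s + 1) (s + 5) = _ := d4 h (s + 1) (by omega)
  linear_combination h1 + h2 - h3

theorem d7 (h : Cst 3 c) (s : ℕ) (hs : 3 ≤ s) :
    c s (s + 7) = c s (s + 1) - 5 * c (s + 1) (s + 2) + 6 * c (s + 2) (s + 3)
      - c (s + 3) (s + 4) := by
  have h1 := right h s (s + 6) hs (by omega)
  have h2 := d6 h s hs
  have h3 : c (s + 1) (s + 6) = _ := d5 h (s + 1) (by omega)
  linear_combination h1 + h2 - h3

theorem d8 (h : Cst 3 c) (s : ℕ) (hs : 3 ≤ s) :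
    c s (s + 8) = c s (s + 1) - 6 * c (s + 1) (s + 2) + 10 * c (s + 2) (s + 3)
      - 4 * c (s + 3) (s + 4) := by
  have h1 := right h s (s + 7) hs (by omega)
  have h2 := d7 h s hs
  have h3 : c (s + 1) (s + 7) = _ := d6 h (s + 1) (by omega)
  linear_combination h1 + h2 - h3

theorem d9 (h : Cst 3 c) (s : ℕ) (hs : 3 ≤ s) :
    c s (s + 9) = c s (s + 1) - 7 * c (s + 1) (s + 2) + 15 * c (s + 2) (s + 3)
      - 10 * c (s + 3) (s + 4) + c (s + 4) (s + 5) := by
  have h1 := right h s (s + 8) hs (by omega)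
  have h2 := d8 h s hs
  have h3 : c (s + 1) (s + 8) = _ := d7 h (s + 1) (by omega)
  linear_combination h1 + h2 - h3

theorem d10 (h : Cst 3 c) (s : ℕ) (hs : 3 ≤ s) :
    c s (s + 10) = c s (s + 1) - 8 * c (s + 1) (s + 2) + 21 * c (s + 2) (s + 3)
      - 20 * c (s + 3) (s + 4) + 5 * c (s + 4) (s + 5) := by
  have h1 := right h s (s + 9) hs (by omega)
  have h2 := d9 h s hs
  have h3 : c (s + 1) (s + 9) = _ := d8 h (s + 1) (by omega)
  linear_combination h1 + h2 - h3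

theorem low (h : Cst 3 c) (hn : ∀ s t, 3 ≤ s → s < t → c s t ≠ 0) :
    c 4 5 = c 3 4 / 7 ∧ c 5 6 = c 3 4 / 42 ∧ c 6 7 = c 3 4 / 231 := by
  have n3 : (3 : ℕ) ≤ 3 := by norm_num
  have n4 : (3 : ℕ) ≤ 4 := by norm_num
  have n5 : (3 : ℕ) ≤ 5 := by norm_num
  have n6 : (3 : ℕ) ≤ 6 := by norm_num
  have n7 : (3 : ℕ) ≤ 7 := by norm_num
  refine alg2 (c 3 4) (c 4 5) (c 5 6) (c 6 7) (c 7 8) (c 8 9) (hn 3 4 n3 (by norm_num))
    (hn 4 5 n4 (by norm_num)) (hn 6 7 n6 (by norm_num)) ?_ ?_ ?_ ?_ ?_ ?_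
  · have j : c 3 4 * c 7 5 = c 4 5 * c 3 9 - c 3 5 * c 4 8 := h.jac 3 4 5 n3 n4 n5
    have a1 : c 7 5 = - c 5 7 := h.anti 5 7 n5 n7
    have b1 : c 5 7 = c 5 6 := d2 h 5 n5
    have b2 : c 3 9 = c 3 4 - 4 * c 4 5 + 3 * c 5 6 := d6 h 3 n3
    have b3 : c 3 5 = c 3 4 := d2 h 3 n3
    have b4 : c 4 8 = c 4 5 - 2 * c 5 6 := d4 h 4 n4
    rw [a1, b1, b2, b3, b4] at j
    linear_combination j
  · have j : c 3 5 * c 8 6 = c 5 6 * c 3 11 - c 3 6 * c 5 9 := h.jac 3 5 6 n3 n5 n6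
    have a1 : c 8 6 = - c 6 8 := h.anti 6 8 n6 (by norm_num)
    have b1 : c 6 8 = c 6 7 := d2 h 6 n6
    have b2 : c 3 11 = c 3 4 - 6 * c 4 5 + 10 * c 5 6 - 4 * c 6 7 := d8 h 3 n3
    have b3 : c 3 5 = c 3 4 := d2 h 3 n3
    have b4 : c 3 6 = c 3 4 - c 4 5 := d3 h 3 n3
    have b5 : c 5 9 = c 5 6 - 2 * c 6 7 := d4 h 5 n5
    rw [a1, b1, b2, b3, b4, b5] at j
    linear_combination j
  · have j : c 4 5 * c 9 6 = c 5 6 * c 4 11 - c 4 6 * c 5 10 := h.jac 4 5 6 n4 n5 n6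
    have a1 : c 9 6 = - c 6 9 := h.anti 6 9 n6 (by norm_num)
    have b1 : c 6 9 = c 6 7 - c 7 8 := d3 h 6 n6
    have b2 : c 4 11 = c 4 5 - 5 * c 5 6 + 6 * c 6 7 - c 7 8 := d7 h 4 n4
    have b3 : c 4 6 = c 4 5 := d2 h 4 n4
    have b4 : c 5 10 = c 5 6 - 3 * c 6 7 + c 7 8 := d5 h 5 n5
    rw [a1, b1, b2, b3, b4] at j
    linear_combination j
  · have j : c 3 6 * c 9 7 = c 6 7 * c 3 13 - c 3 7 * c 6 10 := h.jac 3 6 7 n3 n6 n7
    have a1 : c 9 7 = - c 7 9 := h.anti 7 9 n7 (by norm_num)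
    have b1 : c 7 9 = c 7 8 := d2 h 7 n7
    have b2 : c 3 13 = c 3 4 - 8 * c 4 5 + 21 * c 5 6 - 20 * c 6 7 + 5 * c 7 8 := d10 h 3 n3
    have b3 : c 3 6 = c 3 4 - c 4 5 := d3 h 3 n3
    have b4 : c 3 7 = c 3 4 - 2 * c 4 5 := d4 h 3 n3
    have b5 : c 6 10 = c 6 7 - 2 * c 7 8 := d4 h 6 n6
    rw [a1, b1, b2, b3, b4, b5] at j
    linear_combination j
  · have j : c 4 6 * c 10 7 = c 6 7 * c 4 13 - c 4 7 * c 6 11 := h.jac 4 6 7 n4 n6 n7
    have a1 : c 10 7 = - c 7 10 := h.anti 7 10 n7 (by norm_num)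
    have b1 : c 7 10 = c 7 8 - c 8 9 := d3 h 7 n7
    have b2 : c 4 13 = c 4 5 - 7 * c 5 6 + 15 * c 6 7 - 10 * c 7 8 + c 8 9 := d9 h 4 n4
    have b3 : c 4 6 = c 4 5 := d2 h 4 n4
    have b4 : c 4 7 = c 4 5 - c 5 6 := d3 h 4 n4
    have b5 : c 6 11 = c 6 7 - 3 * c 7 8 + c 8 9 := d5 h 6 n6
    rw [a1, b1, b2, b3, b4, b5] at j
    linear_combination j
  · have j : c 5 6 * c 11 7 = c 6 7 * c 5 13 - c 5 7 * c 6 12 := h.jac 5 6 7 n5 n6 n7
    have a1 : c 11 7 = - c 7 11 := h.anti 7 11 n7 (by norm_num)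
    have b1 : c 7 11 = c 7 8 - 2 * c 8 9 := d4 h 7 n7
    have b2 : c 5 13 = c 5 6 - 6 * c 6 7 + 10 * c 7 8 - 4 * c 8 9 := d8 h 5 n5
    have b3 : c 5 7 = c 5 6 := d2 h 5 n5
    have b4 : c 6 12 = c 6 7 - 4 * c 7 8 + 3 * c 8 9 := d6 h 6 n6
    rw [a1, b1, b2, b3, b4] at j
    linear_combination j

theorem step (l T a0 a1 a2 a3 a4 : K) (hl : l ≠ 0)
    (t1 : T - 1 ≠ 0) (t0 : T ≠ 0) (p1 : T + 1 ≠ 0) (p2 : T + 2 ≠ 0) (p3 : T + 3 ≠ 0)
    (p4 : T + 4 ≠ 0) (p5 : T + 5 ≠ 0) (m4 : T - 4 ≠ 0) (m6 : T - 6 ≠ 0) (p7 : T + 7 ≠ 0)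
    (h0 : a0 * ((T - 1) * T * (T + 1)) = 60 * l * (T - 3))
    (h1 : a1 * (T * (T + 1) * (T + 2)) = 60 * l * (T - 2))
    (h2 : a2 * ((T + 1) * (T + 2) * (T + 3)) = 60 * l * (T - 1))
    (h3 : a3 * ((T + 2) * (T + 3) * (T + 4)) = 60 * l * T)
    (j : l * (a0 - 4 * a1 + 6 * a2 - 4 * a3 + a4) = (a0 - a1) * a4 - a0 * (a3 - a4)) :
    a4 * ((T + 3) * (T + 4) * (T + 5)) = 60 * l * (T + 1) := by
  have e0 : a0 = 60 * l * (T - 3) / ((T - 1) * T * (T + 1)) := by
    field_simp; linear_combination h0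
  have e1 : a1 = 60 * l * (T - 2) / (T * (T + 1) * (T + 2)) := by
    field_simp; linear_combination h1
  have e2 : a2 = 60 * l * (T - 1) / ((T + 1) * (T + 2) * (T + 3)) := by
    field_simp; linear_combination h2
  have e3 : a3 = 60 * l * T / ((T + 2) * (T + 3) * (T + 4)) := by
    field_simp; linear_combination h3
  have hco : l - 2 * a0 + a1 =
      l * ((T - 4) * (T + 5) * (T - 6) * (T + 7)) / ((T - 1) * T * (T + 1) * (T + 2)) := by
    rw [e0, e1]; field_simp; ring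
  have hne : l - 2 * a0 + a1 ≠ 0 := by
    rw [hco]; positivity
  have key : (l - 2 * a0 + a1) * a4 = - l * (a0 - 4 * a1 + 6 * a2 - 4 * a3) - a0 * a3 := by
    linear_combination j
  have key2 : (l - 2 * a0 + a1) * (60 * l * (T + 1) / ((T + 3) * (T + 4) * (T + 5)))
      = - l * (a0 - 4 * a1 + 6 * a2 - 4 * a3) - a0 * a3 := by
    rw [e0, e1, e2, e3]; field_simp; ring
  have e4 := mul_left_cancel₀ hne (key.trans key2.symm)
  rw [e4]; field_simp

theorem jac34 (h : Cst 3 c) (t : ℕ) (ht : 3 ≤ t) :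
    c 3 4 * (c 3 t - 4 * c 3 (t + 1) + 6 * c 3 (t + 2) - 4 * c 3 (t + 3) + c 3 (t + 4))
      = (c 3 t - c 3 (t + 1)) * c 3 (t + 4) - c 3 t * (c 3 (t + 3) - c 3 (t + 4)) := by
  have j : c 3 4 * c 7 t = c 4 t * c 3 (4 + t) - c 3 t * c 4 (3 + t) :=
    h.jac 3 4 t (by norm_num) (by norm_num) ht
  rw [add_comm 4 t, add_comm 3 t] at j
  have f4 : ∀ r, 3 ≤ r → c 4 r = c 3 r - c 3 (r + 1) := fun r hr => left h 3 r le_rfl hr
  have f5 : ∀ r, 3 ≤ r → c 5 r = c 3 r - 2 * c 3 (r + 1) + c 3 (r + 2) := fun r hr => by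
    have a1 : c 5 r = c 4 r - c 4 (r + 1) := left h 4 r (by norm_num) hr
    have a2 := f4 r hr
    have a3 : c 4 (r + 1) = c 3 (r + 1) - c 3 (r + 2) := f4 (r + 1) (by omega)
    linear_combination a1 + a2 - a3
  have f6 : ∀ r, 3 ≤ r →
      c 6 r = c 3 r - 3 * c 3 (r + 1) + 3 * c 3 (r + 2) - c 3 (r + 3) := fun r hr => by
    have a1 : c 6 r = c 5 r - c 5 (r + 1) := left h 5 r (by norm_num) hr
    have a2 := f5 r hr
    have a3 : c 5 (r + 1) = c 3 (r + 1) - 2 * c 3 (r + 2) + c 3 (r + 3) := f5 (r + 1) (by omega)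
    linear_combination a1 + a2 - a3
  have f7 : c 7 t = c 3 t - 4 * c 3 (t + 1) + 6 * c 3 (t + 2) - 4 * c 3 (t + 3) + c 3 (t + 4) := by
    have a1 : c 7 t = c 6 t - c 6 (t + 1) := left h 6 t (by norm_num) ht
    have a2 := f6 t ht
    have a3 : c 6 (t + 1) = c 3 (t + 1) - 3 * c 3 (t + 2) + 3 * c 3 (t + 3) - c 3 (t + 4) :=
      f6 (t + 1) (by omega)
    linear_combination a1 + a2 - a3
  have g : c 4 (t + 3) = c 3 (t + 3) - c 3 (t + 4) := f4 (t + 3) (by omega)
  rw [f7, f4 t ht, g] at j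
  exact j

theorem row3 (h : Cst 3 c) (hn : ∀ s t, 3 ≤ s → s < t → c s t ≠ 0) (t : ℕ) (ht : 3 ≤ t) :
    c 3 t * (((t : K) - 1) * t * (t + 1)) = 60 * c 3 4 * (t - 3) := by
  obtain ⟨l4, l5, l6⟩ := low h hn
  have n3 : (3 : ℕ) ≤ 3 := le_rfl
  have hl := hn 3 4 n3 (by norm_num)
  induction t using Nat.strong_induction_on with
  | _ t ih =>
  by_cases hs : t ≤ 10
  · have b3 := diag h 3 n3
    have b5 : c 3 5 = c 3 4 := d2 h 3 n3
    have b6 : c 3 6 = c 3 4 - c 4 5 := d3 h 3 n3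
    have b7 : c 3 7 = c 3 4 - 2 * c 4 5 := d4 h 3 n3
    have b8 : c 3 8 = c 3 4 - 3 * c 4 5 + c 5 6 := d5 h 3 n3
    have b9 : c 3 9 = c 3 4 - 4 * c 4 5 + 3 * c 5 6 := d6 h 3 n3
    have b10 : c 3 10 = c 3 4 - 5 * c 4 5 + 6 * c 5 6 - c 6 7 := d7 h 3 n3
    rw [l4] at b6 b7 b8 b9 b10
    rw [l5] at b8 b9 b10
    rw [l6] at b10
    interval_cases t
    · rw [b3]; push_cast; ring
    · push_cast; ring
    · rw [b5]; push_cast; ring
    · rw [b6]; push_cast; ring
    · rw [b7]; push_cast; ring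
    · rw [b8]; push_cast; ring
    · rw [b9]; push_cast; ring
    · rw [b10]; push_cast; ring
  · obtain ⟨n, rfl⟩ : ∃ n, t = n + 7 + 4 := ⟨t - 11, by omega⟩
    have i0 := ih (n + 7) (by omega) (by omega)
    have i1 := ih (n + 7 + 1) (by omega) (by omega)
    have i2 := ih (n + 7 + 2) (by omega) (by omega)
    have i3 := ih (n + 7 + 3) (by omega) (by omega)
    have nz : ∀ k : ℕ, (n : K) + (k + 1 : ℕ) ≠ 0 := fun k => by
      have : ((n + (k + 1) : ℕ) : K) ≠ 0 := Nat.cast_ne_zero.mpr (by omega)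
      simpa using this
    have s := step (c 3 4) ((n : K) + 7) _ _ _ _ _ hl
      (by have := nz 5; push_cast at this; intro e; apply this; linear_combination e)
      (by have := nz 6; push_cast at this; intro e; apply this; linear_combination e)
      (by have := nz 7; push_cast at this; intro e; apply this; linear_combination e)
      (by have := nz 8; push_cast at this; intro e; apply this; linear_combination e)
      (by have := nz 9; push_cast at this; intro e; apply this; linear_combination e)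
      (by have := nz 10; push_cast at this; intro e; apply this; linear_combination e)
      (by have := nz 11; push_cast at this; intro e; apply this; linear_combination e)
      (by have := nz 2; push_cast at this; intro e; apply this; linear_combination e)
      (by have := nz 0; push_cast at this; intro e; apply this; linear_combination e)
      (by have := nz 13; push_cast at this; intro e; apply this; linear_combination e)
      (by push_cast at i0; linear_combination i0)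
      (by push_cast at i1; linear_combination i1)
      (by push_cast at i2; linear_combination i2)
      (by push_cast at i3; linear_combination i3)
      (jac34 h (n + 7) (by omega))
    push_cast
    linear_combination s

end Q3

open Q3 in
theorem q3Stmt : Q3Stmt := by
  intro K _ _ c h hn
  have hl := hn 3 4 le_rfl (by norm_num)
  let β : ℕ → K := fun s => 1 / (60 * c 3 4 * ((s - 2).factorial : K))
  have hβ : ∀ s, β s ≠ 0 := fun s => by
    have : ((s - 2).factorial : K) ≠ 0 := Nat.cast_ne_zero.mpr (Nat.factorial_ne_zero _)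
    exact one_div_ne_zero (mul_ne_zero (mul_ne_zero (by norm_num) hl) this)
  have hrec : ∀ s, 3 ≤ s → β s = ((s : K) - 1) * β (s + 1) := fun s hs => by
    obtain ⟨m, rfl⟩ : ∃ m, s = m + 2 := ⟨s - 2, by omega⟩
    have h1 : m + 2 + 1 - 2 = m + 1 := by omega
    have h2 : m + 2 - 2 = m := by omega
    have h3 : (m.factorial : K) ≠ 0 := Nat.cast_ne_zero.mpr (Nat.factorial_ne_zero _)
    have h4 : (m : K) + 1 ≠ 0 := by exact_mod_cast Nat.succ_ne_zero m
    simp only [β, h1, h2, Nat.factorial_succ]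
    push_cast
    field_simp
    ring
  refine ⟨β, hβ, hrec, ?_⟩
  intro s t hs
  induction s, hs using Nat.le_induction generalizing t with
  | base =>
    intro ht
    have r := row3 h hn t ht
    have e1 := hrec t ht
    have e2 := hrec (t + 1) (by omega)
    have e3 := hrec (t + 1 + 1) (by omega)
    have e4 : β 3 * (60 * c 3 4) = 1 := by
      simp only [β]
      norm_num
      field_simp
    have e5 : 3 + t = t + 1 + 1 + 1 := by omega
    rw [e5, e1, e2, e3]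
    push_cast
    linear_combination β 3 * β (t + 1 + 1 + 1) * r + ((t : K) - 3) * β (t + 1 + 1 + 1) * e4
  | succ s hs ih =>
    intro ht
    have i0 := ih t ht
    have i1 := ih (t + 1) (by omega)
    have e1 := hrec s hs
    have e2 := hrec t ht
    have e3 := hrec (s + t) (by omega)
    have e4 := left h s t hs ht
    have e5 : s + 1 + t = s + t + 1 := by omega
    have e6 : s + (t + 1) = s + t + 1 := by omega
    have hs1 : (s : K) - 1 ≠ 0 := by
      obtain ⟨m, rfl⟩ : ∃ m, s = m + 2 := ⟨s - 2, by omega⟩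
      have h4 : (m : K) + 1 ≠ 0 := by exact_mod_cast Nat.succ_ne_zero m
      push_cast
      intro e; apply h4; linear_combination e
    rw [e6] at i1
    rw [e5, e4]
    apply mul_left_cancel₀ hs1
    rw [e3] at i0
    rw [e1] at i0 i1
    rw [e2] at i0 ⊢
    push_cast at i0 i1 ⊢
    linear_combination i0 - ((t : K) - 1) * i1

end Pool.Agent.P78
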