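import Pool.Agent.Lib.MP_78c6b1_al.Lim.Rank1
import Pool.Agent.Lib.MP_78c6b1_al.U1.Stmt

/-! The three blocks of the rank two classification. -/

namespace Pool.Agent.P78

open PowerSeries

section

variable (K : Type) {L : Type} [Field K] [LieRing L] [LieAlgebra K L]

/-- Some `ad x` chain never drops in the lower central series. -/
def Chain (x : L) : Prop :=
  ∃ n, ∃ v ∈ gam K L n, ∀ m, (LieAlgebra.ad K L x ^ m) v ∉ gam K L (n + m + 1)

/-- The lower central series is eventually `ad x`-adic. -/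
def Adic (x : L) : Prop := ∃ n₀, ∀ n, n₀ ≤ n → ∀ v ∈ gam K L (n + 1), ∃ w ∈ gam K L n, ⁅x, w⁆ = v

/-- The hypotheses of the rank two case. -/
structure R2 [Module K⟦X⟧ L] (x a b : L) : Prop where
  lim : Lim K L
  gen : Gen K x
  tgen : TGen K x a b
  free : ∀ (c : K) (f g : K⟦X⟧), c • x + f • a + g • b = 0 → c = 0 ∧ f = 0 ∧ g = 0
  ji : ∀ N : Submodule K⟦X⟧ L, (∀ u : L, ∀ v ∈ N, ⁅u, v⁆ ∈ N) → N ≠ ⊥ →
    ∃ n, ∀ v ∈ gam K L n, v ∈ N

end

/-- Infinite backtracking is impossible. -/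
def U2Stmt : Prop :=
  ∀ (K L : Type) [Field K] [CharZero K] [Uncountable K] [LieRing L] [LieAlgebra K L]
    [Module K⟦X⟧ L] [IsScalarTower K K⟦X⟧ L] (x a b : L), R2 K x a b → Chain K x

/-- The adic case. -/
def AStmt : Prop :=
  ∀ (K L : Type) [Field K] [CharZero K] [Uncountable K] [LieRing L] [LieAlgebra K L]
    [Module K⟦X⟧ L] [IsScalarTower K K⟦X⟧ L] (x a b : L), R2 K x a b → Adic K x → Concl K L

theorem classStmt_of_blocks (h2 : U2Stmt) (h1 : U1Stmt) (hA : AStmt) : ClassStmt :=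
  classStmt_of_rank2 fun K L _ _ _ _ _ _ _ x a b a1 a2 a3 a4 a5 =>
    have h : R2 K x a b := ⟨a1, a2, a3, a4, a5⟩
    hA K L x a b h (by_contra fun hn => h1 K L x a b a1 a3 a4 a5 (h2 K L x a b h) fun N => by
      by_contra! h3
      exact hn ⟨N, fun n hn v hv => (h3 n hn v hv).imp fun w hw => ⟨hw.1, hw.2.symm⟩⟩)

end Pool.Agent.P78
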