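import Pool.Agent.Lib.MP_78c6b1_al.Lim.TMod

/-! Quotients of the limit object, and the reduction to rank one and rank two. -/

namespace Pool.Agent.P78

open Module Submodule Finset PowerSeries

variable {K L L' : Type} [Field K] [LieRing L] [LieAlgebra K L] [LieRing L'] [LieAlgebra K L']

lemma gam_map (π : L →ₗ⁅K⁆ L') (hπ : Function.Surjective π) (n : ℕ) :
    gam K L' n = (gam K L n).map π.toLinearMap := by
  induction n using Nat.twoStepInduction with
  | zero => simp [LinearMap.range_eq_top.2 hπ]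
  | one => simp [LinearMap.range_eq_top.2 hπ]
  | more n _ ih =>
    refine le_antisymm (gam_succ_le.2 fun u v hv => ?_) (map_le_iff_le_comap.2
      (gam_succ_le.2 fun u v hv => ?_))
    · obtain ⟨u, rfl⟩ := hπ u
      obtain ⟨v, hv', rfl⟩ := ih.le hv
      exact ⟨_, lie_mem_gam_succ u hv', π.map_lie u v⟩
    · simpa using lie_mem_gam_succ (π u) (ih.ge ⟨v, hv, rfl⟩)

lemma cod_map_le (π : L →ₗ[K] L') (hπ : Function.Surjective π) (W : Submodule K L)
    [FiniteDimensional K (L ⧸ W)] :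
    FiniteDimensional K (L' ⧸ W.map π) ∧ cod (W.map π) ≤ cod W := by
  have : Function.Surjective (W.mapQ (W.map π) π (le_comap_map _ _)) := fun v => by
    obtain ⟨v, rfl⟩ := (W.map π).mkQ_surjective v
    obtain ⟨v, rfl⟩ := hπ v
    exact ⟨W.mkQ v, rfl⟩
  exact ⟨Module.Finite.of_surjective _ this, LinearMap.finrank_le_finrank_of_surjective this⟩

lemma cod_comap_le (π : L →ₗ[K] L') (W : Submodule K L') [FiniteDimensional K (L' ⧸ W)] :
    cod (W.comap π) ≤ cod W :=
  LinearMap.finrank_le_finrank_of_injective (f := (W.comap π).mapQ W π le_rfl)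
    (LinearMap.ker_eq_bot.1 (ker_liftQ_eq_bot _ _ _ (by rw [LinearMap.ker_comp, ker_mkQ])))

lemma Lim.of_surjective (h : Lim K L) (π : L →ₗ⁅K⁆ L') (hπ : Function.Surjective π)
    (hc : ∀ v, (∀ n, ∃ u, π u = 0 ∧ v - u ∈ gam K L n) → π v = 0)
    (hn : ∀ n, ∃ v ∈ gam K L n, π v ≠ 0) : Lim K L' := by
  have hf := h.fin
  have hm := gam_map π hπ
  have h1 : ∀ n, FiniteDimensional K (L' ⧸ gam K L' n) := fun n =>
    hm n ▸ (cod_map_le π.toLinearMap hπ _).1
  have h2 : ∀ v : L', (∀ n, v ∈ gam K L' n) → v = 0 := fun v hv => by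
    obtain ⟨v, rfl⟩ := hπ v
    refine hc v fun n => ?_
    obtain ⟨g, hg, e⟩ := (hm n).le (hv n)
    exact ⟨v - g, by rw [map_sub, ← e]; exact sub_self _, by simpa⟩
  refine ⟨h1, fun n hle => ?_, h2, fun f hf => ?_, fun n U hU => ?_⟩
  · obtain ⟨v, hv, hv'⟩ := hn (n + 1)
    have : ∀ m, gam K L' (n + 1) ≤ gam K L' (n + 1 + m) := fun m => by
      induction m with
      | zero => rfl
      | succ m ih =>
        exact hle.trans (gam_succ_le.2 fun u v hv => lie_mem_gam_succ u (ih hv))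
    exact hv' (h2 _ fun m => gam_anti (Nat.le_add_left _ _) (this m ((hm _).ge ⟨v, hv, rfl⟩)))
  · choose d hd hd' using fun n => (hm n).le (hf n)
    obtain ⟨v₀, hv₀⟩ := hπ (f 0)
    obtain ⟨v, hv⟩ := h.lim (fun n => v₀ + ∑ i ∈ range n, d i) fun n => by
      simpa [sum_range_succ] using hd n
    refine ⟨π v, fun n => (hm n).ge ⟨_, hv n, ?_⟩⟩
    simp only [map_sub, map_add, map_sum, hd', sum_range_sub, LieHom.coe_toLinearMap, hv₀,
      add_sub_cancel]
  · obtain ⟨u, hu, hu'⟩ := h.bud n (U.comap π.toLinearMap) (map_le_iff_le_comap.1 (hm n ▸ hU))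
    have := fin_mono hU
    have := fin_mono (le_sup_right : gam K L n ≤ im K u ⊔ gam K L n)
    obtain ⟨h3, h4⟩ := cod_map_le π.toLinearMap hπ (im K u ⊔ gam K L n)
    refine ⟨π u, hu, (cod_anti ?_).trans (h4.trans (hu'.trans
      (Nat.add_le_add_right (cod_comap_le _ _) _)))⟩
    rw [Submodule.map_sup, ← hm]
    refine sup_le_sup_right ?_ _
    rintro _ ⟨_, ⟨w, rfl⟩, rfl⟩
    exact ⟨π w, (π.map_lie u w).symm⟩

lemma Concl.of_surjective (π : L →ₗ⁅K⁆ L') (hπ : Function.Surjective π) (h : Concl K L') :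
    Concl K L := fun R => by
  obtain ⟨μ, hμ, ⟨P⟩⟩ := h R
  choose e he using fun i => hπ (P.e i)
  refine ⟨μ, hμ, ⟨⟨fun i => (P.F i).comap π.toLinearMap, e, by simp [P.one],
    fun _ _ hij => comap_mono (P.anti hij), fun i j hij a ha b hb => ?_,
    fun i hi hi' => by simp only [P.gap i hi hi'], fun i hi hi' => ?_,
    fun i hi hi' => by simpa [he] using P.ne i hi hi', fun i j hi hj hij => ?_⟩⟩⟩
  · simpa using P.lie i j hij _ ha _ hb
  · refine le_antisymm (fun v hv => ?_) (sup_le ?_ (comap_mono (P.anti i.le_succ)))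
    · obtain ⟨_, h1, w, hw, e1⟩ := mem_sup.1 ((P.span i hi hi').le hv)
      obtain ⟨c, rfl⟩ := mem_span_singleton.1 h1
      rw [← add_sub_cancel (c • e i) v]
      exact add_mem_sup (smul_mem _ _ (mem_span_singleton_self _))
        (by simpa [he, ← show _ = π v from e1] using hw)
    · simpa [he] using (P.span i hi hi').ge (mem_sup_left (mem_span_singleton_self _))
  · simpa [he] using P.br i j hi hj hij

section

variable [Module K⟦X⟧ L] {x a b : L}

lemma TGen.symm (H : TGen K x a b) : TGen K x b a :=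
  ⟨H.act, fun v => by simpa only [add_right_comm] using exists_congr (fun _ => exists_comm) |>.1 (H.gen v),
    fun u v => by simpa only [add_comm] using exists_comm.1 (H.der u v)⟩

lemma TGen.add (H : TGen K x a b) (q : K⟦X⟧) : TGen K x a (b + q • a) := by
  refine ⟨H.act, fun v => ?_, fun u v => ?_⟩
  · obtain ⟨c, f, g, e⟩ := H.gen v
    exact ⟨c, f - g * q, g, by simp [e, sub_smul, mul_smul, add_assoc]⟩
  · obtain ⟨f, g, e⟩ := H.der u v
    exact ⟨f - g * q, g, by simp [e, sub_smul, mul_smul]⟩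

lemma TGen.torsion (H : TGen K x a b) {f g : K⟦X⟧} (h0 : ¬ (f = 0 ∧ g = 0))
    (e : f • a + g • b = 0) : ∃ (a' b' : L) (k : ℕ), TGen K x a' b' ∧ (X : K⟦X⟧) ^ k • b' = 0 := by
  wlog h : g ∣ f generalizing a b f g
  · exact this H.symm (by tauto) (by rwa [add_comm]) ((ValuationRing.dvd_total g f).resolve_left h)
  obtain ⟨q, rfl⟩ := h
  have hg : g ≠ 0 := fun e => h0 (by simp [e])
  refine ⟨a, _, g.order.toNat, H.add q, (isUnit_divided_by_X_pow_order hg).smul_eq_zero.1 ?_⟩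
  rw [← mul_smul, mul_comm, X_pow_order_mul_divXPowOrder, ← e, smul_add, mul_smul, add_comm]

end

theorem limStmt_of (r1 : Rank1Stmt) (r2 : Rank2Stmt) : LimStmt := by
  intro K L _ _ _ _ _ h
  obtain ⟨x, hx, hx'⟩ := h.exists_gen
  obtain ⟨_, _, act⟩ := h.exists_module x
  obtain ⟨a, b, H⟩ := h.exists_tgen act hx.bud hx'
  by_cases h1 : ∀ (c : K) (f g : K⟦X⟧), c • x + f • a + g • b = 0 → c = 0 ∧ f = 0 ∧ g = 0
  swap
  · obtain ⟨c, f, g, e, h2⟩ : ∃ (c : K) (f g : K⟦X⟧), c • x + f • a + g • b = 0 ∧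
      ¬ (c = 0 ∧ f = 0 ∧ g = 0) := by simpa only [not_forall, exists_prop] using h1
    obtain ⟨a', b', k, H', e'⟩ := H.torsion (f := X * f) (g := X * g) (fun h3 => by
      simp only [mul_eq_zero, X_ne_zero, false_or] at h3
      simp only [h3, zero_smul, add_zero, smul_eq_zero, and_true] at e h2
      exact hx' (e.resolve_left h2 ▸ zero_mem _)) (by
      simpa [act, mul_smul] using congrArg ((X : K⟦X⟧) • ·) e)
    exact r1 K L x a' b' k h H' e'
  by_cases h2 : ∀ N : Submodule K⟦X⟧ L, (∀ u : L, ∀ v ∈ N, ⁅u, v⁆ ∈ N) → N ≠ ⊥ →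
    ∃ n, ∀ v ∈ gam K L n, v ∈ N
  · exact r2 K L x a b h hx H h1 h2
  push Not at h2
  obtain ⟨N, h3, h4, h5⟩ := h2
  let I : LieIdeal K L := { N.restrictScalars K with lie_mem := fun hv => h3 _ _ hv }
  let π : L →ₗ⁅K⁆ L ⧸ I := { I.toSubmodule.mkQ with map_lie' := rfl }
  have hπ : Function.Surjective π := I.toSubmodule.mkQ_surjective
  have h0 : ∀ v, π v = 0 ↔ v ∈ N := fun v => Submodule.Quotient.mk_eq_zero _
  have h' := h.of_surjective π hπ (by simpa only [h0] using fun v => h.closed H N)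
    (by simpa only [ne_eq, h0] using h5)
  obtain ⟨_, _, act'⟩ := h'.exists_module (π x)
  have h6 : ∀ (f : K⟦X⟧) v, π (f • v) = f • π v := fun f v => sub_eq_zero.1 (h'.sep _ fun n => by
    have h7 : ∀ m v, π ((X : K⟦X⟧) ^ m • v) = (X : K⟦X⟧) ^ m • π v := fun m v => by
      induction m with
      | zero => simp
      | succ m ih => rw [pow_succ', mul_smul, mul_smul, act, act', LieHom.map_lie, ih]
    obtain ⟨g, hg⟩ := smul_eq_sum (L := L) f n
    obtain ⟨g', hg'⟩ := smul_eq_sum (L := L ⧸ I) f n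
    simpa [hg v, hg' (π v), h7, smul_sub] using
      X_pow_smul_mem act' n (n := 0) (v := π (g • v) - g' • π v) trivial)
  have H' : TGen K (π x) (π a) (π b) := ⟨act', fun v => by
      obtain ⟨v, rfl⟩ := hπ v
      obtain ⟨c, f, g, rfl⟩ := H.gen v
      exact ⟨c, f, g, by simp [h6]⟩, fun u v => by
      obtain ⟨u, rfl⟩ := hπ u
      obtain ⟨v, rfl⟩ := hπ v
      obtain ⟨f, g, e⟩ := H.der u v
      exact ⟨f, g, by simp [← LieHom.map_lie, e, h6]⟩⟩
  obtain ⟨v, hv, hv'⟩ := exists_mem_ne_zero_of_ne_bot h4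
  obtain ⟨c, f, g, rfl⟩ := H.gen v
  obtain ⟨a', b', k, H'', e'⟩ := H'.torsion (f := X * f) (g := X * g) (fun h7 => by
    simp only [mul_eq_zero, X_ne_zero, false_or] at h7
    simp only [h7, zero_smul, add_zero, ne_eq, smul_eq_zero, not_or] at hv hv'
    obtain ⟨n, hn⟩ := h.cofinal H 1
    obtain ⟨v, h8, h9⟩ := h5 n
    obtain ⟨w, rfl⟩ := hn v h8
    rw [pow_one, act, ← lie_skew] at h9
    exact h9 (neg_mem (h3 _ _ (((N.restrictScalars K).smul_mem_iff hv'.1).1 hv)))) (by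
    simpa [act', h6, mul_smul] using
      congrArg ((X : K⟦X⟧) • ·) ((h0 _).2 hv))
  exact (r1 K _ _ a' b' k h' H'' e').of_surjective π hπ

end Pool.Agent.P78
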