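import Pool.Agent.Lib.MP_78c6b1_al.Lim.R1Main
import Pool.Agent.Lib.MP_78c6b1_al.Lim.R1P
import Pool.Agent.Lib.MP_78c6b1_al.Lim.R1Q2
import Pool.Agent.Lib.MP_78c6b1_al.Lim.R1Q3
import Pool.Agent.Lib.MP_78c6b1_al.Lim.Reduce
import Pool.Agent.Lib.MP_78c6b1_al.Lim.Limit

/-! Rank one, and the classification block from rank two. -/

namespace Pool.Agent.P78

theorem rank1Stmt : Rank1Stmt := rank1Stmt_of pStmt q1Stmt q2Stmt q3Stmt

theorem classStmt_of_rank2 (h : Rank2Stmt) : ClassStmt := classStmt_of (limStmt_of rank1Stmt h)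

end Pool.Agent.P78
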