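import Pool.Agent.Lib.MP_78c6b1_al.Lim.Api
import Pool.Agent.Lib.MP_78c6b1_al.Weil.Ultra

/-! The separated ultraproduct of Lie algebras and its internal subspaces. -/

namespace Pool.Agent.P78

open Module Submodule Filter Pool.Agent.Lib.MP_78c6b1_al.Weil

variable (U : Ultrafilter ℕ) (F : ℕ → Type) [∀ i, Field (F i)] (L : ℕ → Type) [∀ i, LieRing (L i)]

/-- The product Lie ring. -/
def PL : Type := ∀ i, L i

instance : LieRing (PL L) where
  __ := (inferInstance : AddCommGroup (∀ i, L i))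
  bracket x y i := ⁅x i, y i⁆
  add_lie _ _ _ := funext fun _ => add_lie _ _ _
  lie_add _ _ _ := funext fun _ => lie_add _ _ _
  lie_self _ := funext fun _ => lie_self _
  leibniz_lie _ _ _ := funext fun _ => leibniz_lie _ _ _

variable [∀ i, LieAlgebra (F i) (L i)]

instance : LieAlgebra (∀ i, F i) (PL L) where
  __ := (inferInstance : Module (∀ i, F i) (∀ i, L i))
  lie_smul _ _ _ := funext fun _ => lie_smul _ _ _

/-- The families that are infinitely deep. -/
def nul : LieIdeal (∀ i, F i) (PL L) where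
  carrier := {v | ∀ n, ∀ᶠ i in U, v i ∈ gam (F i) (L i) n}
  zero_mem' _ := Eventually.of_forall fun _ => zero_mem _
  add_mem' ha hb n := ((ha n).and (hb n)).mono fun _ h => add_mem h.1 h.2
  smul_mem' _ _ h n := (h n).mono fun _ h => smul_mem _ _ h
  lie_mem h n := (h n).mono fun _ h => lie_mem_gam_right _ h

/-- The separated ultraproduct. -/
def UL : Type := PL L ⧸ nul U F L

noncomputable instance : LieRing (UL U F L) := inferInstanceAs (LieRing (PL L ⧸ nul U F L))

noncomputable instance : LieAlgebra (∀ i, F i) (UL U F L) :=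
  inferInstanceAs (LieAlgebra _ (PL L ⧸ nul U F L))

/-- The quotient map. -/
noncomputable def pl : (∀ i, L i) →ₗ[∀ i, F i] UL U F L := (nul U F L).toSubmodule.mkQ

lemma pl_surj : Function.Surjective (pl U F L) := mkQ_surjective _

variable {U F L}

lemma pl_eq_zero {v : ∀ i, L i} : pl U F L v = 0 ↔ ∀ n, ∀ᶠ i in U, v i ∈ gam (F i) (L i) n :=
  Submodule.Quotient.mk_eq_zero _

lemma pl_congr {v w : ∀ i, L i} (h : ∀ᶠ i in U, v i = w i) : pl U F L v = pl U F L w := by
  rw [← sub_eq_zero, ← map_sub, pl_eq_zero]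
  exact fun n => h.mono fun i hi => by simp [hi]

lemma pl_lie (v w : ∀ i, L i) : ⁅pl U F L v, pl U F L w⁆ = pl U F L fun i => ⁅v i, w i⁆ := rfl

lemma UL_tors : Module.IsTorsionBySet (∀ i, F i) (UL U F L) (null U F) := by
  rintro v ⟨c, hc⟩
  obtain ⟨v, rfl⟩ := pl_surj U F L v
  change c • _ = _
  rw [← map_smul, ← map_zero (pl U F L)]
  exact pl_congr (Eventually.mono hc fun i hi => by simp [hi])

noncomputable instance : Module (UP U F) (UL U F L) := UL_tors.module

lemma pl_smul (c : ∀ i, F i) (v : ∀ i, L i) : pr U F c • pl U F L v = pl U F L (c • v) := rfl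

noncomputable instance : LieAlgebra (UP U F) (UL U F L) where
  lie_smul c v w := by
    obtain ⟨c, rfl⟩ := pr_surj U F c
    exact lie_smul c v w

variable (U)

/-- Internal subspaces. -/
def intS (W : ∀ i, Submodule (F i) (L i)) : Submodule (UP U F) (UL U F L) where
  carrier := {z | ∃ y : ∀ i, L i, (∀ᶠ i in U, y i ∈ W i) ∧ pl U F L y = z}
  zero_mem' := ⟨0, Eventually.of_forall fun _ => zero_mem _, map_zero _⟩
  add_mem' := by
    rintro _ _ ⟨y, hy, rfl⟩ ⟨z, hz, rfl⟩
    exact ⟨y + z, (hy.and hz).mono fun _ h => add_mem h.1 h.2, map_add _ _ _⟩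
  smul_mem' := by
    rintro c _ ⟨y, hy, rfl⟩
    obtain ⟨c, rfl⟩ := pr_surj U F c
    exact ⟨c • y, hy.mono fun _ h => smul_mem _ _ h, rfl⟩

variable {U} {V W : ∀ i, Submodule (F i) (L i)} {n : ℕ}

lemma pl_mem_intS {y : ∀ i, L i} (h : ∀ᶠ i in U, y i ∈ W i) : pl U F L y ∈ intS U W := ⟨y, h, rfl⟩

lemma mem_intS (hW : ∀ i, gam (F i) (L i) n ≤ W i) {y : ∀ i, L i} :
    pl U F L y ∈ intS U W ↔ ∀ᶠ i in U, y i ∈ W i := by
  refine ⟨fun ⟨z, hz, e⟩ => ?_, pl_mem_intS⟩
  rw [← sub_eq_zero, ← map_sub, pl_eq_zero] at e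
  exact (hz.and (e n)).mono fun i h => by simpa using sub_mem h.1 (hW i h.2)

lemma intS_le_iff (hW : ∀ i, gam (F i) (L i) n ≤ W i) :
    intS U V ≤ intS U W ↔ ∀ᶠ i in U, V i ≤ W i := by
  refine ⟨fun h => by_contra fun hn => ?_, ?_⟩
  · have h1 := Ultrafilter.eventually_not.2 hn
    choose! y hy hy' using fun i (h : ¬ V i ≤ W i) => SetLike.not_le_iff_exists.1 h
    obtain ⟨i, a1, a2⟩ := (h1.and ((mem_intS hW).1 (h (pl_mem_intS (h1.mono hy))))).exists
    exact hy' i a1 a2
  · rintro h _ ⟨y, hy, rfl⟩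
    exact pl_mem_intS ((hy.and h).mono fun i h => h.2 h.1)

lemma intS_top : intS U (fun i => (⊤ : Submodule (F i) (L i))) = ⊤ := top_unique fun v _ =>
  have ⟨y, hy⟩ := pl_surj U F L v
  ⟨y, Eventually.of_forall fun _ => trivial, hy⟩

lemma intS_sup_span {ι : Type} [Fintype ι] (z : ι → ∀ i, L i) :
    intS U W ⊔ span (UP U F) (Set.range fun j => pl U F L (z j)) =
      intS U fun i => W i ⊔ span (F i) (Set.range fun j => z j i) := by
  refine le_antisymm (sup_le ?_ (span_le.2 ?_)) ?_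
  · rintro _ ⟨y, hy, rfl⟩
    exact pl_mem_intS (hy.mono fun i h => mem_sup_left h)
  · rintro _ ⟨j, rfl⟩
    exact pl_mem_intS (Eventually.of_forall fun i => mem_sup_right (subset_span ⟨j, rfl⟩))
  · rintro _ ⟨y, hy, rfl⟩
    have h1 : ∀ i, y i ∈ W i ⊔ span (F i) (Set.range fun j => z j i) →
        ∃ w ∈ W i, ∃ c : ι → F i, y i = w + ∑ j, c j • z j i := fun i h => by
      obtain ⟨w, hw, s, hs, e⟩ := mem_sup.1 h
      obtain ⟨c, rfl⟩ := (mem_span_range_iff_exists_fun _).1 hs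
      exact ⟨w, hw, c, e.symm⟩
    choose! w hw c hc using h1
    rw [pl_congr (w := w + ∑ j, (fun i => c i j) • z j) (hy.mono fun i h => by simpa using hc i h),
      map_add, map_sum]
    exact add_mem_sup (pl_mem_intS (hy.mono hw)) (sum_mem fun j _ =>
      smul_mem _ (pr U F fun i => c i j) (subset_span (Set.mem_range_self j)))

lemma fin_of_sup_span {K M : Type} [Field K] [AddCommGroup M] [Module K M] {W : Submodule K M}
    {ι : Type} [Finite ι] {z : ι → M} (h : W ⊔ span K (Set.range z) = ⊤) :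
    FiniteDimensional K (M ⧸ W) := by
  refine ⟨fg_iff_finiteDimensional _ |>.2 ?_⟩
  rw [← range_mkQ, ← Submodule.map_top, ← h, Submodule.map_sup, mkQ_map_self, bot_sup_eq, map_span,
    ← Set.range_comp]
  exact FiniteDimensional.span_of_finite K (Set.finite_range _)

variable [∀ i, FiniteDimensional (F i) (L i)]

lemma cod_intS_le {c : ℕ} (h : ∀ᶠ i in U, cod (W i) ≤ c) :
    FiniteDimensional (UP U F) (UL U F L ⧸ intS U W) ∧ cod (intS U W) ≤ c := by
  choose! z hz using fun i (h : cod (W i) ≤ c) => cod_le_iff.1 h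
  have h1 := intS_sup_span (U := U) (W := W) fun j i => z i j
  have h2 := h1.trans (top_unique (intS_top.ge.trans fun _ ⟨y, _, e⟩ =>
    ⟨y, h.mono fun i hi => (hz i hi).ge trivial, e⟩))
  have := fin_of_sup_span h2
  exact ⟨this, cod_le_iff.2 ⟨_, h2⟩⟩

lemma le_of_cod_intS {c : ℕ} (hW : ∀ i, gam (F i) (L i) n ≤ W i)
    [FiniteDimensional (UP U F) (UL U F L ⧸ intS U W)] (h : cod (intS U W) ≤ c) :
    ∀ᶠ i in U, cod (W i) ≤ c := by
  obtain ⟨z, hz⟩ := cod_le_iff.1 h
  choose y hy using fun j => pl_surj U F L (z j)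
  obtain rfl := funext hy
  rw [intS_sup_span, ← intS_top] at hz
  exact ((intS_le_iff fun i => (hW i).trans le_sup_left).1 hz.ge).mono fun i hi =>
    cod_le_iff.2 ⟨_, top_unique hi⟩

end Pool.Agent.P78
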